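import Mathlib

set_option autoImplicit false

namespace Pool.Agent.Helper79.AbSq

/-- Images of the letters under an 8-uniform morphism on 8 letters. -/
def tbl : Fin 8 → List (Fin 8) :=
  ![[0,1,5,4,5,3,4,1], [0,1,5,1,6,0,7,1], [0,6,0,5,0,7,4,1], [0,2,1,4,2,6,2,1],
    [0,4,7,5,7,0,7,1], [0,1,3,0,2,0,7,1], [0,6,3,4,7,6,2,1], [0,2,5,2,3,2,5,1]]

theorem tbl_length : ∀ c, (tbl c).length = 8 := by decide

/-- Weights of the letters. -/
def g : Fin 8 → ℤ := ![91, 1283, 147, 1203, 1027, 1387, 219, 155]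

/-- (value, doubled value, letter, position). -/
def L : List (ℕ × ℕ × ℕ × ℕ) := [(0, 0, 0, 0), (91, 182, 0, 1), (1374, 1300, 0, 2), (1313, 1178, 0, 3), (892, 336, 0, 4), (831, 214, 0, 5), (586, 1172, 0, 6), (165, 330, 0, 7), (0, 0, 1, 0), (91, 182, 1, 1), (1374, 1300, 1, 2), (1313, 1178, 1, 3), (1148, 848, 1, 4), (1367, 1286, 1, 5), (10, 20, 1, 6), (165, 330, 1, 7), (0, 0, 2, 0), (91, 182, 2, 1), (310, 620, 2, 2), (401, 802, 2, 3), (340, 680, 2, 4), (431, 862, 2, 5), (586, 1172, 2, 6), (165, 330, 2, 7), (0, 0, 3, 0), (91, 182, 3, 1), (238, 476, 3, 2), (73, 146, 3, 3), (1100, 752, 3, 4), (1247, 1046, 3, 5), (18, 36, 3, 6), (165, 330, 3, 7), (0, 0, 4, 0), (91, 182, 4, 1), (1118, 788, 4, 2), (1273, 1098, 4, 3), (1212, 976, 4, 4), (1367, 1286, 4, 5), (10, 20, 4, 6), (165, 330, 4, 7), (0, 0, 5, 0), (91, 182, 5, 1), (1374, 1300, 5, 2), (1129, 810, 5, 3), (1220, 992, 5, 4), (1367, 1286, 5, 5), (10, 20, 5, 6), (165, 330, 5, 7), (0, 0, 6, 0), (91, 182, 6, 1), (310, 620, 6, 2), (65, 130, 6, 3), (1092,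 736, 6, 4), (1247, 1046, 6, 5), (18, 36, 6, 6), (165, 330, 6, 7), (0, 0, 7, 0), (91, 182, 7, 1), (238, 476, 7, 2), (177, 354, 7, 3), (324, 648, 7, 4), (79, 158, 7, 5), (226, 452, 7, 6), (165, 330, 7, 7)]

def fin8 (n : ℕ) : Fin 8 := Fin.ofNat 8 n

def good (a b c : ℕ × ℕ × ℕ × ℕ) : Bool :=
  Nat.beq a.2.2.2 b.2.2.2 && Nat.beq b.2.2.2 c.2.2.2 &&
  ((decide ((tbl (fin8 a.2.2.1)).take a.2.2.2 = (tbl (fin8 b.2.2.1)).take a.2.2.2) &&
    decide ((tbl (fin8 b.2.2.1)).take a.2.2.2 = (tbl (fin8 c.2.2.1)).take a.2.2.2)) ||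
   (decide ((tbl (fin8 a.2.2.1)).drop a.2.2.2 = (tbl (fin8 b.2.2.1)).drop a.2.2.2) &&
    decide ((tbl (fin8 b.2.2.1)).drop a.2.2.2 = (tbl (fin8 c.2.2.1)).drop a.2.2.2)))

def inner (a c : ℕ × ℕ × ℕ × ℕ) (s : ℕ) : Bool :=
  L.all fun b => !(Nat.beq b.2.1 s) || good a b c

def mask : ℕ := 21828348033225750906540168033774149322596366446701589220815550898973942907507187963414054644487026882542043714525197592169219172743332741634206037640954749701274485879246252094556250121476930022004175998025542070951544519932703330969000160662906981512937655818514128344020602156002982452875680027698263422109293697546023461220620092789653212850909071841868667673043075332614707166392863424513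

def check : Bool := L.all fun a => L.all fun c =>
  !(Nat.testBit mask ((a.1 + c.1) % 1448)) || inner a c ((a.1 + c.1) % 1448)

theorem mask_true : (L.all fun b => Nat.testBit mask b.2.1) = true := by decide +kernel

theorem check_true : check = true := by decide +kernel

/-- Sum of `F` along a word. -/
def S (F : Fin 8 → ℤ) (w : List (Fin 8)) : ℤ := (w.map F).sum

@[simp] theorem S_nil (F : Fin 8 → ℤ) : S F [] = 0 := rfl
@[simp] theorem S_cons (F : Fin 8 → ℤ) (a : Fin 8) (w : List (Fin 8)) : S F (a :: w) = F a + S F w := by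
  simp [S]
@[simp] theorem S_append (F : Fin 8 → ℤ) (u v : List (Fin 8)) : S F (u ++ v) = S F u + S F v := by
  simp [S]

theorem S_perm (F : Fin 8 → ℤ) {u v : List (Fin 8)} (h : u.Perm v) : S F u = S F v :=
  (h.map F).sum_eq

/-- The table of values. -/
theorem L_spec : ∀ c r : Fin 8, ∃ v : ℕ, (v, (2 * v) % 1448, c.val, r.val) ∈ L ∧
    (v : ℤ) = (S g ((tbl c).take r.val)) % 1448 := by
  have h : ∀ c r : Fin 8, ((S g ((tbl c).take r.val) % 1448).toNat,
      (2 * (S g ((tbl c).take r.val) % 1448).toNat) % 1448, c.val, r.val) ∈ L := by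
    decide +kernel
  intro c r
  refine ⟨_, h c r, ?_⟩
  rw [Int.toNat_of_nonneg]
  exact Int.emod_nonneg _ (by norm_num)

theorem S_tbl : ∀ c : Fin 8, S g (tbl c) % 1448 = 0 := by decide

/-- The combinatorial core: no nontrivial three-term progressions among the values. -/
theorem core (c₀ c₁ c₂ r₀ r₁ r₂ : Fin 8)
    (h : (S g ((tbl c₀).take r₀.val) + S g ((tbl c₂).take r₂.val)) % 1448 =
      (2 * S g ((tbl c₁).take r₁.val)) % 1448) :
    r₀ = r₁ ∧ r₁ = r₂ ∧
      (((tbl c₀).take r₀.val = (tbl c₁).take r₀.val ∧ (tbl c₁).take r₀.val = (tbl c₂).take r₀.val) ∨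
       ((tbl c₀).drop r₀.val = (tbl c₁).drop r₀.val ∧ (tbl c₁).drop r₀.val = (tbl c₂).drop r₀.val)) := by
  obtain ⟨v₀, hv₀, e₀⟩ := L_spec c₀ r₀
  obtain ⟨v₁, hv₁, e₁⟩ := L_spec c₁ r₁
  obtain ⟨v₂, hv₂, e₂⟩ := L_spec c₂ r₂
  have hs : (v₀ + v₂) % 1448 = (2 * v₁) % 1448 := by
    have : ((v₀ + v₂ : ℕ) : ℤ) % 1448 = ((2 * v₁ : ℕ) : ℤ) % 1448 := by
      push_cast
      rw [e₀, e₁, e₂]
      omega
    exact_mod_cast this
  have hc := check_true
  rw [check, List.all_eq_true] at hc
  have h1 := hc _ hv₀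
  rw [List.all_eq_true] at h1
  have h2 := h1 _ hv₂
  simp only at h2
  rw [hs] at h2
  have hm := mask_true
  rw [List.all_eq_true] at hm
  have h3 := hm _ hv₁
  simp only at h3
  rw [h3] at h2
  simp only [Bool.not_true, Bool.false_or] at h2
  rw [inner, List.all_eq_true] at h2
  have h4 := h2 _ hv₁
  simp only at h4
  have h5 : Nat.beq (2 * v₁ % 1448) (2 * v₁ % 1448) = true := Nat.beq_refl _
  rw [h5] at h4
  simp only [Bool.not_true, Bool.false_or, good] at h4
  simp only [Bool.and_eq_true, Bool.or_eq_true, decide_eq_true_eq] at h4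
  obtain ⟨⟨h6, h7⟩, h8⟩ := h4
  have h6' := Nat.eq_of_beq_eq_true h6
  have h7' := Nat.eq_of_beq_eq_true h7
  have ef : ∀ c : Fin 8, fin8 c.val = c := by decide
  simp only [ef] at h8
  exact ⟨Fin.ext h6', Fin.ext h7', h8⟩

/-- The fixed point of the morphism. -/
def x (n : ℕ) : Fin 8 := if h : n = 0 then 0 else (tbl (x (n / 8))).getD (n % 8) 0
termination_by n
decreasing_by omega

theorem x_zero : x 0 = 0 := by rw [x]; simp

theorem x_rec (j r : ℕ) (hr : r < 8) : x (8 * j + r) = (tbl (x j)).getD r 0 := by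
  by_cases h : 8 * j + r = 0
  · have hj : j = 0 := by omega
    have hr0 : r = 0 := by omega
    subst hj; subst hr0
    simp [x_zero, tbl]
  · rw [x, dif_neg h]
    have h1 : (8 * j + r) / 8 = j := by omega
    have h2 : (8 * j + r) % 8 = r := by omega
    rw [h1, h2]

/-- Prefixes of the fixed point. -/
def pref (n : ℕ) : List (Fin 8) := (List.range n).map x

theorem pref_length (n : ℕ) : (pref n).length = n := by simp [pref]

theorem pref_succ (n : ℕ) : pref (n + 1) = pref n ++ [x n] := by
  simp [pref, List.range_succ]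

theorem pref_add (j r : ℕ) (hr : r ≤ 8) : pref (8 * j + r) = pref (8 * j) ++ (tbl (x j)).take r := by
  induction r with
  | zero => simp
  | succ r ih =>
    rw [← Nat.add_assoc, pref_succ, ih (by omega), x_rec j r (by omega), List.append_assoc]
    congr 1
    have hl : r < (tbl (x j)).length := by rw [tbl_length]; omega
    rw [List.take_succ_eq_append_getElem hl, List.getD_eq_getElem _ _ hl]

theorem pref_mul (j : ℕ) : pref (8 * j) = (pref j).flatMap tbl := by
  induction j with
  | zero => simp [pref]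
  | succ j ih =>
    have h := pref_add j 8 le_rfl
    rw [show 8 * (j + 1) = 8 * j + 8 by ring, h, pref_succ, List.flatMap_append, ih]
    congr 1
    rw [List.take_of_length_le (by rw [tbl_length])]
    simp

theorem S_pref_mul (F : Fin 8 → ℤ) (j : ℕ) :
    S F (pref (8 * j)) = S (fun c => S F (tbl c)) (pref j) := by
  rw [pref_mul]
  induction pref j with
  | nil => rfl
  | cons a w ih => simp [ih]

theorem S_pref_mod (j r : ℕ) (hr : r ≤ 8) :
    S g (pref (8 * j + r)) % 1448 = S g ((tbl (x j)).take r) % 1448 := by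
  rw [pref_add j r hr, S_append, S_pref_mul]
  have : (S (fun c => S g (tbl c)) (pref j)) % 1448 = 0 := by
    induction pref j with
    | nil => rfl
    | cons a w ih =>
      rw [S_cons, Int.add_emod, ih, S_tbl]; rfl
  omega

/-- An abelian square between the positions `a`, `b`, `c` of the fixed point. -/
def Sq (a b c : ℕ) : Prop := ∀ F : Fin 8 → ℤ, S F (pref a) + S F (pref c) = 2 * S F (pref b)

/-- Left inverse (up to the factor 1448) of the incidence matrix. -/
def B : Fin 8 → Fin 8 → ℤ :=
  ![![-91, 165, -147, 245, 421, 61, -219, -155], ![-168, 416, -160, -216, -448, 224, 264, 48],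
    ![525, -395, -43, -411, 133, 205, 261, -331], ![-23, 169, 297, -495, 361, -271, -119, -71],
    ![-153, -9, 87, -145, 135, 23, -225, 535], ![269, 101, -11, 501, -67, -419, -371, -51],
    ![-167, -95, -47, 561, -23, -79, 521, 177], ![-11, -171, 205, 141, -331, 437, 69, 29]]

theorem B_spec : ∀ e d : Fin 8, S (B e) (tbl d) = if e = d then 1448 else 0 := by decide

theorem S_lin (F : Fin 8 → ℤ) (w : List (Fin 8)) :
    S (fun t => ∑ e, F e * B e t) w = ∑ e, F e * S (B e) w := by
  induction w with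
  | nil => simp
  | cons a w ih => rw [S_cons, ih, ← Finset.sum_add_distrib]; simp [mul_add]

theorem S_inv (F : Fin 8 → ℤ) (d : Fin 8) : S (fun t => ∑ e, F e * B e t) (tbl d) = 1448 * F d := by
  rw [S_lin]
  simp only [B_spec]
  simp [mul_comm]

theorem S_smul (F : Fin 8 → ℤ) (k : ℤ) (w : List (Fin 8)) :
    S (fun t => k * F t) w = k * S F w := by
  induction w with
  | nil => simp
  | cons a w ih => rw [S_cons, S_cons, ih]; ring

/-- The descent. -/
theorem Sq_desc (a b c : ℕ) (h : ∀ F : Fin 8 → ℤ,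
    S F (pref (8 * a)) + S F (pref (8 * c)) = 2 * S F (pref (8 * b))) : Sq a b c := by
  intro F
  have h1 := h (fun t => ∑ e, F e * B e t)
  simp only [S_pref_mul, S_inv, S_smul] at h1
  linarith

theorem no_sq (n : ℕ) : 0 < n → ∀ i, ¬ Sq i (i + n) (i + 2 * n) := by
  induction n using Nat.strong_induction_on with
  | _ n ih =>
    intro hn i h
    have e0 : i = 8 * (i / 8) + i % 8 := (Nat.div_add_mod i 8).symm
    have e1 : i + n = 8 * ((i + n) / 8) + (i + n) % 8 := (Nat.div_add_mod _ 8).symm
    have e2 : i + 2 * n = 8 * ((i + 2 * n) / 8) + (i + 2 * n) % 8 := (Nat.div_add_mod _ 8).symm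
    set j₀ := i / 8
    set j₁ := (i + n) / 8
    set j₂ := (i + 2 * n) / 8
    have m0 : i % 8 < 8 := Nat.mod_lt _ (by norm_num)
    have m1 : (i + n) % 8 < 8 := Nat.mod_lt _ (by norm_num)
    have m2 : (i + 2 * n) % 8 < 8 := Nat.mod_lt _ (by norm_num)
    have hg := h g
    have f0 := S_pref_mod j₀ (i % 8) m0.le
    have f1 := S_pref_mod j₁ ((i + n) % 8) m1.le
    have f2 := S_pref_mod j₂ ((i + 2 * n) % 8) m2.le
    rw [← e0] at f0
    rw [← e1] at f1
    rw [← e2] at f2
    have hcore := core (x j₀) (x j₁) (x j₂) ⟨i % 8, m0⟩ ⟨(i + n) % 8, m1⟩ ⟨(i + 2 * n) % 8, m2⟩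
      (by simp only; omega)
    obtain ⟨r1, r2, hor⟩ := hcore
    simp only [Fin.mk.injEq] at r1 r2
    rcases hor with ⟨h1, h2⟩ | ⟨h1, h2⟩
    · simp only at h1 h2
      have hsq : Sq j₀ j₁ j₂ := by
        apply Sq_desc
        intro F
        have hF := h F
        have p0 : pref i = pref (8 * j₀) ++ (tbl (x j₀)).take (i % 8) := by
          conv_lhs => rw [e0]
          exact pref_add _ _ m0.le
        have p1 : pref (i + n) = pref (8 * j₁) ++ (tbl (x j₁)).take (i % 8) := by
          conv_lhs => rw [e1, ← r1]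
          exact pref_add _ _ m0.le
        have p2 : pref (i + 2 * n) = pref (8 * j₂) ++ (tbl (x j₂)).take (i % 8) := by
          conv_lhs => rw [e2, ← r2, ← r1]
          exact pref_add _ _ m0.le
        rw [p0, p1, p2] at hF
        simp only [S_append, h1, ← h2] at hF
        linarith
      have k1 : j₁ = j₀ + (j₁ - j₀) := by omega
      have k2 : j₂ = j₀ + 2 * (j₁ - j₀) := by omega
      rw [k2] at hsq
      have hlt : j₁ - j₀ < n := by omega
      have hpos : 0 < j₁ - j₀ := by omega
      apply ih _ hlt hpos j₀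
      rwa [← k1]
    · simp only at h1 h2
      have hsq : Sq (j₀ + 1) (j₁ + 1) (j₂ + 1) := by
        apply Sq_desc
        intro F
        have hF := h F
        have key : ∀ j r : ℕ, r ≤ 8 → S F (pref (8 * (j + 1))) =
            S F (pref (8 * j + r)) + S F ((tbl (x j)).drop r) := by
          intro j r hr
          have q1 := pref_add j 8 le_rfl
          rw [List.take_of_length_le (by rw [tbl_length])] at q1
          rw [show 8 * (j + 1) = 8 * j + 8 by ring, q1, pref_add j r hr, S_append, S_append, add_assoc,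
            ← S_append F ((tbl (x j)).take r) ((tbl (x j)).drop r), List.take_append_drop]
        rw [key j₀ (i % 8) m0.le, key j₁ (i % 8) m0.le, key j₂ (i % 8) m0.le]
        have p0 : pref i = pref (8 * j₀ + i % 8) := by rw [← e0]
        have p1 : pref (i + n) = pref (8 * j₁ + i % 8) := by rw [r1, ← e1]
        have p2 : pref (i + 2 * n) = pref (8 * j₂ + i % 8) := by rw [r1, r2, ← e2]
        rw [p0, p1, p2] at hF
        rw [h1, ← h2]
        linarith
      have k1 : j₁ + 1 = (j₀ + 1) + (j₁ - j₀) := by omega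
      have k2 : j₂ + 1 = (j₀ + 1) + 2 * (j₁ - j₀) := by omega
      rw [k2] at hsq
      have hlt : j₁ - j₀ < n := by omega
      have hpos : 0 < j₁ - j₀ := by omega
      apply ih _ hlt hpos (j₀ + 1)
      rwa [← k1]

theorem pref_take (n m : ℕ) (h : m ≤ n) : (pref n).take m = pref m := by
  simp [pref, ← List.map_take, List.take_range, Nat.min_eq_left h]

/-- Prefixes of the fixed point contain no abelian square. -/
theorem pref_free (m : ℕ) (u a b v : List (Fin 8)) (h : pref m = u ++ a ++ b ++ v) (ha : a ≠ []) :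
    ¬ a.Perm b := by
  intro hp
  have hlen : a.length = b.length := hp.length_eq
  have hm : m = u.length + a.length + b.length + v.length := by
    have := congrArg List.length h
    simp only [pref_length, List.length_append] at this
    exact this
  have hpos : 0 < a.length := List.length_pos_iff.2 ha
  apply no_sq a.length hpos u.length
  intro F
  have p0 : pref u.length = u := by
    rw [← pref_take m _ (by omega), h]; simp
  have p1 : pref (u.length + a.length) = u ++ a := by
    rw [← pref_take m _ (by omega), h]; simp [List.take_append]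
  have p2 : pref (u.length + 2 * a.length) = u ++ a ++ b := by
    rw [← pref_take m _ (by omega), h]
    have : u.length + 2 * a.length = (u ++ a ++ b).length := by
      simp only [List.length_append]; omega
    rw [this]
    exact List.take_left' rfl
  rw [p0, p1, p2]
  simp only [S_append, S_perm F hp]
  ring

end Pool.Agent.Helper79.AbSq
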