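import Mathlib

set_option autoImplicit false

namespace Pool.Agent.Helper79.CFG

universe u

variable {T : Type u}

/-- `Comp S α w`: the word `w` is a concatenation of words, one for each symbol of `α`, where a
terminal contributes itself and a nonterminal `A` contributes a word of `S A`. -/
def Comp {N : Type} (S : N → Set (List T)) : List (Symbol T N) → List T → Prop
  | [], w => w = []
  | Symbol.terminal t :: α, w => ∃ w', w = t :: w' ∧ Comp S α w'
  | Symbol.nonterminal A :: α, w => ∃ w₁ w₂, w = w₁ ++ w₂ ∧ w₁ ∈ S A ∧ Comp S α w₂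

theorem comp_append {N : Type} (S : N → Set (List T)) (α β : List (Symbol T N)) (w : List T) :
    Comp S (α ++ β) w ↔ ∃ w₁ w₂, w = w₁ ++ w₂ ∧ Comp S α w₁ ∧ Comp S β w₂ := by
  induction α generalizing w with
  | nil =>
    simp only [List.nil_append, Comp]
    constructor
    · intro h
      exact ⟨[], w, by simp, rfl, h⟩
    · rintro ⟨w₁, w₂, rfl, rfl, h⟩
      simpa using h
  | cons s α ih =>
    cases s with
    | terminal t =>
      simp only [List.cons_append, Comp, ih]
      constructor
      · rintro ⟨w', rfl, w₁, w₂, rfl, h1, h2⟩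
        exact ⟨t :: w₁, w₂, by simp, ⟨w₁, rfl, h1⟩, h2⟩
      · rintro ⟨w₁, w₂, rfl, ⟨w', rfl, h1⟩, h2⟩
        exact ⟨w' ++ w₂, by simp, w', w₂, rfl, h1, h2⟩
    | nonterminal A =>
      simp only [List.cons_append, Comp, ih]
      constructor
      · rintro ⟨v₁, v₂, rfl, hA, w₁, w₂, rfl, h1, h2⟩
        exact ⟨v₁ ++ w₁, w₂, by simp, ⟨v₁, w₁, rfl, hA, h1⟩, h2⟩
      · rintro ⟨w₁, w₂, rfl, ⟨v₁, v₂, rfl, hA, h1⟩, h2⟩
        exact ⟨v₁, v₂ ++ w₂, by simp, hA, v₂, w₂, rfl, h1, h2⟩

theorem comp_map_terminal {N : Type} (S : N → Set (List T)) (w v : List T) :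
    Comp S (w.map Symbol.terminal) v ↔ v = w := by
  induction w generalizing v with
  | nil => simp [Comp]
  | cons t w ih =>
    simp only [List.map_cons, Comp, ih]
    constructor
    · rintro ⟨w', rfl, rfl⟩; rfl
    · rintro rfl; exact ⟨w, rfl, rfl⟩

theorem comp_mono {N : Type} {S S' : N → Set (List T)} (h : ∀ A, S A ⊆ S' A)
    (α : List (Symbol T N)) (w : List T) (hw : Comp S α w) : Comp S' α w := by
  induction α generalizing w with
  | nil => simpa [Comp] using hw
  | cons s α ih =>
    cases s with
    | terminal t =>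
      obtain ⟨w', rfl, hw'⟩ := hw
      exact ⟨w', rfl, ih _ hw'⟩
    | nonterminal A =>
      obtain ⟨w₁, w₂, rfl, hA, hw'⟩ := hw
      exact ⟨w₁, w₂, rfl, h A hA, ih _ hw'⟩

/-- Soundness: if the sets `S A` are closed under all rules, then everything derivable is in them. -/
theorem comp_of_derives (g : ContextFreeGrammar T) (S : g.NT → Set (List T))
    (hS : ∀ r ∈ g.rules, ∀ w, Comp S r.output w → w ∈ S r.input)
    (α : List (Symbol T g.NT)) (w : List T) (h : g.Derives α (w.map Symbol.terminal)) :
    Comp S α w := by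
  induction h using Relation.ReflTransGen.head_induction_on with
  | refl => exact (comp_map_terminal S w w).2 rfl
  | head hstep _ ih =>
    obtain ⟨r, hr, hrw⟩ := hstep
    obtain ⟨p, q, rfl, rfl⟩ := hrw.exists_parts
    rw [List.append_assoc, comp_append] at ih
    obtain ⟨w₁, w₂, rfl, h1, h2⟩ := ih
    rw [comp_append] at h2
    obtain ⟨w₃, w₄, rfl, h3, h4⟩ := h2
    rw [List.append_assoc, comp_append]
    refine ⟨w₁, w₃ ++ w₄, rfl, h1, ?_⟩
    exact ⟨w₃, w₄, rfl, hS r hr _ h3, h4⟩

/-- The words generated by a nonterminal. -/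
def Gen (g : ContextFreeGrammar T) (A : g.NT) : Set (List T) :=
  {w | g.Derives [Symbol.nonterminal A] (w.map Symbol.terminal)}

theorem derives_append {g : ContextFreeGrammar T} {α α' β β' : List (Symbol T g.NT)}
    (h1 : g.Derives α α') (h2 : g.Derives β β') : g.Derives (α ++ β) (α' ++ β') :=
  (h1.append_right β).trans (h2.append_left α')

theorem derives_of_comp (g : ContextFreeGrammar T) (α : List (Symbol T g.NT)) (w : List T)
    (h : Comp (Gen g) α w) : g.Derives α (w.map Symbol.terminal) := by
  induction α generalizing w with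
  | nil => simp only [Comp] at h; subst h; exact Relation.ReflTransGen.refl
  | cons s α ih =>
    cases s with
    | terminal t =>
      obtain ⟨w', rfl, hw'⟩ := h
      simpa using (ih _ hw').append_left [Symbol.terminal t]
    | nonterminal A =>
      obtain ⟨w₁, w₂, rfl, hA, hw'⟩ := h
      have := derives_append (g := g) hA (ih _ hw')
      simpa using this

theorem derives_iff_comp (g : ContextFreeGrammar T) (α : List (Symbol T g.NT)) (w : List T) :
    g.Derives α (w.map Symbol.terminal) ↔ Comp (Gen g) α w := by
  constructor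
  · intro h
    refine comp_of_derives g (Gen g) ?_ α w h
    intro r hr w hw
    have h1 := derives_of_comp g _ _ hw
    have h2 : g.Produces [Symbol.nonterminal r.input] r.output := ⟨r, hr, ContextFreeRule.Rewrites.input_output⟩
    exact h2.trans_derives h1
  · exact derives_of_comp g α w

theorem gen_of_rule (g : ContextFreeGrammar T) (r : ContextFreeRule T g.NT) (hr : r ∈ g.rules)
    (w : List T) (hw : Comp (Gen g) r.output w) : w ∈ Gen g r.input := by
  have h1 := derives_of_comp g _ _ hw
  have h2 : g.Produces [Symbol.nonterminal r.input] r.output := ⟨r, hr, ContextFreeRule.Rewrites.input_output⟩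
  exact h2.trans_derives h1

/-- Language of a grammar from a sound family that is also complete at the initial symbol. -/
theorem language_eq (g : ContextFreeGrammar T) (S : g.NT → Set (List T))
    (hS : ∀ r ∈ g.rules, ∀ w, Comp S r.output w → w ∈ S r.input)
    (hC : ∀ w ∈ S g.initial, w ∈ Gen g g.initial) (w : List T) :
    w ∈ g.language ↔ w ∈ S g.initial := by
  constructor
  · intro h
    have := comp_of_derives g S hS [Symbol.nonterminal g.initial] w h
    obtain ⟨w₁, w₂, rfl, h1, h2⟩ := this
    simp only [Comp] at h2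
    subst h2
    simpa using h1
  · intro h
    exact hC w h

end Pool.Agent.Helper79.CFG
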