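import Pool.Agent.Helper79.AbSq
import Pool.Agent.Helper79.CFG

set_option autoImplicit false

namespace Pool.Agent.Helper79.AbSq

open Pool.Agent.Helper79.CFG

inductive NT
  | S | Z | T
  | M (c r : Fin 8)
  deriving DecidableEq

abbrev R := ContextFreeRule (Fin 8) NT

def rT (t : Fin 8) : R := ⟨NT.T, [Symbol.terminal t]⟩
def rZ : R := ⟨NT.Z, [Symbol.nonterminal NT.T, Symbol.nonterminal NT.Z]⟩
def rZ0 : R := ⟨NT.Z, []⟩
def rS (t : Fin 8) : R := ⟨NT.S, [Symbol.terminal t, Symbol.nonterminal NT.Z]⟩
def rM (c r : Fin 8) : R := ⟨NT.M c r, Symbol.nonterminal NT.T :: Symbol.nonterminal (NT.M c r) ::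
  List.replicate 7 (Symbol.nonterminal NT.T)⟩
def rM1 (c r : Fin 8) : R := ⟨NT.M c r, Symbol.terminal c ::
  List.replicate (r.val - 1) (Symbol.nonterminal NT.T)⟩
def rM0 (c : Fin 8) : R := ⟨NT.M c 0, Symbol.nonterminal NT.T :: Symbol.terminal c ::
  List.replicate 6 (Symbol.nonterminal NT.T)⟩
def rE (c r e : Fin 8) : R := ⟨NT.S, [Symbol.nonterminal (NT.M c r), Symbol.terminal e,
  Symbol.nonterminal NT.Z]⟩

def rules : Finset R :=
  Finset.univ.image rT ∪ {rZ, rZ0} ∪ (Finset.univ.filter (fun t : Fin 8 => t ≠ 0)).image rS ∪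
  (Finset.univ : Finset (Fin 8 × Fin 8)).image (fun p => rM p.1 p.2) ∪
  ((Finset.univ : Finset (Fin 8 × Fin 8)).filter (fun p => p.2 ≠ 0)).image (fun p => rM1 p.1 p.2) ∪
  Finset.univ.image rM0 ∪
  ((Finset.univ : Finset (Fin 8 × Fin 8 × Fin 8)).filter
    (fun p => p.2.2 ≠ (tbl p.1).getD p.2.1 0)).image (fun p => rE p.1 p.2.1 p.2.2)

theorem mem_rules (r : R) : r ∈ rules ↔ (∃ t, r = rT t) ∨ r = rZ ∨ r = rZ0 ∨ (∃ t, t ≠ 0 ∧ r = rS t) ∨
    (∃ c s, r = rM c s) ∨ (∃ c s, s ≠ 0 ∧ r = rM1 c s) ∨ (∃ c, r = rM0 c) ∨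
    (∃ c s e, e ≠ (tbl c).getD s.val 0 ∧ r = rE c s e) := by
  simp only [rules, Finset.mem_union, Finset.mem_image, Finset.mem_univ, true_and,
    Finset.mem_insert, Finset.mem_singleton, Finset.mem_filter, Prod.exists, ne_eq, eq_comm (a := r),
    or_assoc]

def G : ContextFreeGrammar (Fin 8) where
  NT := NT
  initial := NT.S
  rules := rules

/-- Words of the form `α c β` with `|β| + 1 = 7 |α| + r`. -/
def SemM (c r : Fin 8) : Set (List (Fin 8)) :=
  {w | ∃ α β : List (Fin 8), w = α ++ c :: β ∧ β.length + 1 = 7 * α.length + r.val}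

def Sem : NT → Set (List (Fin 8))
  | NT.T => {w | ∃ t, w = [t]}
  | NT.Z => Set.univ
  | NT.M c r => SemM c r
  | NT.S => {w | (∃ t z, t ≠ 0 ∧ w = t :: z) ∨
      ∃ c r e : Fin 8, ∃ y z, e ≠ (tbl c).getD r.val 0 ∧ y ∈ SemM c r ∧ w = y ++ e :: z}

theorem comp_replicate_T (S' : NT → Set (List (Fin 8))) (hS : S' NT.T = {w | ∃ t, w = [t]}) (n : ℕ)
    (w : List (Fin 8)) : Comp S' (List.replicate n (Symbol.nonterminal NT.T)) w ↔ w.length = n := by
  induction n generalizing w with
  | zero => simp [Comp]
  | succ n ih =>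
    rw [List.replicate_succ]
    simp only [Comp, ih, hS, Set.mem_ofPred_eq]
    constructor
    · rintro ⟨_, w₂, rfl, ⟨t, rfl⟩, h⟩
      simp [h]
    · intro h
      cases w with
      | nil => simp at h
      | cons t w => exact ⟨[t], w, rfl, ⟨t, rfl⟩, by simpa using h⟩

theorem sound : ∀ r ∈ G.rules, ∀ w, Comp Sem r.output w → w ∈ Sem r.input := by
  intro r hr w hw
  change R at r
  have hr' := (mem_rules r).1 hr
  clear hr
  rcases hr' with ⟨t, rfl⟩ | rfl | rfl | ⟨t, ht, rfl⟩ | ⟨c, s, rfl⟩ | ⟨c, s, hs, rfl⟩ | ⟨c, rfl⟩ |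
    ⟨c, s, e, he, rfl⟩
  · obtain ⟨_, rfl, rfl⟩ := hw
    exact ⟨t, rfl⟩
  · exact Set.mem_univ _
  · exact Set.mem_univ _
  · obtain ⟨_, rfl, z, _, rfl, _, rfl⟩ := hw
    exact Or.inl ⟨t, z, ht, by simp⟩
  · obtain ⟨_, _, rfl, ⟨t, rfl⟩, _, δ, rfl, ⟨α, β, rfl, hl⟩, hδ⟩ := hw
    have hδ' : δ.length = 7 := (comp_replicate_T Sem rfl 7 δ).1 hδ
    refine ⟨t :: α, β ++ δ, by simp, ?_⟩
    simp only [List.length_append, List.length_cons, hδ']
    omega
  · obtain ⟨β, rfl, hβ⟩ := hw
    have hβ' : β.length = s.val - 1 := (comp_replicate_T Sem rfl _ β).1 hβ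
    have hs' : s.val ≠ 0 := fun h => hs (Fin.ext h)
    refine ⟨[], β, rfl, ?_⟩
    simp only [List.length_nil, hβ']
    omega
  · obtain ⟨_, _, rfl, ⟨t, rfl⟩, β, rfl, hβ⟩ := hw
    have hβ' : β.length = 6 := (comp_replicate_T Sem rfl _ β).1 hβ
    refine ⟨[t], β, rfl, ?_⟩
    simp [hβ']
  · obtain ⟨y, _, rfl, hy, _, rfl, z, _, rfl, _, rfl⟩ := hw
    exact Or.inr ⟨c, s, e, y, z, he, hy, by simp⟩

theorem gen_rule (r : R) (hr : r ∈ rules) (w : List (Fin 8)) (hw : Comp (Gen G) r.output w) :
    w ∈ Gen G r.input :=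
  gen_of_rule G r hr w hw

theorem gen_T (t : Fin 8) : [t] ∈ Gen G NT.T :=
  gen_rule (rT t) ((mem_rules _).2 (Or.inl ⟨t, rfl⟩)) _ ⟨[], rfl, rfl⟩

theorem gen_T_eq : Gen G NT.T = {w | ∃ t, w = [t]} := by
  ext w
  constructor
  · intro h
    have := comp_of_derives G Sem sound [Symbol.nonterminal NT.T] w h
    obtain ⟨w₁, w₂, rfl, ⟨t, rfl⟩, h2⟩ := this
    simp only [Comp] at h2
    subst h2
    exact ⟨t, by simp⟩
  · rintro ⟨t, rfl⟩; exact gen_T t

theorem gen_Z (w : List (Fin 8)) : w ∈ Gen G NT.Z := by
  induction w with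
  | nil => exact gen_rule rZ0 ((mem_rules _).2 (by simp)) _ rfl
  | cons t w ih =>
    exact gen_rule rZ ((mem_rules _).2 (by simp)) _ ⟨[t], w, rfl, gen_T t, w, [], by simp, ih, rfl⟩

theorem gen_M (c r : Fin 8) (α : List (Fin 8)) : ∀ β : List (Fin 8),
    β.length + 1 = 7 * α.length + r.val → α ++ c :: β ∈ Gen G (NT.M c r) := by
  induction α with
  | nil =>
    intro β h
    simp only [List.length_nil, mul_zero, zero_add] at h
    have hr : r ≠ 0 := by rintro rfl; simp at h
    refine gen_rule (rM1 c r) ((mem_rules _).2 ?_) _ ⟨β, rfl, ?_⟩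
    · right; right; right; right; right; left; exact ⟨c, r, hr, rfl⟩
    · exact (comp_replicate_T _ gen_T_eq _ β).2 (by omega)
  | cons a α ih =>
    intro β h
    simp only [List.length_cons] at h
    by_cases h0 : α = [] ∧ r = 0
    · obtain ⟨rfl, rfl⟩ := h0
      refine gen_rule (rM0 c) ((mem_rules _).2 ?_) _ ⟨[a], c :: β, rfl, gen_T a, β, rfl, ?_⟩
      · right; right; right; right; right; right; left; exact ⟨c, rfl⟩
      · refine (comp_replicate_T _ gen_T_eq _ β).2 ?_
        simp at h; omega
    · have hge : 7 ≤ β.length := by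
        by_cases hα : α = []
        · have hr : r.val ≠ 0 := fun hr => h0 ⟨hα, Fin.ext hr⟩
          subst hα
          simp at h
          omega
        · have := List.length_pos_iff.2 hα
          omega
      have hβ : β = β.take (β.length - 7) ++ β.drop (β.length - 7) := (List.take_append_drop _ _).symm
      refine gen_rule (rM c r) ((mem_rules _).2 ?_) _ ⟨[a], α ++ c :: β, rfl, gen_T a,
        α ++ c :: β.take (β.length - 7), β.drop (β.length - 7), ?_, ?_, ?_⟩
      · right; right; right; right; left; exact ⟨c, r, rfl⟩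
      · simp
      · apply ih
        rw [List.length_take]
        omega
      · refine (comp_replicate_T _ gen_T_eq _ _).2 ?_
        rw [List.length_drop]
        omega

theorem lang (w : List (Fin 8)) : w ∈ G.language ↔ w ∈ Sem NT.S := by
  refine language_eq G Sem sound ?_ w
  rintro w (⟨t, z, ht, rfl⟩ | ⟨c, r, e, y, z, he, ⟨α, β, rfl, hl⟩, rfl⟩)
  · refine gen_rule (rS t) ((mem_rules _).2 ?_) _ ⟨z, rfl, z, [], by simp, gen_Z z, rfl⟩
    right; right; right; left; exact ⟨t, ht, rfl⟩
  · refine gen_rule (rE c r e) ((mem_rules _).2 ?_) _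
      ⟨α ++ c :: β, e :: z, rfl, gen_M c r α β hl, z, rfl, z, [], by simp, gen_Z z, rfl⟩
    right; right; right; right; right; right; right; exact ⟨c, r, e, he, rfl⟩

theorem pref_getElem? (n i : ℕ) (h : i < n) : (pref n)[i]? = some (x i) := by
  simp [pref, h]

/-- The words of the language are exactly the words that are not prefixes of the fixed point. -/
theorem mem_iff (w : List (Fin 8)) : w ∈ Sem NT.S ↔ ∀ n, w ≠ pref n := by
  constructor
  · rintro (⟨t, z, ht, rfl⟩ | ⟨c, r, e, y, z, he, ⟨α, β, rfl, hl⟩, rfl⟩) n hn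
    · have hlen : n = z.length + 1 := by
        have := congrArg List.length hn
        simpa [pref_length] using this.symm
      have h1 := congrArg (fun l => l[0]?) hn
      simp only [hlen] at h1
      rw [pref_getElem? _ _ (by omega), x_zero] at h1
      simp at h1
      exact ht h1
    · have hlen : n = (α ++ c :: β ++ e :: z).length := by
        rw [hn, pref_length]
      simp only [List.length_append, List.length_cons] at hlen
      have h1 := congrArg (fun l => l[α.length]?) hn
      rw [pref_getElem? _ _ (by omega)] at h1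
      have h2 := congrArg (fun l => l[(α ++ c :: β).length]?) hn
      rw [pref_getElem? _ _ (by simp only [List.length_append, List.length_cons]; omega)] at h2
      have h3 : (α ++ c :: β ++ e :: z)[α.length]? = some c := by
        simp
      have h4 : (α ++ c :: β ++ e :: z)[(α ++ c :: β).length]? = some e := by
        rw [List.getElem?_append_right le_rfl]; simp
      rw [h3] at h1
      rw [h4] at h2
      have h5 : (α ++ c :: β).length = 8 * α.length + r.val := by
        simp only [List.length_append, List.length_cons]; omega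
      rw [h5, x_rec _ _ r.isLt] at h2
      have h6 : c = x α.length := by simpa using h1
      have h7 : e = (tbl (x α.length)).getD r.val 0 := by simpa using h2
      rw [← h6] at h7
      exact he h7
  · intro h
    by_contra hw
    apply h w.length
    have key : ∀ i, (hi : i < w.length) → w[i] = x i := by
      intro i
      induction i using Nat.strong_induction_on with
      | _ i ih =>
        intro hi
        by_contra hne
        apply hw
        by_cases h0 : i = 0
        · subst h0
          left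
          cases w with
          | nil => simp at hi
          | cons t z =>
            refine ⟨t, z, ?_, rfl⟩
            rw [x_zero] at hne
            simpa using hne
        · right
          have hj : i / 8 < i := by omega
          have hm : i % 8 < 8 := Nat.mod_lt _ (by norm_num)
          have hjw : w[i / 8] = x (i / 8) := ih _ hj (by omega)
          refine ⟨w[i / 8], ⟨i % 8, hm⟩, w[i], w.take i, w.drop (i + 1), ?_, ?_, ?_⟩
          · rw [hjw]
            intro he
            apply hne
            have := x_rec (i / 8) (i % 8) hm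
            rw [Nat.div_add_mod] at this
            rw [this, he]
          · refine ⟨w.take (i / 8), (w.take i).drop (i / 8 + 1), ?_, ?_⟩
            · have h1 : (w.take i).take (i / 8) = w.take (i / 8) := by
                rw [List.take_take]; congr 1; omega
              have h2 : i / 8 < (w.take i).length := by rw [List.length_take]; omega
              have h3 : (w.take i)[i / 8] = w[i / 8] := List.getElem_take
              conv_lhs => rw [← List.take_append_drop (i / 8) (w.take i)]
              rw [h1, List.drop_eq_getElem_cons h2, h3]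
            · simp only [List.length_drop, List.length_take]
              omega
          · conv_lhs => rw [← List.take_append_drop i w]
            rw [List.drop_eq_getElem_cons hi]
    apply List.ext_getElem
    · rw [pref_length]
    · intro i h1 h2
      rw [key i h1]
      simp [pref]

end Pool.Agent.Helper79.AbSq
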