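import Pool.Agent.Helper79.Trans

set_option autoImplicit false

namespace Pool.Agent.Helper79.Trans

open Pool.Agent.Helper79.CFG

section
variable {T A σ : Type} [Fintype A] [Fintype σ] (h : A → List T) (M : DFA A σ)

open Classical in
/-- All suffixes of the images of the letters. -/
noncomputable def SufH : Finset (List T) := insert [] (Finset.univ.biUnion fun a => (h a).tails.toFinset)

theorem mem_SufH_tail {b : T} {l : List T} (hl : b :: l ∈ SufH h) : l ∈ SufH h := by
  classical
  simp only [SufH, Finset.mem_insert, Finset.mem_biUnion, Finset.mem_univ, true_and,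
    List.mem_toFinset, List.mem_tails] at hl ⊢
  rcases hl with hl | ⟨a, hl⟩
  · simp at hl
  · exact Or.inr ⟨a, (List.suffix_cons b l).trans hl⟩

theorem mem_SufH (a : A) : h a ∈ SufH h := by
  classical
  simp only [SufH, Finset.mem_insert, Finset.mem_biUnion, Finset.mem_univ, true_and,
    List.mem_toFinset, List.mem_tails]
  exact Or.inr ⟨a, List.suffix_rfl⟩

theorem nil_mem_SufH : [] ∈ SufH h := by
  classical
  simp [SufH]

open Classical in
noncomputable def cE : Finset ((σ × List T) × List A × (σ × List T)) :=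
  (Finset.univ : Finset (σ × A)).image fun x => ((x.1, []), [x.2], (M.step x.1 x.2, h x.2))

open Classical in
noncomputable def cD : Finset ((σ × List T) × T × List A × (σ × List T)) :=
  ((Finset.univ : Finset σ) ×ˢ (SufH h).filter (fun l => l ≠ [])).biUnion fun x =>
    match x.2 with
    | [] => ∅
    | b :: l => {((x.1, b :: l), b, [], (x.1, l))}

open Classical in
noncomputable def cP : Finset (σ × List T) := Finset.univ ×ˢ SufH h

open Classical in
noncomputable def cF : Finset (σ × List T) :=
  (Finset.univ.filter (fun q : σ => q ∈ M.accept)).image fun q => (q, [])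

theorem mem_cE {q : σ × List T} {w : List A} {p : σ × List T} :
    (q, w, p) ∈ cE h M ↔ ∃ s a, q = (s, []) ∧ w = [a] ∧ p = (M.step s a, h a) := by
  classical
  simp only [cE, Finset.mem_image, Finset.mem_univ, true_and, Prod.exists, Prod.mk.injEq]
  constructor
  · rintro ⟨s, a, rfl, rfl, rfl⟩; exact ⟨s, a, rfl, rfl, rfl⟩
  · rintro ⟨s, a, rfl, rfl, rfl⟩; exact ⟨s, a, rfl, rfl, rfl⟩

theorem mem_cD {q : σ × List T} {b : T} {w : List A} {p : σ × List T} :
    (q, b, w, p) ∈ cD (σ := σ) h ↔ ∃ s l, b :: l ∈ SufH h ∧ q = (s, b :: l) ∧ w = [] ∧ p = (s, l) := by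
  classical
  simp only [cD, Finset.mem_biUnion, Finset.mem_product, Finset.mem_univ, true_and, Prod.exists,
    Finset.mem_filter]
  constructor
  · rintro ⟨s, l, ⟨hl, hne⟩, hm⟩
    cases l with
    | nil => exact absurd rfl hne
    | cons c l =>
      simp only [Finset.mem_singleton, Prod.mk.injEq] at hm
      obtain ⟨rfl, rfl, rfl, rfl⟩ := hm
      exact ⟨s, l, hl, rfl, rfl, rfl⟩
  · rintro ⟨s, l, hl, rfl, rfl, rfl⟩
    exact ⟨s, b :: l, ⟨hl, by simp⟩, by simp⟩

theorem run_rest (s : σ) (l : List T) (hl : l ∈ SufH h) :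
    Run (cD (σ := σ) h) (cE h M) (s, l) l [] (s, []) := by
  induction l with
  | nil => exact Run.nil _
  | cons b l ih =>
    have := Run.read (D := cD (σ := σ) h) (E := cE h M) (s, b :: l) b [] (s, l) l [] (s, [])
      ((mem_cD h).2 ⟨s, l, hl, rfl, rfl, rfl⟩) (ih (mem_SufH_tail h hl))
    simpa using this

theorem run_word (s : σ) (w : List A) :
    Run (cD (σ := σ) h) (cE h M) (s, []) (w.flatMap h) w (M.evalFrom s w, []) := by
  induction w generalizing s with
  | nil => exact Run.nil _
  | cons a w ih =>
    have h1 := run_rest h M (M.step s a) (h a) (mem_SufH h a)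
    have h2 := Run.eps (D := cD (σ := σ) h) (E := cE h M) (s, []) [a] (M.step s a, h a) (h a) []
      (M.step s a, []) ((mem_cE h M).2 ⟨s, a, rfl, rfl, rfl⟩) h1
    have h3 := h2.append (ih (M.step s a))
    simpa using h3

theorem run_inv {q q' : σ × List T} {v : List T} {w : List A}
    (hr : Run (cD (σ := σ) h) (cE h M) q v w q') (hq' : q'.2 = []) :
    v = q.2 ++ w.flatMap h ∧ M.evalFrom q.1 w = q'.1 := by
  induction hr with
  | nil q => simp [hq']
  | eps q w₁ p v w q' hE _ ih =>
    obtain ⟨s, a, rfl, rfl, rfl⟩ := (mem_cE h M).1 hE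
    obtain ⟨h1, h2⟩ := ih hq'
    simp only at h1 h2
    refine ⟨by simp [h1], by simpa using h2⟩
  | read q b w₁ p v w q' hD _ ih =>
    obtain ⟨s, l, hl, rfl, rfl, rfl⟩ := (mem_cD h).1 hD
    obtain ⟨h1, h2⟩ := ih hq'
    simp only at h1 h2
    refine ⟨by simp [h1], by simpa using h2⟩

/-- Context-free languages are closed under inverse morphisms and intersection with regular
languages. -/
theorem isContextFree_comap_inter (g : ContextFreeGrammar T) :
    Language.IsContextFree ({w : List A | w.flatMap h ∈ g.language ∧ w ∈ M.accepts} : Language A) := by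
  refine ⟨image (cD (σ := σ) h) (cE h M) g (cP h) (M.start, []) (cF M), ?_⟩
  ext w
  rw [image_language]
  · constructor
    · rintro ⟨v, hv, qf, hqf, hrun⟩
      classical
      simp only [cF, Finset.mem_image, Finset.mem_filter, Finset.mem_univ, true_and] at hqf
      obtain ⟨s, hs, rfl⟩ := hqf
      obtain ⟨h1, h2⟩ := run_inv h M hrun rfl
      simp only [List.nil_append] at h1
      subst h1
      refine ⟨hv, ?_⟩
      rw [DFA.mem_accepts, DFA.eval, h2]
      exact hs
    · rintro ⟨h1, h2⟩
      refine ⟨w.flatMap h, h1, (M.evalFrom M.start w, []), ?_, run_word h M _ w⟩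
      classical
      simp only [cF, Finset.mem_image, Finset.mem_filter, Finset.mem_univ, true_and]
      exact ⟨_, h2, rfl⟩
  · intro q b w p hD
    obtain ⟨s, l, hl, rfl, rfl, rfl⟩ := (mem_cD h).1 hD
    simp only [cP, Finset.mem_product, Finset.mem_univ, true_and]
    exact mem_SufH_tail h hl
  · intro q w p hE
    obtain ⟨s, a, rfl, rfl, rfl⟩ := (mem_cE h M).1 hE
    simp only [cP, Finset.mem_product, Finset.mem_univ, true_and]
    exact mem_SufH h a
  · simp only [cP, Finset.mem_product, Finset.mem_univ, true_and]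
    exact nil_mem_SufH h

/-- Regular languages are closed under inverse morphisms. -/
theorem isRegular_comap {A' : Type} (h' : A' → List A) (R : Language A) (hR : R.IsRegular) :
    Language.IsRegular ({w : List A' | w.flatMap h' ∈ R} : Language A') := by
  obtain ⟨τ, _, N, rfl⟩ := hR
  refine ⟨τ, inferInstance, ⟨fun q a => N.evalFrom q (h' a), N.start, N.accept⟩, ?_⟩
  ext w
  have key : ∀ q : τ, DFA.evalFrom (⟨fun q a => N.evalFrom q (h' a), N.start, N.accept⟩ : DFA A' τ) q w =
      N.evalFrom q (w.flatMap h') := by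
    induction w with
    | nil => intro q; rfl
    | cons a w ih =>
      intro q
      rw [DFA.evalFrom_cons, ih, List.flatMap_cons, DFA.evalFrom_of_append]
  rw [DFA.mem_accepts, DFA.eval, key]
  exact Iff.rfl

end

end Pool.Agent.Helper79.Trans
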