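import Mathlib
import Pool.Agent.Helper79.CFG

set_option autoImplicit false

namespace Pool.Agent.Helper79.EDT

/-- the alphabet -/
inductive Al
  | a | b | c | d | e
deriving DecidableEq

instance : Fintype Al := ⟨{Al.a, Al.b, Al.c, Al.d, Al.e}, by intro x; cases x <;> decide⟩

open List

open Al

/-- the words `w₀ = ε`, `wₙ₊₁ = aⁿ⁺¹ c wₙ d wₙ e aⁿ⁺¹` -/
def w : ℕ → List Al
  | 0 => []
  | n + 1 => replicate (n + 1) a ++ c :: (w n ++ d :: (w n ++ e :: replicate (n + 1) a))

theorem length_w (n : ℕ) : (w (n + 1)).length = 2 * (w n).length + 2 * n + 5 := by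
  simp [w]; ring

theorem length_w_lt (n : ℕ) : 2 * ((w n).length + 2) < (w (n + 1)).length + 2 := by
  rw [length_w]; omega

theorem length_mono {m n : ℕ} (h : m ≤ n) : (w m).length ≤ (w n).length := by
  induction h with
  | refl => exact le_rfl
  | step _ ih => rw [length_w]; omega

theorem two_pow_le (n : ℕ) : 2 ^ n ≤ (w n).length + 1 := by
  induction n with
  | zero => simp
  | succ n ih => rw [length_w, pow_succ]; omega

/-- wrong neighbouring blocks `aⁱ s aʲ` -/
def Bad : Al → ℕ → ℕ → Prop
  | a, _, _ => False
  | b, _, _ => False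
  | c, i, j => i ≠ j + 1
  | d, i, j => i ≠ j
  | e, i, j => j ≠ i + 1

/-- words with an error -/
def Err : Set (List Al) :=
  {x | ∃ (u : List Al) (s₁ : Al) (i : ℕ) (s : Al) (j : ℕ) (s₂ : Al) (v : List Al),
    s₁ ≠ a ∧ s₂ ≠ a ∧ Bad s i j ∧
    x = u ++ s₁ :: (replicate i a ++ s :: (replicate j a ++ s₂ :: v))}

/-- the good words -/
def P (n : ℕ) : List Al := b :: (w n ++ [b])

/-- the language -/
def L : Language Al := {x | x ∈ Err ∨ ∃ n, x = P n}

theorem mem_L (x : List Al) : x ∈ L ↔ x ∈ Err ∨ ∃ n, x = P n := Iff.rfl

theorem err_infix {x : List Al} (h : x ∈ Err) (u v : List Al) : u ++ x ++ v ∈ Err := by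
  obtain ⟨u', s₁, i, s, j, s₂, v', h1, h2, h3, rfl⟩ := h
  exact ⟨u ++ u', s₁, i, s, j, s₂, v' ++ v, h1, h2, h3, by simp⟩

/-! ### the automaton -/

abbrev Q := Option ℕ × ℕ

/-- the next state, for heights at most `B` -/
def step (B : ℕ) (q : Q) : Al → Option Q
  | a => if q.2 + 1 ≤ B then some (q.1, q.2 + 1) else none
  | b => if q.1 = none ∨ q.1 = some q.2 then some (none, 0) else none
  | c => if (q.1 = none ∨ q.1 = some q.2) ∧ 1 ≤ q.2 then some (some (q.2 - 1), 0) else none
  | d => if q.1 = none ∨ q.1 = some q.2 then some (some q.2, 0) else none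
  | e => if (q.1 = none ∨ q.1 = some q.2) ∧ q.2 + 1 ≤ B then some (some (q.2 + 1), 0) else none

/-- run of the automaton -/
def run (B : ℕ) : Q → List Al → Option Q
  | q, [] => some q
  | q, x :: xs => (step B q x).bind (fun q' => run B q' xs)

theorem run_append (B : ℕ) (q : Q) (u v : List Al) :
    run B q (u ++ v) = (run B q u).bind (fun q' => run B q' v) := by
  induction u generalizing q with
  | nil => simp [run]
  | cons x u ih =>
    simp only [List.cons_append, run]
    cases h : step B q x with
    | none => simp
    | some q' => simp [ih]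

theorem run_append_some {B : ℕ} {q q' : Q} {u v : List Al} (h : run B q (u ++ v) = some q') :
    ∃ q'', run B q u = some q'' ∧ run B q'' v = some q' := by
  rw [run_append] at h
  cases h1 : run B q u with
  | none => rw [h1] at h; simp at h
  | some q'' => exact ⟨q'', rfl, by rw [h1] at h; simpa using h⟩

theorem run_cons_some {B : ℕ} {q q' : Q} {x : Al} {v : List Al} (h : run B q (x :: v) = some q') :
    ∃ q'', step B q x = some q'' ∧ run B q'' v = some q' := by
  rw [run] at h
  cases h1 : step B q x with
  | none => rw [h1] at h; simp at h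
  | some q'' => exact ⟨q'', rfl, by rw [h1] at h; simpa using h⟩

theorem run_replicate (B : ℕ) (q : Q) (i : ℕ) (h : q.2 + i ≤ B) :
    run B q (replicate i a) = some (q.1, q.2 + i) := by
  induction i generalizing q with
  | zero => simp [run]
  | succ i ih =>
    rw [replicate_succ, run, step, if_pos (by omega)]
    simp only [Option.bind_some]
    rw [ih _ (by simp; omega)]
    simp only [Option.some.injEq, Prod.mk.injEq, true_and]
    omega

theorem run_replicate_some {B : ℕ} {q q' : Q} {i : ℕ} (h : run B q (replicate i a) = some q') :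
    q' = (q.1, q.2 + i) := by
  induction i generalizing q with
  | zero => simp [run] at h; subst h; simp
  | succ i ih =>
    rw [replicate_succ] at h
    obtain ⟨q'', h1, h2⟩ := run_cons_some h
    rw [ih h2]
    simp only [step] at h1
    split_ifs at h1
    injection h1 with h1
    subst h1
    simp only [Prod.mk.injEq, true_and]
    omega

theorem step_snd {B : ℕ} {q q' : Q} {s : Al} (hs : s ≠ a) (h : step B q s = some q') :
    q'.2 = 0 ∧ (q.1 = none ∨ q.1 = some q.2) := by
  cases s with
  | a => exact absurd rfl hs
  | b =>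
    simp only [step] at h
    split_ifs at h with h1
    injection h with h
    subst h
    exact ⟨rfl, h1⟩
  | c =>
    simp only [step] at h
    split_ifs at h with h1
    injection h with h
    subst h
    exact ⟨rfl, h1.1⟩
  | d =>
    simp only [step] at h
    split_ifs at h with h1
    injection h with h
    subst h
    exact ⟨rfl, h1⟩
  | e =>
    simp only [step] at h
    split_ifs at h with h1
    injection h with h
    subst h
    exact ⟨rfl, h1.1⟩

/-- words with an error are never accepted -/
theorem run_err {B : ℕ} {q q' : Q} {x : List Al} (hx : x ∈ Err) (h : run B q x = some q') :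
    False := by
  obtain ⟨u, s₁, i, s, j, s₂, v, h1, h2, h3, rfl⟩ := hx
  obtain ⟨q₁, _, h⟩ := run_append_some h
  obtain ⟨q₂, hq₂, h⟩ := run_cons_some h
  obtain ⟨q₃, hq₃, h⟩ := run_append_some h
  obtain ⟨q₄, hq₄, h⟩ := run_cons_some h
  obtain ⟨q₅, hq₅, h⟩ := run_append_some h
  obtain ⟨q₆, hq₆, h⟩ := run_cons_some h
  obtain ⟨h4, _⟩ := step_snd h1 hq₂
  have h5 := run_replicate_some hq₃
  have h6 := run_replicate_some hq₅
  obtain ⟨_, h7⟩ := step_snd h2 hq₆
  rw [h6] at h7
  simp only at h7
  rw [h5, h4] at hq₄
  cases s with
  | a => exact h3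
  | b => exact h3
  | c =>
    simp only [step] at hq₄
    split_ifs at hq₄ with h8
    injection hq₄ with hq₄
    subst hq₄
    simp only [Bad] at h3
    simp at h7
    omega
  | d =>
    simp only [step] at hq₄
    split_ifs at hq₄ with h8
    injection hq₄ with hq₄
    subst hq₄
    simp only [Bad] at h3
    simp at h7
    omega
  | e =>
    simp only [step] at hq₄
    split_ifs at hq₄ with h8
    injection hq₄ with hq₄
    subst hq₄
    simp only [Bad] at h3
    simp at h7
    omega

/-- the good words are accepted -/
theorem run_w (B : ℕ) (m : ℕ) (hm : m ≤ B) (exp : Option ℕ) (he : exp = none ∨ exp = some m) :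
    ∃ exp' : Option ℕ, (exp' = none ∨ exp' = some m) ∧
      run B (exp, 0) (w m) = some (exp', m) := by
  induction m generalizing exp with
  | zero => exact ⟨exp, he, rfl⟩
  | succ m ih =>
    obtain ⟨e1, he1, hr1⟩ := ih (by omega) (some m) (Or.inr rfl)
    obtain ⟨e2, he2, hr2⟩ := ih (by omega) (some m) (Or.inr rfl)
    refine ⟨some (m + 1), Or.inr rfl, ?_⟩
    rw [w, run_append, run_replicate B _ _ (by simpa using hm)]
    simp only [Option.bind_some, zero_add]
    rw [run, step, if_pos ⟨he, by simp⟩]
    simp only [Option.bind_some, Nat.add_sub_cancel]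
    rw [run_append, hr1]
    simp only [Option.bind_some]
    rw [run, step, if_pos (by simpa using he1)]
    simp only [Option.bind_some]
    rw [run_append, hr2]
    simp only [Option.bind_some]
    rw [run, step, if_pos ⟨by simpa using he2, by simpa using hm⟩]
    simp only [Option.bind_some]
    rw [run_replicate B _ _ (by simpa using hm)]
    simp

theorem run_P (B n : ℕ) (hn : n ≤ B) : run B (none, 0) (P n) = some (none, 0) := by
  obtain ⟨e', he', hr⟩ := run_w B n hn none (Or.inl rfl)
  rw [P, run, step, if_pos (Or.inl rfl)]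
  simp only [Option.bind_some]
  rw [run_append, hr]
  simp only [Option.bind_some]
  rw [run, step, if_pos (by simpa using he')]
  rfl

/-- the set of states that can occur -/
def QB (B : ℕ) : Finset Q :=
  (insert none ((Finset.range (B + 1)).image some)) ×ˢ Finset.range (B + 1)

theorem card_QB (B : ℕ) : (QB B).card ≤ (B + 2) * (B + 2) := by
  rw [QB, Finset.card_product, Finset.card_range]
  have h1 : (insert none ((Finset.range (B + 1)).image some) : Finset (Option ℕ)).card ≤ B + 2 := by
    refine (Finset.card_insert_le _ _).trans ?_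
    have := Finset.card_image_le (s := Finset.range (B + 1)) (f := (some : ℕ → Option ℕ))
    rw [Finset.card_range] at this
    omega
  exact Nat.mul_le_mul h1 (by omega)

theorem mem_QB (B : ℕ) (q : Q) : q ∈ QB B ↔ (∀ m, q.1 = some m → m ≤ B) ∧ q.2 ≤ B := by
  obtain ⟨q1, q2⟩ := q
  simp only [QB, Finset.mem_product, Finset.mem_insert, Finset.mem_image, Finset.mem_range]
  constructor
  · rintro ⟨h1, h2⟩
    refine ⟨?_, by omega⟩
    intro m hm
    rcases h1 with h1 | ⟨m', h3, h4⟩
    · rw [h1] at hm; simp at hm
    · rw [← h4] at hm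
      injection hm with hm
      omega
  · rintro ⟨h1, h2⟩
    refine ⟨?_, by omega⟩
    cases q1 with
    | none => exact Or.inl rfl
    | some m => exact Or.inr ⟨m, by have := h1 m rfl; omega, rfl⟩

theorem step_QB {B : ℕ} {q q' : Q} {s : Al} (hq : q ∈ QB B) (h : step B q s = some q') :
    q' ∈ QB B := by
  rw [mem_QB] at hq ⊢
  obtain ⟨hq1, hq2⟩ := hq
  cases s with
  | a =>
    simp only [step] at h
    split_ifs at h with h1
    injection h with h
    subst h
    exact ⟨hq1, h1⟩
  | b =>
    simp only [step] at h
    split_ifs at h with h1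
    injection h with h
    subst h
    exact ⟨by simp, by simp⟩
  | c =>
    simp only [step] at h
    split_ifs at h with h1
    injection h with h
    subst h
    refine ⟨?_, by simp⟩
    intro m hm
    injection hm with hm
    omega
  | d =>
    simp only [step] at h
    split_ifs at h with h1
    injection h with h
    subst h
    refine ⟨?_, by simp⟩
    intro m hm
    injection hm with hm
    omega
  | e =>
    simp only [step] at h
    split_ifs at h with h1
    injection h with h
    subst h
    refine ⟨?_, by simp⟩
    intro m hm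
    injection hm with hm
    omega

theorem run_QB {B : ℕ} {q q' : Q} {x : List Al} (hq : q ∈ QB B) (h : run B q x = some q') :
    q' ∈ QB B := by
  induction x generalizing q with
  | nil => simp only [run, Option.some.injEq] at h; subst h; exact hq
  | cons s x ih =>
    obtain ⟨q'', h1, h2⟩ := run_cons_some h
    exact ih (step_QB hq h1) h2

end Pool.Agent.Helper79.EDT
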