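import Mathlib
import Pool.Agent.Helper79.CFG
import Pool.Agent.Helper79.EDT

set_option autoImplicit false

namespace Pool.Agent.Helper79.EDT

open List Al

/-- the nonterminals -/
inductive Nt
  | S | X | A | U | Y | M | K
deriving DecidableEq

instance : Fintype Nt :=
  ⟨{Nt.S, Nt.X, Nt.A, Nt.U, Nt.Y, Nt.M, Nt.K}, by intro x; cases x <;> decide⟩

abbrev Sy := Symbol Al Nt

/-- terminal -/
abbrev t (x : Al) : Sy := Symbol.terminal x
/-- nonterminal -/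
abbrev n (x : Nt) : Sy := Symbol.nonterminal x

/-- the rules -/
def rules : List (ContextFreeRule Al Nt) :=
  [⟨Nt.S, [t b, n Nt.X, t b]⟩, ⟨Nt.S, [n Nt.U, n Nt.M, n Nt.Y]⟩,
   ⟨Nt.X, [t a, n Nt.A, t c, n Nt.X, t d, n Nt.X, t e, n Nt.A, t a]⟩, ⟨Nt.X, []⟩,
   ⟨Nt.A, [t a, n Nt.A]⟩, ⟨Nt.A, []⟩,
   ⟨Nt.M, [t a, n Nt.M, t a]⟩,
   ⟨Nt.M, [t a, n Nt.K, t d]⟩, ⟨Nt.M, [t d, n Nt.K, t a]⟩,
   ⟨Nt.M, [t a, t a, n Nt.K, t c]⟩, ⟨Nt.M, [t c, n Nt.K]⟩,
   ⟨Nt.M, [t e, n Nt.K, t a, t a]⟩, ⟨Nt.M, [n Nt.K, t e]⟩,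
   ⟨Nt.K, [t a, n Nt.K]⟩, ⟨Nt.K, []⟩,
   ⟨Nt.U, [t a, n Nt.U]⟩, ⟨Nt.U, [t b, n Nt.U]⟩, ⟨Nt.U, [t c, n Nt.U]⟩, ⟨Nt.U, [t d, n Nt.U]⟩,
   ⟨Nt.U, [t e, n Nt.U]⟩, ⟨Nt.U, [t b]⟩, ⟨Nt.U, [t c]⟩, ⟨Nt.U, [t d]⟩, ⟨Nt.U, [t e]⟩,
   ⟨Nt.Y, [n Nt.Y, t a]⟩, ⟨Nt.Y, [n Nt.Y, t b]⟩, ⟨Nt.Y, [n Nt.Y, t c]⟩, ⟨Nt.Y, [n Nt.Y, t d]⟩,
   ⟨Nt.Y, [n Nt.Y, t e]⟩, ⟨Nt.Y, [t b]⟩, ⟨Nt.Y, [t c]⟩, ⟨Nt.Y, [t d]⟩, ⟨Nt.Y, [t e]⟩]

/-- the grammar -/
def G : ContextFreeGrammar Al where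
  NT := Nt
  initial := Nt.S
  rules := rules.toFinset

/-- languages of the nonterminals -/
def lang : Nt → Set (List Al)
  | Nt.S => {x | x ∈ L}
  | Nt.X => {x | (∃ m, x = w m) ∨ ∀ s₁ s₂, s₁ ≠ a → s₂ ≠ a → s₁ :: (x ++ [s₂]) ∈ Err}
  | Nt.A => {x | ∃ i, x = replicate i a}
  | Nt.U => {x | ∃ u s, s ≠ a ∧ x = u ++ [s]}
  | Nt.Y => {x | ∃ u s, s ≠ a ∧ x = s :: u}
  | Nt.M => {x | ∃ i s j, Bad s i j ∧ x = replicate i a ++ s :: replicate j a}
  | Nt.K => {x | ∃ i, x = replicate i a}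

theorem w_head (m : ℕ) (s : Al) (hs : s ≠ a) (v : List Al) :
    ∃ s' v', s' ≠ a ∧ w m ++ s :: v = replicate m a ++ s' :: v' := by
  cases m with
  | zero => exact ⟨s, v, hs, by simp [w]⟩
  | succ m =>
    refine ⟨c, (w m ++ d :: (w m ++ e :: replicate (m + 1) a)) ++ s :: v, by decide, ?_⟩
    rw [w]; simp

theorem w_last (m : ℕ) (s : Al) (hs : s ≠ a) (u : List Al) :
    ∃ s' u', s' ≠ a ∧ u ++ s :: w m = u' ++ s' :: replicate m a := by
  cases m with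
  | zero => exact ⟨s, u, hs, by simp [w]⟩
  | succ m =>
    refine ⟨e, u ++ s :: (replicate (m + 1) a ++ c :: (w m ++ d :: w m)), by decide, ?_⟩
    rw [w]; simp

theorem sound_X (p q : ℕ) (x y : List Al) (hx : x ∈ lang Nt.X) (hy : y ∈ lang Nt.X) :
    replicate (p + 1) a ++ c :: (x ++ d :: (y ++ e :: replicate (q + 1) a)) ∈ lang Nt.X := by
  rcases hx with ⟨m, rfl⟩ | hx
  · rcases hy with ⟨l, rfl⟩ | hy
    · by_cases h1 : p = m
      · by_cases h2 : m = l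
        · by_cases h3 : l = q
          · subst h1 h2 h3
            left
            exact ⟨p + 1, by rw [w]⟩
          · right
            intro s₁ s₂ hs₁ hs₂
            obtain ⟨s', u', hs', hu'⟩ := w_last l d (by decide)
              (s₁ :: (replicate (p + 1) a ++ c :: w m))
            refine ⟨u', s', l, e, q + 1, s₂, [], hs', hs₂, ?_, ?_⟩
            · simp only [Bad]; omega
            · have := congrArg (fun z => z ++ e :: (replicate (q + 1) a ++ [s₂])) hu'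
              simpa using this
        · right
          intro s₁ s₂ hs₁ hs₂
          obtain ⟨s', u', hs', hu'⟩ := w_last m c (by decide) (s₁ :: (replicate (p + 1) a))
          obtain ⟨s'', v', hs'', hv'⟩ := w_head l e (by decide) (replicate (q + 1) a ++ [s₂])
          refine ⟨u', s', m, d, l, s'', v', hs', hs'', ?_, ?_⟩
          · simp only [Bad]; omega
          · rw [← hv']
            have := congrArg (fun z => z ++ d :: (w l ++ e :: (replicate (q + 1) a ++ [s₂]))) hu'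
            simpa using this
      · right
        intro s₁ s₂ hs₁ hs₂
        obtain ⟨s'', v', hs'', hv'⟩ := w_head m d (by decide)
          (w l ++ e :: (replicate (q + 1) a ++ [s₂]))
        refine ⟨[], s₁, p + 1, c, m, s'', v', hs₁, hs'', ?_, ?_⟩
        · simp only [Bad]; omega
        · rw [← hv']
          simp
    · right
      intro s₁ s₂ hs₁ hs₂
      have := err_infix (hy d e (by decide) (by decide))
        (s₁ :: (replicate (p + 1) a ++ c :: w m)) (replicate (q + 1) a ++ [s₂])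
      simpa using this
  · right
    intro s₁ s₂ hs₁ hs₂
    have := err_infix (hx c d (by decide) (by decide))
      (s₁ :: replicate (p + 1) a) (y ++ e :: (replicate (q + 1) a ++ [s₂]))
    simpa using this

open CFG in
theorem sound (r : ContextFreeRule Al Nt) (hr : r ∈ rules) (x : List Al)
    (hx : Comp lang r.output x) : x ∈ lang r.input := by
  simp only [rules, List.mem_cons, List.not_mem_nil, or_false] at hr
  rcases hr with rfl | rfl | rfl | rfl | rfl | rfl | rfl | rfl | rfl | rfl | rfl | rfl | rfl |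
    rfl | rfl | rfl | rfl | rfl | rfl | rfl | rfl | rfl | rfl | rfl | rfl | rfl | rfl | rfl |
    rfl | rfl | rfl | rfl | rfl
  · -- S → b X b
    obtain ⟨_, rfl, x₁, _, rfl, hX, _, rfl, hnil⟩ := hx
    rw [show _ = [] from hnil]
    rcases hX with ⟨m, rfl⟩ | hX
    · exact Or.inr ⟨m, rfl⟩
    · exact Or.inl (by simpa using hX b b (by decide) (by decide))
  · -- S → U M Y
    obtain ⟨x₁, _, rfl, ⟨u, s₁, hs₁, rfl⟩, x₂, _, rfl, ⟨i, s, j, hb, rfl⟩, x₃, _, rfl,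
      ⟨v, s₂, hs₂, rfl⟩, hnil⟩ := hx
    rw [show _ = [] from hnil]
    exact Or.inl ⟨u, s₁, i, s, j, s₂, v, hs₁, hs₂, hb, by simp⟩
  · -- X
    obtain ⟨_, rfl, x₁, _, rfl, ⟨p, rfl⟩, _, rfl, x₂, _, rfl, h1, _, rfl, x₃, _, rfl, h2, _, rfl,
      x₄, _, rfl, ⟨q, rfl⟩, _, rfl, hnil⟩ := hx
    rw [show _ = [] from hnil]
    have := sound_X p q x₂ x₃ h1 h2
    rw [replicate_succ, replicate_succ'] at this
    simpa using this
  · rw [show x = [] from hx]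
    exact Or.inl ⟨0, rfl⟩
  · obtain ⟨_, rfl, x₁, _, rfl, ⟨i, rfl⟩, hnil⟩ := hx
    rw [show _ = [] from hnil]
    exact ⟨i + 1, by simp [replicate_succ]⟩
  · rw [show x = [] from hx]
    exact ⟨0, rfl⟩
  · obtain ⟨_, rfl, x₁, _, rfl, ⟨i, s, j, hb, rfl⟩, _, rfl, hnil⟩ := hx
    rw [show _ = [] from hnil]
    refine ⟨i + 1, s, j + 1, ?_, ?_⟩
    · cases s <;> simp only [Bad] at hb ⊢ <;> omega
    · rw [replicate_succ, replicate_succ' (n := j)]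
      simp
  · obtain ⟨_, rfl, x₁, _, rfl, ⟨i, rfl⟩, _, rfl, hnil⟩ := hx
    rw [show _ = [] from hnil]
    exact ⟨i + 1, d, 0, by simp [Bad], by simp [replicate_succ]⟩
  · obtain ⟨_, rfl, x₁, _, rfl, ⟨i, rfl⟩, _, rfl, hnil⟩ := hx
    rw [show _ = [] from hnil]
    exact ⟨0, d, i + 1, by simp [Bad], by simp [replicate_succ']⟩
  · obtain ⟨_, rfl, _, rfl, x₁, _, rfl, ⟨i, rfl⟩, _, rfl, hnil⟩ := hx
    rw [show _ = [] from hnil]
    exact ⟨i + 2, c, 0, by simp [Bad], by simp [replicate_succ]⟩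
  · obtain ⟨_, rfl, x₁, _, rfl, ⟨i, rfl⟩, hnil⟩ := hx
    rw [show _ = [] from hnil]
    exact ⟨0, c, i, by simp [Bad], by simp⟩
  · obtain ⟨_, rfl, x₁, _, rfl, ⟨i, rfl⟩, _, rfl, _, rfl, hnil⟩ := hx
    rw [show _ = [] from hnil]
    exact ⟨0, e, i + 2, by simp [Bad], by simp [replicate_succ']⟩
  · obtain ⟨x₁, _, rfl, ⟨i, rfl⟩, _, rfl, hnil⟩ := hx
    rw [show _ = [] from hnil]
    exact ⟨i, e, 0, by simp [Bad], by simp⟩
  · obtain ⟨_, rfl, x₁, _, rfl, ⟨i, rfl⟩, hnil⟩ := hx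
    rw [show _ = [] from hnil]
    exact ⟨i + 1, by simp [replicate_succ]⟩
  · rw [show x = [] from hx]
    exact ⟨0, rfl⟩
  all_goals first
    | (obtain ⟨_, rfl, x₁, _, rfl, ⟨u, s, hs, rfl⟩, hnil⟩ := hx
       rw [show _ = [] from hnil]
       exact ⟨_ :: u, s, hs, by simp; rfl⟩)
    | (obtain ⟨x₁, _, rfl, ⟨u, s, hs, rfl⟩, _, rfl, hnil⟩ := hx
       rw [show _ = [] from hnil]
       exact ⟨u ++ [_], s, hs, by simp; rfl⟩)
    | (obtain ⟨_, rfl, hnil⟩ := hx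
       rw [show _ = [] from hnil]
       exact ⟨[], _, by decide, rfl⟩)

end Pool.Agent.Helper79.EDT
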