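import Mathlib
import Pool.Agent.Helper79.CFG
import Pool.Agent.Helper79.EDTGram

set_option autoImplicit false

namespace Pool.Agent.Helper79.EDT

open List Al

/-- the table of a rule: it rewrites one nonterminal and fixes every other letter -/
def tab (r : ContextFreeRule Al Nt) : Sy → List Sy :=
  fun x => if x = Symbol.nonterminal r.input then r.output else [x]

/-- the tables -/
def tables : List (Sy → List Sy) := rules.map tab

/-- reachability in the EDT0L system -/
def Reach (u v : List Sy) : Prop :=
  ∃ sq : List (Sy → List Sy), (∀ h ∈ sq, h ∈ tables) ∧ sq.foldl (fun u h => u.flatMap h) u = v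

theorem Reach.refl (u : List Sy) : Reach u u := ⟨[], by simp, rfl⟩

theorem Reach.trans {u v x : List Sy} (h1 : Reach u v) (h2 : Reach v x) : Reach u x := by
  obtain ⟨s1, h1, rfl⟩ := h1
  obtain ⟨s2, h2, rfl⟩ := h2
  refine ⟨s1 ++ s2, ?_, by rw [List.foldl_append]⟩
  intro h hh
  rcases List.mem_append.1 hh with hh | hh
  · exact h1 h hh
  · exact h2 h hh

theorem Reach.single {r : ContextFreeRule Al Nt} (hr : r ∈ rules) (u : List Sy) :
    Reach u (u.flatMap (tab r)) :=
  ⟨[tab r], by simpa [tables] using ⟨r, hr, rfl⟩, rfl⟩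

theorem flatMap_tab_of_not_mem (r : ContextFreeRule Al Nt) (u : List Sy)
    (h : Symbol.nonterminal r.input ∉ u) : u.flatMap (tab r) = u := by
  induction u with
  | nil => rfl
  | cons x u ih =>
    simp only [List.mem_cons, not_or] at h
    rw [List.flatMap_cons, ih h.2, tab, if_neg (fun h' => h.1 h'.symm)]
    rfl

theorem reach_rule {r : ContextFreeRule Al Nt} (hr : r ∈ rules) (p q : List Sy)
    (hp : Symbol.nonterminal r.input ∉ p) (hq : Symbol.nonterminal r.input ∉ q) :
    Reach (p ++ Symbol.nonterminal r.input :: q) (p ++ (r.output ++ q)) := by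
  have h := Reach.single hr (p ++ Symbol.nonterminal r.input :: q)
  rw [List.flatMap_append, List.flatMap_cons, flatMap_tab_of_not_mem r p hp,
    flatMap_tab_of_not_mem r q hq, tab, if_pos rfl] at h
  exact h

theorem mem_G (r : ContextFreeRule Al Nt) :
    r ∈ (rules.toFinset : Finset (ContextFreeRule Al Nt)) ↔ r ∈ rules := List.mem_toFinset

/-- the table derivations are derivations of the grammar -/
theorem derives_tab (r : ContextFreeRule Al Nt) (hr : r ∈ rules) (u : List Sy) :
    G.Derives u (u.flatMap (tab r)) := by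
  induction u with
  | nil => exact Relation.ReflTransGen.refl
  | cons x u ih =>
    have h1 : G.Derives [x] (tab r x) := by
      rw [tab]
      split_ifs with h
      · subst h
        have h8 : G.Produces [Symbol.nonterminal r.input] r.output :=
          ⟨r, (mem_G r).2 hr, ContextFreeRule.Rewrites.input_output⟩
        exact h8.single
      · exact Relation.ReflTransGen.refl
    have h2 := CFG.derives_append (g := G) (α := [x]) h1 ih
    exact h2

theorem derives_of_reach {u v : List Sy} (h : Reach u v) : G.Derives u v := by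
  obtain ⟨sq, h1, rfl⟩ := h
  induction sq generalizing u with
  | nil => exact Relation.ReflTransGen.refl
  | cons h sq ih =>
    rw [List.foldl_cons]
    have h2 := h1 h (by simp)
    rw [tables, List.mem_map] at h2
    obtain ⟨r, hr, rfl⟩ := h2
    exact (derives_tab r hr u).trans (ih (fun h hh => h1 h (by simp [hh])))

/-! ### the good words -/

/-- one growth round -/
def grow (u : List Sy) : List Sy :=
  (u.flatMap (tab ⟨Nt.A, [t a, n Nt.A]⟩)).flatMap
    (tab ⟨Nt.X, [t a, n Nt.A, t c, n Nt.X, t d, n Nt.X, t e, n Nt.A, t a]⟩)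

/-- the final round -/
def fin (u : List Sy) : List Sy := (u.flatMap (tab ⟨Nt.A, []⟩)).flatMap (tab ⟨Nt.X, []⟩)

theorem grow_append (u v : List Sy) : grow (u ++ v) = grow u ++ grow v := by
  simp [grow]

theorem fin_append (u v : List Sy) : fin (u ++ v) = fin u ++ fin v := by
  simp [fin]

theorem iter_append (m : ℕ) (u v : List Sy) : grow^[m] (u ++ v) = grow^[m] u ++ grow^[m] v := by
  induction m generalizing u v with
  | zero => rfl
  | succ m ih => rw [Function.iterate_succ_apply, Function.iterate_succ_apply,
      Function.iterate_succ_apply, grow_append, ih]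

theorem grow_t (x : Al) : grow [t x] = [t x] := by
  simp [grow, tab]

theorem iter_t (m : ℕ) (x : Al) : grow^[m] [t x] = [t x] := by
  induction m with
  | zero => rfl
  | succ m ih => rw [Function.iterate_succ_apply, grow_t, ih]

theorem fin_t (x : Al) : fin [t x] = [t x] := by
  simp [fin, tab]

/-- `fin ∘ growᵐ` -/
def fg (m : ℕ) (u : List Sy) : List Sy := fin (grow^[m] u)

theorem fg_append (m : ℕ) (u v : List Sy) : fg m (u ++ v) = fg m u ++ fg m v := by
  rw [fg, iter_append, fin_append]; rfl

theorem fg_cons (m : ℕ) (x : Sy) (v : List Sy) : fg m (x :: v) = fg m [x] ++ fg m v :=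
  fg_append m [x] v

theorem fg_nil (m : ℕ) : fg m [] = [] := by
  induction m with
  | zero => rfl
  | succ m ih =>
    have : fg (m + 1) [] = fg m [] := by
      rw [fg, Function.iterate_succ_apply]; rfl
    rw [this, ih]

theorem fg_t (m : ℕ) (x : Al) : fg m [t x] = [t x] := by
  rw [fg, iter_t, fin_t]

theorem fg_A (m : ℕ) : fg m [n Nt.A] = (replicate m a).map t := by
  induction m with
  | zero => simp [fg, fin, tab]
  | succ m ih =>
    have h1 : fg (m + 1) [n Nt.A] = fg m [t a, n Nt.A] := by
      rw [fg, Function.iterate_succ_apply]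
      congr 1
    rw [h1, fg_cons, fg_t, ih, replicate_succ]
    rfl

theorem fg_X (m : ℕ) : fg m [n Nt.X] = (w m).map t := by
  induction m with
  | zero => simp [fg, fin, tab, w]
  | succ m ih =>
    have h1 : fg (m + 1) [n Nt.X] =
        fg m [t a, n Nt.A, t c, n Nt.X, t d, n Nt.X, t e, n Nt.A, t a] := by
      rw [fg, Function.iterate_succ_apply]
      congr 1
    have h2 : [t a, n Nt.A, t c, n Nt.X, t d, n Nt.X, t e, n Nt.A, t a] =
        [t a] ++ ([n Nt.A] ++ ([t c] ++ ([n Nt.X] ++ ([t d] ++ ([n Nt.X] ++ ([t e] ++
          ([n Nt.A] ++ [t a]))))))) := rfl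
    have h3 : (replicate (m + 1) a).map t = (replicate m a).map t ++ [t a] := by
      rw [replicate_succ']; simp
    have h4 : (replicate (m + 1) a).map t = t a :: (replicate m a).map t := by
      rw [replicate_succ]; rfl
    rw [h1, h2, fg_append, fg_append, fg_append, fg_append, fg_append, fg_append, fg_append,
      fg_append, fg_t, fg_t, fg_t, fg_t, fg_A, ih, w, List.map_append, h4, List.map_cons,
      List.map_append, List.map_cons, List.map_append, List.map_cons, h3]
    simp only [List.cons_append, List.nil_append]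

theorem reach_iter (m : ℕ) (u : List Sy) : Reach u (grow^[m] u) := by
  induction m generalizing u with
  | zero => exact Reach.refl u
  | succ m ih =>
    rw [Function.iterate_succ_apply]
    refine Reach.trans ?_ (ih _)
    exact (Reach.single (by simp [rules]) u).trans (Reach.single (by simp [rules]) _)

theorem reach_fg (m : ℕ) (u : List Sy) : Reach u (fg m u) := by
  refine (reach_iter m u).trans ?_
  exact (Reach.single (by simp [rules]) _).trans (Reach.single (by simp [rules]) _)

theorem reach_P (m : ℕ) : Reach [n Nt.S] ((P m).map t) := by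
  have h1 := reach_rule (r := ⟨Nt.S, [t b, n Nt.X, t b]⟩) (by simp [rules]) [] [] (by simp)
    (by simp)
  refine Reach.trans (by simpa using h1) ?_
  have h2 := reach_fg m [t b, n Nt.X, t b]
  rw [fg_cons, fg_cons m (n Nt.X), fg_t, fg_X] at h2
  simpa [P] using h2

/-! ### the words with an error -/

theorem reach_U (u : List Al) (p q : List Sy) (hp : n Nt.U ∉ p) (hq : n Nt.U ∉ q) :
    Reach (p ++ n Nt.U :: q) (p ++ (u.map t ++ n Nt.U :: q)) := by
  induction u generalizing p with
  | nil => exact Reach.refl _
  | cons x u ih =>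
    have hr : (⟨Nt.U, [t x, n Nt.U]⟩ : ContextFreeRule Al Nt) ∈ rules := by
      cases x <;> simp [rules]
    have h1 := reach_rule hr p q hp hq
    refine Reach.trans (by simpa using h1) ?_
    have h2 := ih (p ++ [t x]) (by simpa using hp)
    simpa using h2

theorem reach_U' (u : List Al) (s : Al) (hs : s ≠ a) (p q : List Sy) (hp : n Nt.U ∉ p)
    (hq : n Nt.U ∉ q) :
    Reach (p ++ n Nt.U :: q) (p ++ (u.map t ++ t s :: q)) := by
  refine (reach_U u p q hp hq).trans ?_
  have hr : (⟨Nt.U, [t s]⟩ : ContextFreeRule Al Nt) ∈ rules := by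
    cases s
    · exact absurd rfl hs
    all_goals simp [rules]
  have h1 := reach_rule hr (p ++ u.map t) q (by simpa using hp) hq
  simpa using h1

theorem reach_Y (u : List Al) (p q : List Sy) (hp : n Nt.Y ∉ p) (hq : n Nt.Y ∉ q) :
    Reach (p ++ n Nt.Y :: q) (p ++ n Nt.Y :: (u.map t ++ q)) := by
  induction u using List.reverseRecOn generalizing q with
  | nil => exact Reach.refl _
  | append_singleton u x ih =>
    have hr : (⟨Nt.Y, [n Nt.Y, t x]⟩ : ContextFreeRule Al Nt) ∈ rules := by
      cases x <;> simp [rules]
    have h1 := reach_rule hr p q hp hq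
    refine Reach.trans (by simpa using h1) ?_
    have h2 := ih (t x :: q) (by simpa using hq)
    simpa using h2

theorem reach_Y' (u : List Al) (s : Al) (hs : s ≠ a) (p q : List Sy) (hp : n Nt.Y ∉ p)
    (hq : n Nt.Y ∉ q) :
    Reach (p ++ n Nt.Y :: q) (p ++ t s :: (u.map t ++ q)) := by
  refine (reach_Y u p q hp hq).trans ?_
  have hr : (⟨Nt.Y, [t s]⟩ : ContextFreeRule Al Nt) ∈ rules := by
    cases s
    · exact absurd rfl hs
    all_goals simp [rules]
  have h1 := reach_rule hr p (u.map t ++ q) hp (by simpa using hq)
  simpa using h1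

theorem reach_K (i : ℕ) (p q : List Sy) (hp : n Nt.K ∉ p) (hq : n Nt.K ∉ q) :
    Reach (p ++ n Nt.K :: q) (p ++ ((replicate i a).map t ++ q)) := by
  induction i generalizing p with
  | zero =>
    have h1 := reach_rule (r := ⟨Nt.K, []⟩) (by simp [rules]) p q hp hq
    simpa using h1
  | succ i ih =>
    have h1 := reach_rule (r := ⟨Nt.K, [t a, n Nt.K]⟩) (by simp [rules]) p q hp hq
    refine Reach.trans (by simpa using h1) ?_
    have h2 := ih (p ++ [t a]) (by simpa using hp)
    simpa [replicate_succ] using h2

theorem reach_M (i : ℕ) (p q : List Sy) (hp : n Nt.M ∉ p) (hq : n Nt.M ∉ q) :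
    Reach (p ++ n Nt.M :: q)
      (p ++ ((replicate i a).map t ++ n Nt.M :: ((replicate i a).map t ++ q))) := by
  induction i generalizing p q with
  | zero => exact Reach.refl _
  | succ i ih =>
    have h1 := reach_rule (r := ⟨Nt.M, [t a, n Nt.M, t a]⟩) (by simp [rules]) p q hp hq
    refine Reach.trans (by simpa using h1) ?_
    have h2 := ih (p ++ [t a]) (t a :: q) (by simpa using hp) (by simpa using hq)
    have h3 : (replicate i a).map t ++ t a :: q = (replicate (i + 1) a).map t ++ q := by
      rw [replicate_succ']; simp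
    rw [h3] at h2
    simpa [replicate_succ] using h2

theorem reach_Mfin {α : List Sy} (hr : (⟨Nt.M, α⟩ : ContextFreeRule Al Nt) ∈ rules) (i : ℕ)
    (p q : List Sy) (hp : n Nt.M ∉ p) (hq : n Nt.M ∉ q) :
    Reach (p ++ n Nt.M :: q)
      (p ++ ((replicate i a).map t ++ (α ++ ((replicate i a).map t ++ q)))) := by
  refine (reach_M i p q hp hq).trans ?_
  have h1 := reach_rule hr (p ++ (replicate i a).map t) ((replicate i a).map t ++ q)
    (by simpa using hp) (by simpa using hq)
  simpa using h1

theorem reach_bad (i : ℕ) (s : Al) (j : ℕ) (hb : Bad s i j) (p q : List Sy)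
    (hp : n Nt.M ∉ p) (hq : n Nt.M ∉ q) (hp' : n Nt.K ∉ p) (hq' : n Nt.K ∉ q) :
    Reach (p ++ n Nt.M :: q)
      (p ++ ((replicate i a).map t ++ t s :: ((replicate j a).map t ++ q))) := by
  cases s with
  | a => exact absurd hb id
  | b => exact absurd hb id
  | c =>
    simp only [Bad] at hb
    rcases lt_or_gt_of_ne hb with h | h
    · -- i ≤ j
      obtain ⟨k, rfl⟩ : ∃ k, j = k + i := ⟨j - i, by omega⟩
      refine (reach_Mfin (α := [t c, n Nt.K]) (by simp [rules]) i p q hp hq).trans ?_
      have h2 := reach_K k (p ++ ((replicate i a).map t ++ [t c]))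
        ((replicate i a).map t ++ q) (by simpa using hp') (by simpa using hq')
      rw [replicate_add]
      simpa [-List.replicate_append_replicate] using h2
    · -- j + 2 ≤ i
      obtain ⟨k, rfl⟩ : ∃ k, i = (j + 2) + k := ⟨i - j - 2, by omega⟩
      refine (reach_Mfin (α := [t a, t a, n Nt.K, t c]) (by simp [rules]) j p q hp hq).trans ?_
      have h2 := reach_K k (p ++ ((replicate j a).map t ++ [t a, t a]))
        (t c :: ((replicate j a).map t ++ q)) (by simpa using hp') (by simpa using hq')
      rw [replicate_add (m := j + 2), replicate_add (m := j)]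
      simpa [replicate_succ] using h2
  | d =>
    simp only [Bad] at hb
    rcases lt_or_gt_of_ne hb with h | h
    · obtain ⟨k, rfl⟩ : ∃ k, j = (k + 1) + i := ⟨j - i - 1, by omega⟩
      refine (reach_Mfin (α := [t d, n Nt.K, t a]) (by simp [rules]) i p q hp hq).trans ?_
      have h2 := reach_K k (p ++ ((replicate i a).map t ++ [t d]))
        (t a :: ((replicate i a).map t ++ q)) (by simpa using hp') (by simpa using hq')
      rw [replicate_add (m := k + 1), replicate_add (m := k)]
      simpa [replicate_succ] using h2
    · obtain ⟨k, rfl⟩ : ∃ k, i = (j + 1) + k := ⟨i - j - 1, by omega⟩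
      refine (reach_Mfin (α := [t a, n Nt.K, t d]) (by simp [rules]) j p q hp hq).trans ?_
      have h2 := reach_K k (p ++ ((replicate j a).map t ++ [t a]))
        (t d :: ((replicate j a).map t ++ q)) (by simpa using hp') (by simpa using hq')
      rw [replicate_add (m := j + 1), replicate_add (m := j)]
      simpa [replicate_succ] using h2
  | e =>
    simp only [Bad] at hb
    rcases lt_or_gt_of_ne hb with h | h
    · -- j ≤ i
      obtain ⟨k, rfl⟩ : ∃ k, i = j + k := ⟨i - j, by omega⟩
      refine (reach_Mfin (α := [n Nt.K, t e]) (by simp [rules]) j p q hp hq).trans ?_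
      have h2 := reach_K k (p ++ (replicate j a).map t)
        (t e :: ((replicate j a).map t ++ q)) (by simpa using hp') (by simpa using hq')
      rw [replicate_add]
      simpa [-List.replicate_append_replicate] using h2
    · obtain ⟨k, rfl⟩ : ∃ k, j = k + (2 + i) := ⟨j - i - 2, by omega⟩
      refine (reach_Mfin (α := [t e, n Nt.K, t a, t a]) (by simp [rules]) i p q hp hq).trans ?_
      have h2 := reach_K k (p ++ ((replicate i a).map t ++ [t e]))
        (t a :: t a :: ((replicate i a).map t ++ q)) (by simpa using hp') (by simpa using hq')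
      rw [replicate_add (m := k), replicate_add (m := 2)]
      simpa [replicate_succ] using h2

theorem reach_err (x : List Al) (hx : x ∈ Err) : Reach [n Nt.S] (x.map t) := by
  obtain ⟨u, s₁, i, s, j, s₂, v, h1, h2, h3, rfl⟩ := hx
  have e1 := reach_rule (r := ⟨Nt.S, [n Nt.U, n Nt.M, n Nt.Y]⟩) (by simp [rules]) [] [] (by simp)
    (by simp)
  refine Reach.trans (by simpa using e1) ?_
  have e2 := reach_U' u s₁ h1 [] [n Nt.M, n Nt.Y] (by simp) (by simp)
  refine Reach.trans (by simpa using e2) ?_
  have e3 := reach_Y' v s₂ h2 (u.map t ++ [t s₁, n Nt.M]) [] (by simp) (by simp)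
  refine Reach.trans (by simpa using e3) ?_
  have e4 := reach_bad i s j h3 (u.map t ++ [t s₁]) (t s₂ :: v.map t) (by simp) (by simp)
    (by simp) (by simp)
  simpa using e4

theorem reach_L (x : List Al) (hx : x ∈ L) : Reach [n Nt.S] (x.map t) := by
  rcases hx with hx | ⟨m, rfl⟩
  · exact reach_err x hx
  · exact reach_P m

theorem language_G : G.language = L := by
  ext x
  constructor
  · intro h
    have := CFG.comp_of_derives G lang (fun r hr y hy => sound r (List.mem_toFinset.1 hr) y hy)
      [Symbol.nonterminal Nt.S] x h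
    obtain ⟨w₁, w₂, rfl, h1, h2⟩ := this
    simp only [CFG.Comp] at h2
    subst h2
    rw [List.append_nil]
    exact h1
  · intro h
    exact derives_of_reach (reach_L x h)

theorem reach_iff (x : List Al) : Reach [n Nt.S] (x.map t) ↔ x ∈ L := by
  constructor
  · intro h
    rw [← language_G]
    exact derives_of_reach h
  · exact reach_L x

end Pool.Agent.Helper79.EDT
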