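import Mathlib
import Pool.Agent.Helper79.CFG

set_option autoImplicit false

namespace Pool.Agent.Helper79.FI

universe u

variable {T : Type u}

/-- number of nonterminals of a sentential form -/
def nts {N : Type} : List (Symbol T N) → ℕ
  | [] => 0
  | Symbol.terminal _ :: α => nts α
  | Symbol.nonterminal _ :: α => nts α + 1

@[simp] theorem nts_nil {N : Type} : nts ([] : List (Symbol T N)) = 0 := rfl

@[simp] theorem nts_terminal {N : Type} (t : T) (α : List (Symbol T N)) :
    nts (Symbol.terminal t :: α) = nts α := rfl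

@[simp] theorem nts_nonterminal {N : Type} (A : N) (α : List (Symbol T N)) :
    nts (Symbol.nonterminal A :: α) = nts α + 1 := rfl

@[simp] theorem nts_append {N : Type} (α β : List (Symbol T N)) :
    nts (α ++ β) = nts α + nts β := by
  induction α with
  | nil => simp
  | cons s α ih =>
    cases s with
    | terminal t => simp [ih]
    | nonterminal A => simp [ih]; omega

@[simp] theorem nts_map {N : Type} (w : List T) :
    nts (w.map (Symbol.terminal : T → Symbol T N)) = 0 := by
  induction w with
  | nil => rfl
  | cons t w ih => simpa using ih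

theorem terminal_of_nts {N : Type} (α : List (Symbol T N)) (h : nts α = 0) :
    ∃ w : List T, α = w.map Symbol.terminal := by
  induction α with
  | nil => exact ⟨[], rfl⟩
  | cons s α ih =>
    cases s with
    | terminal t =>
      obtain ⟨w, hw⟩ := ih (by simpa using h)
      exact ⟨t :: w, by simp [hw]⟩
    | nonterminal A => simp at h

/-- `DN g k n α w`: in `n` steps the form `α` derives the terminal word `w`, every form rewritten
on the way having at most `k` nonterminals. -/
inductive DN (g : ContextFreeGrammar T) (k : ℕ) : ℕ → List (Symbol T g.NT) → List T → Prop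
  | done (w : List T) : DN g k 0 (w.map Symbol.terminal) w
  | step {n : ℕ} {u v : List (Symbol T g.NT)} {w : List T} :
      g.Produces u v → nts u ≤ k → DN g k n v w → DN g k (n + 1) u w

theorem DN.mono {g : ContextFreeGrammar T} {k k' n : ℕ} (hk : k ≤ k')
    {α : List (Symbol T g.NT)} {w : List T} (h : DN g k n α w) : DN g k' n α w := by
  induction h with
  | done w => exact DN.done w
  | step h1 h2 _ ih => exact DN.step h1 (h2.trans hk) ih

theorem DN.derives {g : ContextFreeGrammar T} {k n : ℕ}
    {α : List (Symbol T g.NT)} {w : List T} (h : DN g k n α w) :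
    g.Derives α (w.map Symbol.terminal) := by
  induction h with
  | done w => exact Relation.ReflTransGen.refl
  | step h1 h2 _ ih => exact h1.trans_derives ih

theorem map_terminal_inj {N : Type} {u v : List T}
    (h : u.map (Symbol.terminal : T → Symbol T N) = v.map Symbol.terminal) : u = v := by
  have : Function.Injective (Symbol.terminal : T → Symbol T N) := fun a b hab => by
    injection hab
  exact (List.map_injective_iff.2 this) h

theorem DN.of_terminal_aux {g : ContextFreeGrammar T} {k n : ℕ}
    {α : List (Symbol T g.NT)} {w : List T} (h : DN g k n α w) (a : List T)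
    (ha : α = a.map Symbol.terminal) : n = 0 ∧ w = a := by
  cases h with
  | done => exact ⟨rfl, map_terminal_inj ha⟩
  | step h6 _ _ =>
    exfalso
    obtain ⟨r', _, hrw'⟩ := h6
    obtain ⟨p'', q'', h7, _⟩ := hrw'.exists_parts
    have : nts (a.map (Symbol.terminal : T → Symbol T g.NT)) = 0 := nts_map a
    rw [← ha, h7] at this
    simp at this

theorem DN.of_terminal {g : ContextFreeGrammar T} {k n : ℕ} {a : List T} {w : List T}
    (h : DN g k n (a.map Symbol.terminal) w) : n = 0 ∧ w = a :=
  h.of_terminal_aux a rfl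

/-- Splitting of a derivation of bounded index: at most one of the two parts needs the full
index. -/
theorem DN.split {g : ContextFreeGrammar T} {k n : ℕ} {γ : List (Symbol T g.NT)} {w : List T}
    (h : DN g k n γ w) : ∀ α β : List (Symbol T g.NT), γ = α ++ β →
    ∃ n₁ n₂ u v, n₁ + n₂ = n ∧ w = u ++ v ∧ DN g k n₁ α u ∧ DN g k n₂ β v ∧
      (DN g (k - 1) n₁ α u ∨ DN g (k - 1) n₂ β v) := by
  induction h with
  | done w =>
    intro α β hγ
    have h1 : nts (α ++ β) = 0 := by rw [← hγ]; simp
    rw [nts_append] at h1
    obtain ⟨u, rfl⟩ := terminal_of_nts α (by omega)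
    obtain ⟨v, rfl⟩ := terminal_of_nts β (by omega)
    rw [← List.map_append] at hγ
    have := map_terminal_inj hγ
    subst this
    exact ⟨0, 0, u, v, rfl, rfl, DN.done u, DN.done v, Or.inl (DN.done u)⟩
  | @step n γ γ' w hp hk _ ih =>
    intro α β hγ
    obtain ⟨r, hr, hrw⟩ := hp
    obtain ⟨p, q, h1, h2⟩ := hrw.exists_parts
    subst hγ
    have key : (∃ p', β = p' ++ [Symbol.nonterminal r.input] ++ q ∧ p = α ++ p') ∨
        (∃ q', α = p ++ [Symbol.nonterminal r.input] ++ q' ∧ q = q' ++ β) := by
      rw [List.append_assoc] at h1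
      rcases List.append_eq_append_iff.1 h1 with ⟨a', h3, h4⟩ | ⟨c', h3, h4⟩
      · left
        exact ⟨a', by rw [List.append_assoc]; exact h4, h3⟩
      · cases c' with
        | nil =>
          left
          refine ⟨[], ?_, by simpa using h3.symm⟩
          simpa using h4.symm
        | cons s c' =>
          right
          simp only [List.nil_append, List.cons_append] at h4
          injection h4 with h5 h6
          subst h5
          exact ⟨c', by simpa using h3, h6⟩
    rcases key with ⟨p', hβ, hp'⟩ | ⟨q', hα, hq'⟩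
    · -- the step is in `β`
      subst hp'
      have h3 : γ' = α ++ (p' ++ r.output ++ q) := by rw [h2]; simp
      obtain ⟨n₁, n₂, u, v, hn, hw, hu, hv, hor⟩ := ih α _ h3
      have hprod : g.Produces β (p' ++ r.output ++ q) := by
        refine ⟨r, hr, ?_⟩
        rw [hβ]
        exact ContextFreeRule.rewrites_of_exists_parts r p' q
      have hαβ : nts α + nts β ≤ k := by
        rw [nts_append] at hk
        exact hk
      have hβ1 : 1 ≤ nts β := by rw [hβ]; simp; omega
      refine ⟨n₁, n₂ + 1, u, v, by omega, hw, hu, DN.step hprod (by omega) hv, ?_⟩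
      rcases hor with h4 | h4
      · exact Or.inl h4
      · rcases Nat.eq_zero_or_pos (nts α) with h5 | h5
        · left
          obtain ⟨a, rfl⟩ := terminal_of_nts α h5
          obtain ⟨rfl, rfl⟩ := hu.of_terminal
          exact DN.done _
        · right
          exact DN.step hprod (by omega) h4
    · -- the step is in `α`
      subst hq'
      have h3 : γ' = (p ++ r.output ++ q') ++ β := by rw [h2]; simp
      obtain ⟨n₁, n₂, u, v, hn, hw, hu, hv, hor⟩ := ih _ β h3
      have hprod : g.Produces α (p ++ r.output ++ q') := by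
        refine ⟨r, hr, ?_⟩
        rw [hα]
        exact ContextFreeRule.rewrites_of_exists_parts r p q'
      have hαβ : nts α + nts β ≤ k := by
        rw [nts_append] at hk
        exact hk
      have hα1 : 1 ≤ nts α := by rw [hα]; simp; omega
      refine ⟨n₁ + 1, n₂, u, v, by omega, hw, DN.step hprod (by omega) hu, hv, ?_⟩
      rcases hor with h4 | h4
      · rcases Nat.eq_zero_or_pos (nts β) with h5 | h5
        · right
          obtain ⟨a, rfl⟩ := terminal_of_nts β h5
          obtain ⟨rfl, rfl⟩ := hv.of_terminal
          exact DN.done _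
        · left
          exact DN.step hprod (by omega) h4
      · exact Or.inr h4

/-- `y` can be the yield of `α` inside a derivation of `w₀`. -/
def Ctx (g : ContextFreeGrammar T) (w₀ : List T) (α : List (Symbol T g.NT)) (y : List T) : Prop :=
  ∃ u z : List T, g.Derives [Symbol.nonterminal g.initial]
    (u.map Symbol.terminal ++ (α ++ z.map Symbol.terminal)) ∧ u ++ (y ++ z) = w₀

theorem Ctx.left {g : ContextFreeGrammar T} {w₀ : List T} {α β : List (Symbol T g.NT)}
    {y₁ y₂ : List T} (h : Ctx g w₀ (α ++ β) (y₁ ++ y₂))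
    (hβ : g.Derives β (y₂.map Symbol.terminal)) : Ctx g w₀ α y₁ := by
  obtain ⟨u, z, h1, h2⟩ := h
  refine ⟨u, y₂ ++ z, ?_, by simpa using h2⟩
  refine h1.trans ?_
  have h3 := ((hβ.append_right (z.map Symbol.terminal)).append_left α).append_left
    (u.map Symbol.terminal)
  simpa using h3

theorem Ctx.right {g : ContextFreeGrammar T} {w₀ : List T} {α β : List (Symbol T g.NT)}
    {y₁ y₂ : List T} (h : Ctx g w₀ (α ++ β) (y₁ ++ y₂))
    (hα : g.Derives α (y₁.map Symbol.terminal)) : Ctx g w₀ β y₂ := by
  obtain ⟨u, z, h1, h2⟩ := h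
  refine ⟨u ++ y₁, z, ?_, by simpa using h2⟩
  refine h1.trans ?_
  have h3 := (hα.append_right (β ++ z.map Symbol.terminal)).append_left
    (u.map Symbol.terminal)
  simpa using h3

/-- the bounding function -/
def F (c k m : ℕ) : ℕ := ((2 * c + 1) * (m + 1)) ^ k

theorem F_mono {c k m m' : ℕ} (h : m ≤ m') : F c k m ≤ F c k m' := by
  unfold F
  exact Nat.pow_le_pow_left (Nat.mul_le_mul_left _ (by omega)) _

theorem F_zero (c k : ℕ) : c ≤ F c (k + 1) 0 := by
  unfold F
  rw [zero_add, mul_one, pow_succ]
  have : 1 ≤ (2 * c + 1) ^ k := Nat.one_le_pow _ _ (by omega)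
  nlinarith

theorem F_succ (c k m : ℕ) : F c (k + 1) m + c * (1 + F c k m) ≤ F c (k + 1) (m + 1) := by
  unfold F
  set X := (2 * c + 1) * (m + 1) with hX
  have h1 : (2 * c + 1) * (m + 1 + 1) = X + (2 * c + 1) := by rw [hX]; ring
  rw [h1, pow_succ, pow_succ]
  have h2 : X ^ k ≤ (X + (2 * c + 1)) ^ k := Nat.pow_le_pow_left (by omega) _
  have h3 : 1 ≤ X ^ k := Nat.one_le_pow _ _ (by rw [hX]; positivity)
  calc X ^ k * X + c * (1 + X ^ k) ≤ X ^ k * X + X ^ k * (2 * c + 1) := by nlinarith
    _ = X ^ k * (X + (2 * c + 1)) := by ring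
    _ ≤ (X + (2 * c + 1)) ^ k * (X + (2 * c + 1)) := Nat.mul_le_mul_right _ h2

/-- bound for the children -/
def Fb (c k m : ℕ) : ℕ := if m = 0 then 0 else F c k (m - 1)

theorem le_Fb {c k m m' : ℕ} (h : m < m') : F c k m ≤ Fb c k m' := by
  unfold Fb
  rw [if_neg (by omega)]
  exact F_mono (by omega)

section bound

variable (g : ContextFreeGrammar T) (w₀ : List T) (c : ℕ) (Λ : Finset ℕ)

/-- rank of a length -/
def rk (ℓ : ℕ) : ℕ := (Λ.filter (· < ℓ)).card

theorem rk_lt {ℓ ℓ' : ℕ} (h : ℓ ∈ Λ) (h' : ℓ < ℓ') : rk Λ ℓ < rk Λ ℓ' := by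
  unfold rk
  apply Finset.card_lt_card
  rw [Finset.ssubset_iff_of_subset]
  · exact ⟨ℓ, by simp [h, h'], by simp⟩
  · intro x hx
    simp only [Finset.mem_filter] at hx ⊢
    exact ⟨hx.1, by omega⟩

theorem rk_le (ℓ : ℕ) : rk Λ ℓ ≤ Λ.card := Finset.card_le_card (Finset.filter_subset _ _)

variable (hΛ : ∀ A y, Ctx g w₀ [Symbol.nonterminal A] y →
  g.Derives [Symbol.nonterminal A] (y.map Symbol.terminal) → y.length ∈ Λ)

include hΛ

theorem formA (n' ℓ : ℕ)
    (IH : ∀ n ≤ n', ∀ k A y, DN g k n [Symbol.nonterminal A] y →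
      Ctx g w₀ [Symbol.nonterminal A] y → y.length ≤ F c k (rk Λ y.length))
    (k : ℕ) (α : List (Symbol T g.NT)) : ∀ (n : ℕ) (y : List T), n ≤ n' → DN g k n α y →
      Ctx g w₀ α y →
      (∃ B y₂ n₂, n₂ ≤ n' ∧ DN g k n₂ [Symbol.nonterminal B] y₂ ∧
        Ctx g w₀ [Symbol.nonterminal B] y₂ ∧ ℓ ≤ y₂.length ∧ y₂.length ≤ y.length) ∨
      y.length ≤ α.length * (1 + Fb c k (rk Λ ℓ)) := by
  induction α with
  | nil =>
    intro n y hn h hc
    right
    obtain ⟨_, rfl⟩ := DN.of_terminal (g := g) (a := []) h
    simp
  | cons s α ih =>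
    intro n y hn h hc
    obtain ⟨n₁, n₂, u, v, h1, rfl, hu, hv, _⟩ := h.split [s] α rfl
    have hcr : Ctx g w₀ α v := Ctx.right (α := [s]) (β := α) hc hu.derives
    have hcl : Ctx g w₀ [s] u := Ctx.left (α := [s]) (β := α) hc hv.derives
    rcases ih n₂ v (by omega) hv hcr with ⟨B, y₂, n₃, h2, h3, h4, h5, h6⟩ | h2
    · left
      exact ⟨B, y₂, n₃, h2, h3, h4, h5, by rw [List.length_append]; omega⟩
    · cases s with
      | terminal t =>
        right
        obtain ⟨_, rfl⟩ := DN.of_terminal (g := g) (a := [t]) hu
        rw [List.length_append, List.length_cons, List.length_cons, List.length_nil]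
        nlinarith [Nat.zero_le (Fb c k (rk Λ ℓ))]
      | nonterminal A =>
        by_cases hℓ : ℓ ≤ u.length
        · left
          exact ⟨A, u, n₁, by omega, hu, hcl, hℓ, by rw [List.length_append]; omega⟩
        · right
          have h3 := IH n₁ (by omega) k A u hu hcl
          have h4 : u.length ∈ Λ := hΛ A u hcl hu.derives
          have h5 := le_Fb (c := c) (k := k) (rk_lt Λ h4 (not_le.1 hℓ))
          rw [List.length_append, List.length_cons]
          nlinarith [Nat.zero_le (Fb c k (rk Λ ℓ))]

theorem formB (n' ℓ : ℕ)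
    (IH : ∀ n ≤ n', ∀ k A y, DN g k n [Symbol.nonterminal A] y →
      Ctx g w₀ [Symbol.nonterminal A] y → y.length ≤ F c k (rk Λ y.length))
    (k : ℕ) (α : List (Symbol T g.NT)) : ∀ (n : ℕ) (y : List T), n ≤ n' → DN g k n α y →
      Ctx g w₀ α y →
      (∃ B y₂ n₂, n₂ ≤ n' ∧ DN g k n₂ [Symbol.nonterminal B] y₂ ∧
        Ctx g w₀ [Symbol.nonterminal B] y₂ ∧ ℓ ≤ y₂.length ∧ y₂.length ≤ y.length) ∨
      y.length ≤ Fb c k (rk Λ ℓ) + α.length * (1 + Fb c (k - 1) (rk Λ ℓ)) := by
  induction α with
  | nil =>
    intro n y hn h hc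
    right
    obtain ⟨_, rfl⟩ := DN.of_terminal (g := g) (a := []) h
    simp
  | cons s α ih =>
    intro n y hn h hc
    obtain ⟨n₁, n₂, u, v, h1, rfl, hu, hv, hor⟩ := h.split [s] α rfl
    have hcr : Ctx g w₀ α v := Ctx.right (α := [s]) (β := α) hc hu.derives
    have hcl : Ctx g w₀ [s] u := Ctx.left (α := [s]) (β := α) hc hv.derives
    cases s with
    | terminal t =>
      rcases ih n₂ v (by omega) hv hcr with ⟨B, y₂, n₃, h2, h3, h4, h5, h6⟩ | h2
      · left
        exact ⟨B, y₂, n₃, h2, h3, h4, h5, by rw [List.length_append]; omega⟩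
      · right
        obtain ⟨_, rfl⟩ := DN.of_terminal (g := g) (a := [t]) hu
        rw [List.length_append, List.length_cons, List.length_cons, List.length_nil]
        nlinarith [Nat.zero_le (Fb c (k - 1) (rk Λ ℓ))]
    | nonterminal A =>
      by_cases hℓ : ℓ ≤ u.length
      · left
        exact ⟨A, u, n₁, by omega, hu, hcl, hℓ, by rw [List.length_append]; omega⟩
      · have h4 : u.length ∈ Λ := hΛ A u hcl hu.derives
        have h7 := rk_lt Λ h4 (not_le.1 hℓ)
        rcases hor with hor | hor
        · -- the first part has smaller index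
          rcases ih n₂ v (by omega) hv hcr with ⟨B, y₂, n₃, h2, h3, h4, h5, h6⟩ | h2
          · left
            exact ⟨B, y₂, n₃, h2, h3, h4, h5, by rw [List.length_append]; omega⟩
          · right
            have h3 := IH n₁ (by omega) (k - 1) A u hor hcl
            have h5 := le_Fb (c := c) (k := k - 1) h7
            rw [List.length_append, List.length_cons]
            nlinarith [Nat.zero_le (Fb c (k - 1) (rk Λ ℓ))]
        · -- the second part has smaller index
          rcases formA g w₀ c Λ hΛ n' ℓ IH (k - 1) α n₂ v (by omega) hor hcr with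
            ⟨B, y₂, n₃, h2, h3, h4, h5, h6⟩ | h2
          · left
            exact ⟨B, y₂, n₃, h2, h3.mono (Nat.sub_le _ _), h4, h5,
              by rw [List.length_append]; omega⟩
          · right
            have h3 := IH n₁ (by omega) k A u hu hcl
            have h5 := le_Fb (c := c) (k := k) h7
            rw [List.length_append, List.length_cons]
            nlinarith [Nat.zero_le (Fb c (k - 1) (rk Λ ℓ))]

variable (hc : ∀ r ∈ g.rules, r.output.length ≤ c)

include hc

/-- In a derivation of index `k` the yields are bounded polynomially in the number of distinct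
yield lengths. -/
theorem bound (n : ℕ) : ∀ k A y, DN g k n [Symbol.nonterminal A] y →
    Ctx g w₀ [Symbol.nonterminal A] y → y.length ≤ F c k (rk Λ y.length) := by
  induction n using Nat.strong_induction_on with
  | _ n IH =>
    intro k A y h hctx
    generalize hα : ([Symbol.nonterminal A] : List (Symbol T g.NT)) = α at h
    cases h with
    | done =>
      exfalso
      cases y with
      | nil => simp at hα
      | cons t y => simp at hα
    | @step n u v w h1 h2 h3 =>
      subst hα
      obtain ⟨r, hr, hrw⟩ := h1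
      obtain ⟨p, q, h4, h5⟩ := hrw.exists_parts
      have hp : p = [] ∧ q = [] ∧ A = r.input := by
        have h6 := congrArg List.length h4
        simp only [List.length_append, List.length_cons, List.length_nil] at h6
        have hp : p = [] := List.eq_nil_of_length_eq_zero (by omega)
        have hq : q = [] := List.eq_nil_of_length_eq_zero (by omega)
        subst hp hq
        simpa using h4
      obtain ⟨rfl, rfl, rfl⟩ := hp
      have hv : v = r.output := by simpa using h5
      subst hv
      have hk : 1 ≤ k := by simpa using h2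
      have hctx' : Ctx g w₀ r.output y := by
        obtain ⟨u, z, h6, h7⟩ := hctx
        refine ⟨u, z, h6.trans ?_, h7⟩
        have h8 : g.Produces [Symbol.nonterminal r.input] r.output :=
          ⟨r, hr, ContextFreeRule.Rewrites.input_output⟩
        exact (h8.single.append_right _).append_left _
      obtain ⟨k, rfl⟩ : ∃ k', k = k' + 1 := ⟨k - 1, by omega⟩
      rcases formB g w₀ c Λ hΛ n y.length (fun m hm => IH m (by omega)) (k + 1) r.output n y
        le_rfl h3 hctx' with ⟨B, y₂, n₂, h6, h7, h8, h9, h10⟩ | h6
      · have h11 : y.length = y₂.length := le_antisymm h9 h10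
        rw [h11]
        exact IH n₂ (by omega) (k + 1) B y₂ h7 h8
      · refine h6.trans ?_
        have h7 := hc r hr
        rw [Nat.add_sub_cancel]
        unfold Fb
        split_ifs with h8
        · rw [h8]
          have := F_zero c k
          nlinarith
        · obtain ⟨m, hm⟩ : ∃ m, rk Λ y.length = m + 1 := ⟨rk Λ y.length - 1, by omega⟩
          rw [hm, Nat.add_sub_cancel]
          have h9 := F_succ c k m
          have h10 : r.output.length * (1 + F c k m) ≤ c * (1 + F c k m) :=
            Nat.mul_le_mul_right _ h7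
          omega

end bound

end Pool.Agent.Helper79.FI
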