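import Pool.Agent.Helper79.Pump

set_option autoImplicit false

namespace Pool.Agent.Helper79.Fliess

open Pool.Agent.Helper79.CFG

/-- Three different letters occur equally often. -/
def Bad (w : List (Fin 4)) : Prop :=
  ∃ i j k : Fin 4, i ≠ j ∧ i ≠ k ∧ j ≠ k ∧ w.count i = w.count j ∧ w.count j = w.count k

/-- The automaton of `0* 2* 3* 2* 1*` (state 5 is the dead state). -/
def step : Fin 6 → Fin 4 → Fin 6
  | 0, 0 => 0
  | 0, 2 => 1
  | 0, 3 => 2
  | 0, 1 => 4
  | 1, 2 => 1
  | 1, 3 => 2
  | 1, 1 => 4
  | 2, 3 => 2
  | 2, 2 => 3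
  | 2, 1 => 4
  | 3, 2 => 3
  | 3, 1 => 4
  | 4, 1 => 4
  | _, _ => 5

/-- The letter read in each block. -/
def ltr : Fin 6 → Fin 4
  | 0 => 0
  | 1 => 2
  | 2 => 3
  | 3 => 2
  | 4 => 1
  | 5 => 0

def wt (j : Fin 6) (p : Fin 6) (t : Fin 4) : ℕ := if step p t = j then 1 else 0

theorem wt_le (j p : Fin 6) (t : Fin 4) : wt j p t ≤ 1 := by
  unfold wt; split_ifs <;> simp

theorem le_step : ∀ (p : Fin 6) (t : Fin 4), p ≤ step p t := by decide

theorem ltr_of_step : ∀ (p : Fin 6) (t : Fin 4), step p t ≠ 5 → t = ltr (step p t) := by decide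

theorem le_run (p : Fin 6) (w : List (Fin 4)) : p ≤ run step p w := by
  induction w generalizing p with
  | nil => exact le_refl _
  | cons t w ih => exact (le_step p t).trans (ih _)

theorem wsum_eq_zero_of_gt (j p : Fin 6) (w : List (Fin 4)) (h : run step p w < j) :
    wsum step (wt j) p w = 0 := by
  induction w generalizing p with
  | nil => rfl
  | cons t w ih =>
    rw [run_cons] at h
    have h2 := (le_run (step p t) w).trans_lt h
    simp only [wsum_cons, wt, ih _ h, if_neg h2.ne]

theorem wsum_eq_zero_of_lt (j p : Fin 6) (w : List (Fin 4)) (h : j < p) :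
    wsum step (wt j) p w = 0 := by
  induction w generalizing p with
  | nil => rfl
  | cons t w ih =>
    have h2 := h.trans_le (le_step p t)
    simp only [wsum_cons, wt, ih _ h2, if_neg h2.ne']

theorem loop_eq (p : Fin 6) (hp : p ≠ 5) (v : List (Fin 4)) (h : run step p v = p) :
    v = List.replicate v.length (ltr p) := by
  induction v with
  | nil => rfl
  | cons t v ih =>
    rw [run_cons] at h
    have h1 : step p t = p := by
      have h2 := le_run (step p t) v
      rw [h] at h2
      exact le_antisymm h2 (le_step p t)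
    rw [h1] at h
    have h3 : t = ltr p := by
      have := ltr_of_step p t (by rw [h1]; exact hp)
      rw [h1] at this; exact this
    rw [List.length_cons, List.replicate_succ, ← ih h, ← h3]

theorem wsum_replicate (j p q : Fin 6) (t : Fin 4) (h1 : step p t = q) (h2 : step q t = q) (k : ℕ) :
    run step p (List.replicate (k+1) t) = q ∧
    wsum step (wt j) p (List.replicate (k+1) t) = if q = j then k + 1 else 0 := by
  induction k generalizing p with
  | zero => simp [h1, wt]
  | succ k ih =>
    have := ih q h2
    rw [List.replicate_succ, run_cons, wsum_cons, h1]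
    refine ⟨this.1, ?_⟩
    rw [this.2, wt, h1]
    split_ifs <;> omega

theorem wsum_loop (j p : Fin 6) (hp : p ≠ 5) (v : List (Fin 4)) (h : run step p v = p) :
    wsum step (wt j) p v = if p = j then v.length else 0 := by
  have h1 := loop_eq p hp v h
  cases v with
  | nil => simp
  | cons t v =>
    have ht : t = ltr p := by
      rw [List.length_cons, List.replicate_succ] at h1
      simpa using (List.cons.inj h1).1
    have h2 : step p t = p := by
      rw [run_cons] at h
      have h2 := le_run (step p t) v
      rw [h] at h2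
      exact le_antisymm h2 (le_step p t)
    rw [h1, List.length_cons, ← ht]
    simpa using (wsum_replicate j p p t h2 h2 v.length).2

/-- The word to be pumped. -/
def w₀ (s N : ℕ) : List (Fin 4) :=
  List.replicate (s+1) 0 ++ List.replicate (N+1) 2 ++ List.replicate (2*N+1+1) 3 ++
    List.replicate (N+1) 2 ++ List.replicate (s+1) 1

theorem run_w₀ (s N : ℕ) : run step 0 (w₀ s N) = 4 := by
  have a1 := (wsum_replicate 0 0 0 0 rfl rfl s).1
  have a2 := (wsum_replicate 0 0 1 2 rfl rfl N).1
  have a3 := (wsum_replicate 0 1 2 3 rfl rfl (2*N+1)).1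
  have a4 := (wsum_replicate 0 2 3 2 rfl rfl N).1
  have a5 := (wsum_replicate 0 3 4 1 rfl rfl s).1
  simp only [w₀, run_append, a1, a2, a3, a4, a5]

theorem wsum_w₀ (j : Fin 6) (s N : ℕ) : wsum step (wt j) 0 (w₀ s N) =
    (if (0 : Fin 6) = j then s+1 else 0) + (if (1 : Fin 6) = j then N+1 else 0) +
    (if (2 : Fin 6) = j then 2*N+1+1 else 0) + (if (3 : Fin 6) = j then N+1 else 0) +
    (if (4 : Fin 6) = j then s+1 else 0) := by
  have a1 := (wsum_replicate j 0 0 0 rfl rfl s)
  have a2 := (wsum_replicate j 0 1 2 rfl rfl N)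
  have a3 := (wsum_replicate j 1 2 3 rfl rfl (2*N+1))
  have a4 := (wsum_replicate j 2 3 2 rfl rfl N)
  have a5 := (wsum_replicate j 3 4 1 rfl rfl s)
  simp only [w₀, run_append, wsum_append, a1.1, a2.1, a3.1, a4.1, a1.2, a2.2, a3.2, a4.2, a5.2]

theorem count_w₀ (c : Fin 4) (s N : ℕ) : (w₀ s N).count c =
    (if (0 : Fin 4) = c then s+1 else 0) + (if (2 : Fin 4) = c then N+1 else 0) +
    (if (3 : Fin 4) = c then 2*N+1+1 else 0) + (if (2 : Fin 4) = c then N+1 else 0) +
    (if (1 : Fin 4) = c then s+1 else 0) := by
  simp only [w₀, List.count_append, List.count_replicate, beq_iff_eq]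

theorem count_flatten_replicate (c : Fin 4) (i : ℕ) (v : List (Fin 4)) :
    ((List.replicate i v).flatten).count c = i * v.count c := by
  induction i with
  | zero => simp
  | succ i ih => rw [List.replicate_succ, List.flatten_cons, List.count_append, ih]; ring

/-- The counts that can be produced with a pump. -/
theorem pump_mem {g : ContextFreeGrammar (Fin 4)} {A B : g.NT} {u v x z : List (Fin 4)}
    (h1 : g.Derives [Symbol.nonterminal A]
      (u.map Symbol.terminal ++ [Symbol.nonterminal B] ++ z.map Symbol.terminal))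
    (h2 : g.Derives [Symbol.nonterminal B]
      (v.map Symbol.terminal ++ [Symbol.nonterminal B] ++ x.map Symbol.terminal))
    (y' : List (Fin 4)) (h3 : g.Derives [Symbol.nonterminal B] (y'.map Symbol.terminal)) (i : ℕ) :
    ∃ w : List (Fin 4), g.Derives [Symbol.nonterminal A] (w.map Symbol.terminal) ∧
      ∀ c, w.count c = u.count c + z.count c + i * (v.count c + x.count c) + y'.count c := by
  refine ⟨u ++ (List.replicate i v).flatten ++ y' ++ (List.replicate i x).flatten ++ z, ?_, ?_⟩
  · have h4 := derives_iterate h2 i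
    have h5 : g.Derives ([Symbol.nonterminal B] : List (Symbol (Fin 4) g.NT))
        (((List.replicate i v).flatten).map Symbol.terminal ++ y'.map Symbol.terminal ++
        ((List.replicate i x).flatten).map Symbol.terminal) :=
      h4.trans ((h3.append_left _).append_right _)
    have h6 := h1.trans ((h5.append_left (u.map Symbol.terminal)).append_right (z.map Symbol.terminal))
    simpa [List.map_append, List.append_assoc] using h6
  · intro c
    simp only [List.count_append, count_flatten_replicate]
    ring

end Pool.Agent.Helper79.Fliess
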