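import Pool.Agent.Helper79.Fliess

set_option autoImplicit false

namespace Pool.Agent.Helper79.Fliess

open Pool.Agent.Helper79.CFG

theorem count_loop (p : Fin 6) (hp : p ≠ 5) (v : List (Fin 4)) (h : run step p v = p) (c : Fin 4) :
    v.count c = if ltr p = c then v.length else 0 := by
  conv_lhs => rw [loop_eq p hp v h]
  simp only [List.count_replicate, beq_iff_eq]

set_option maxHeartbeats 2000000 in
theorem not_contextFree (g : ContextFreeGrammar (Fin 4))
    (hg : ∀ w, w ∈ g.language ↔ ¬ Bad w) : False := by
  obtain ⟨N, hN⟩ := pumping g step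
  set M : ℕ := 2 * N + 2 with hM
  -- s + 1 = M + M!
  obtain ⟨s, hs⟩ : ∃ s, s + 1 = M + M.factorial := ⟨M + M.factorial - 1, by omega⟩
  have hfac : 0 < M.factorial := Nat.factorial_pos _
  have hc0 : (w₀ s N).count 0 = M + M.factorial := by rw [count_w₀]; simp [hs]
  have hc1 : (w₀ s N).count 1 = M + M.factorial := by rw [count_w₀]; simp [hs]
  have hc2 : (w₀ s N).count 2 = M := by rw [count_w₀]; simp; omega
  have hc3 : (w₀ s N).count 3 = M := by rw [count_w₀]; simp; omega
  have hw₀ : ¬ Bad (w₀ s N) := by
    rintro ⟨i, j, k, hij, hik, hjk, h1, h2⟩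
    fin_cases i <;> fin_cases j <;> fin_cases k <;>
      simp only [Fin.zero_eta, Fin.mk_one, Fin.reduceFinMk, ne_eq, not_true_eq_false, hc0, hc1, hc2, hc3] at hij hik hjk h1 h2 <;>
      omega
  have hbad : ∀ (w : List (Fin 4)),
      g.Derives [Symbol.nonterminal g.initial] (w.map Symbol.terminal) → ¬ Bad w :=
    fun w hw => (hg w).1 hw
  have hder : g.Derives [Symbol.nonterminal g.initial] ((w₀ s N).map Symbol.terminal) :=
    (hg _).2 hw₀
  have hW2 : N ≤ wsum step (wt 2) 0 (w₀ s N) := by
    rw [wsum_w₀]; simp; omega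
  obtain ⟨B, a, b, u, v, y, x, z, hw, h1, h2, h3, hu, hv, hy, hx, hz, hpos⟩ :=
    hN (wt 2) (wt_le 2) g.initial 0 (w₀ s N) hder hW2
  rw [run_w₀] at hz
  have hab : a ≤ b := by rw [← hy]; exact le_run _ _
  have hb4 : b ≤ 4 := by rw [← hz]; exact le_run _ _
  have hb5 : b ≠ 5 := by rintro rfl; revert hb4; decide
  have ha5 : a ≠ 5 := by rintro rfl; exact absurd (hab.trans hb4) (by decide)
  have cv := count_loop a ha5 v hv
  have cx := count_loop b hb5 x hx
  rw [wsum_loop 2 a ha5 v hv, wsum_loop 2 b hb5 x hx] at hpos
  -- total counts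
  have hcnt : ∀ c, (w₀ s N).count c = u.count c + v.count c + y.count c + x.count c + z.count c := by
    intro c; rw [hw]; simp only [List.count_append]
  have t0 := hcnt 0
  have t1 := hcnt 1
  have t2 := hcnt 2
  have t3 := hcnt 3
  rw [hc0] at t0
  rw [hc1] at t1
  rw [hc2] at t2
  rw [hc3] at t3
  -- amount of letter 3 pumped
  set d : ℕ := v.count 3 + x.count 3 with hd
  have hd0 : 0 < d := by
    rw [hd, cv, cx]
    by_cases e1 : a = 2
    · subst e1
      by_cases e2 : b = 2
      · subst e2; simpa [ltr] using hpos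
      · simp only [if_neg e2, if_true, add_zero] at hpos
        simp only [ltr, if_true]; omega
    · simp only [if_neg e1, zero_add] at hpos
      by_cases e2 : b = 2
      · subst e2; simp only [if_true] at hpos; simp only [ltr, if_true]; omega
      · simp [if_neg e2] at hpos
  have hdM : d ≤ M := by
    have := hcnt 3
    omega
  have hddvd : d ∣ M.factorial := Nat.dvd_factorial hd0 hdM
  obtain ⟨i₀, hi₀⟩ := hddvd
  have hyder0 : g.Derives [Symbol.nonterminal B] ((v ++ y ++ x).map Symbol.terminal) := by
    have := h2.trans ((h3.append_left (v.map Symbol.terminal)).append_right (x.map Symbol.terminal))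
    simpa using this
  -- derive the pumped words
  by_cases c0 : v.count 0 + x.count 0 = 0
  · by_cases c1 : v.count 1 + x.count 1 = 0
    · -- neither 0 nor 1 pumped
      obtain ⟨w, hwd, hwcnt⟩ := pump_mem h1 h2 (v ++ y ++ x) hyder0 i₀
      apply hbad w hwd
      refine ⟨0, 1, 3, by decide, by decide, by decide, ?_, ?_⟩
      · have e0 := hwcnt 0
        have e1 := hwcnt 1
        simp only [List.count_append, c0, c1, mul_zero] at e0 e1
        omega
      · have e1 := hwcnt 1
        have e3 := hwcnt 3
        rw [← hd, Nat.mul_comm i₀ d, ← hi₀] at e3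
        simp only [List.count_append, c1, mul_zero] at e1 e3
        omega
    · -- letter 1 is pumped together with letter 3: a = 2, b = 4
      have hab' : a = 2 ∧ b = 4 := by
        rw [cv, cx] at c1
        rw [cv, cx] at hd
        rw [hd] at hd0
        revert c1 hd0 ha5 hb5 hab
        generalize v.length = V
        generalize x.length = X
        fin_cases a <;> fin_cases b <;> simp [ltr]
      obtain ⟨rfl, rfl⟩ := hab'
      have hV : v.count 3 = v.length := by rw [cv]; simp [ltr]
      have hX3 : x.count 3 = 0 := by rw [cx]; simp [ltr]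
      have hW3 : N ≤ wsum step (wt 3) 2 y := by
        have e1 := wsum_w₀ 3 s N
        rw [hw] at e1
        simp only [wsum_append, run_append, hu, hv, hy, hx] at e1
        rw [wsum_eq_zero_of_gt 3 0 u (by rw [hu]; decide), wsum_loop 3 2 (by decide) v hv,
          wsum_loop 3 4 (by decide) x hx, wsum_eq_zero_of_lt 3 4 z (by decide)] at e1
        simp at e1
        omega
      obtain ⟨B', a', b', u', v', y', x', z', hw', k1, k2, k3, hu', hv', hy', hx', hz', hpos'⟩ :=
        hN (wt 3) (wt_le 3) B 2 y h3 hW3
      rw [hy] at hz'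
      have hab2 : a' ≤ b' := by rw [← hy']; exact le_run _ _
      have ha2 : 2 ≤ a' := by rw [← hu']; exact le_run _ _
      have hb4' : b' ≤ 4 := by rw [← hz']; exact le_run _ _
      have hb5' : b' ≠ 5 := by rintro rfl; revert hb4'; decide
      have ha5' : a' ≠ 5 := by rintro rfl; exact absurd (hab2.trans hb4') (by decide)
      have cv' := count_loop a' ha5' v' hv'
      have cx' := count_loop b' hb5' x' hx'
      rw [wsum_loop 3 a' ha5' v' hv', wsum_loop 3 b' hb5' x' hx'] at hpos'
      have hcnt' : ∀ c, y.count c = u'.count c + v'.count c + y'.count c + x'.count c + z'.count c := by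
        intro c; rw [hw']; simp only [List.count_append]
      have t0' := hcnt' 0
      have t1' := hcnt' 1
      have t2' := hcnt' 2
      have t3' := hcnt' 3
      set e : ℕ := v'.count 2 + x'.count 2 with he
      have he0 : 0 < e ∧ v'.count 0 + x'.count 0 = 0 ∧
          (v'.count 1 + x'.count 1 = 0 ∨ v'.count 3 + x'.count 3 = 0) := by
        rw [he, cv', cx', cv', cx', cv', cx', cv', cx']
        revert hpos' ha5' hb5' hab2 ha2
        generalize v'.length = V
        generalize x'.length = X
        fin_cases a' <;> fin_cases b' <;> simp [ltr] <;> omega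
      obtain ⟨he0, hz0, hor⟩ := he0
      have heM : e ≤ M := by
        have f1 := hcnt 2
        have f2 := hcnt' 2
        omega
      obtain ⟨j₀, hj₀⟩ := Nat.dvd_factorial he0 heM
      have hyder1 : g.Derives [Symbol.nonterminal B'] ((v' ++ y' ++ x').map Symbol.terminal) := by
        have := k2.trans ((k3.append_left (v'.map Symbol.terminal)).append_right (x'.map Symbol.terminal))
        simpa using this
      obtain ⟨y2, hy2d, hy2c⟩ := pump_mem k1 k2 (v' ++ y' ++ x') hyder1 j₀
      have hyder2 : g.Derives [Symbol.nonterminal B] ((v ++ y2 ++ x).map Symbol.terminal) := by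
        have := h2.trans ((hy2d.append_left (v.map Symbol.terminal)).append_right (x.map Symbol.terminal))
        simpa using this
      have cx0 : x.count 0 = 0 := by omega
      have cv0 : v.count 0 = 0 := by omega
      have cv2 : v.count 2 = 0 := by rw [cv]; simp [ltr]
      have cx2 : x.count 2 = 0 := by rw [cx]; simp [ltr]
      have g0 := hy2c 0
      have g1 := hy2c 1
      have g2 := hy2c 2
      have g3 := hy2c 3
      rw [hz0, mul_zero] at g0
      rw [← he, Nat.mul_comm j₀ e, ← hj₀] at g2
      simp only [List.count_append] at g0 g1 g2 g3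
      rcases hor with hor | hor
      · -- only the inner pump
        obtain ⟨w, hwd, hwcnt⟩ := pump_mem h1 h2 (v ++ y2 ++ x) hyder2 0
        rw [hor, mul_zero] at g1
        apply hbad w hwd
        have e0 := hwcnt 0
        have e1 := hwcnt 1
        have e2 := hwcnt 2
        simp only [List.count_append, zero_mul] at e0 e1 e2
        refine ⟨0, 1, 2, by decide, by decide, by decide, ?_, ?_⟩ <;> omega
      · obtain ⟨w, hwd, hwcnt⟩ := pump_mem h1 h2 (v ++ y2 ++ x) hyder2 i₀
        rw [hor, mul_zero] at g3
        apply hbad w hwd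
        have e0 := hwcnt 0
        have e2 := hwcnt 2
        have e3 := hwcnt 3
        rw [c0, mul_zero] at e0
        rw [cv2, cx2] at e2
        rw [← hd, Nat.mul_comm i₀ d, ← hi₀] at e3
        simp only [List.count_append, add_zero, mul_zero] at e0 e2 e3
        refine ⟨0, 2, 3, by decide, by decide, by decide, ?_, ?_⟩ <;> omega
  · -- letter 0 is pumped together with letter 3: a = 0, b = 2
    have hab' : a = 0 ∧ b = 2 := by
      rw [cv, cx] at c0
      rw [cv, cx] at hd
      rw [hd] at hd0
      revert c0 hd0 ha5 hb5 hab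
      generalize v.length = V
      generalize x.length = X
      fin_cases a <;> fin_cases b <;> simp [ltr]
    obtain ⟨rfl, rfl⟩ := hab'
    have c1 : v.count 1 + x.count 1 = 0 := by rw [cv, cx]; simp [ltr]
    have hW1 : N ≤ wsum step (wt 1) 0 y := by
      have e1 := wsum_w₀ 1 s N
      rw [hw] at e1
      simp only [wsum_append, run_append, hu, hv, hy, hx] at e1
      rw [wsum_eq_zero_of_gt 1 0 u (by rw [hu]; decide), wsum_loop 1 0 (by decide) v hv,
        wsum_loop 1 2 (by decide) x hx, wsum_eq_zero_of_lt 1 2 z (by decide)] at e1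
      simp at e1
      omega
    obtain ⟨B', a', b', u', v', y', x', z', hw', k1, k2, k3, hu', hv', hy', hx', hz', hpos'⟩ :=
      hN (wt 1) (wt_le 1) B 0 y h3 hW1
    rw [hy] at hz'
    have hab2 : a' ≤ b' := by rw [← hy']; exact le_run _ _
    have hb4' : b' ≤ 2 := by rw [← hz']; exact le_run _ _
    have hb5' : b' ≠ 5 := by rintro rfl; revert hb4'; decide
    have ha5' : a' ≠ 5 := by rintro rfl; exact absurd (hab2.trans hb4') (by decide)
    have cv' := count_loop a' ha5' v' hv'
    have cx' := count_loop b' hb5' x' hx'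
    rw [wsum_loop 1 a' ha5' v' hv', wsum_loop 1 b' hb5' x' hx'] at hpos'
    have hcnt' : ∀ c, y.count c = u'.count c + v'.count c + y'.count c + x'.count c + z'.count c := by
      intro c; rw [hw']; simp only [List.count_append]
    have t0' := hcnt' 0
    have t1' := hcnt' 1
    have t2' := hcnt' 2
    have t3' := hcnt' 3
    set e : ℕ := v'.count 2 + x'.count 2 with he
    have he0 : 0 < e ∧ v'.count 1 + x'.count 1 = 0 ∧
        (v'.count 0 + x'.count 0 = 0 ∨ v'.count 3 + x'.count 3 = 0) := by
      rw [he, cv', cx', cv', cx', cv', cx', cv', cx']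
      revert hpos' ha5' hb5' hab2 hb4'
      generalize v'.length = V
      generalize x'.length = X
      fin_cases a' <;> fin_cases b' <;> simp [ltr] <;> omega
    obtain ⟨he0, hz0, hor⟩ := he0
    have heM : e ≤ M := by
      have f1 := hcnt 2
      have f2 := hcnt' 2
      omega
    obtain ⟨j₀, hj₀⟩ := Nat.dvd_factorial he0 heM
    have hyder1 : g.Derives [Symbol.nonterminal B'] ((v' ++ y' ++ x').map Symbol.terminal) := by
      have := k2.trans ((k3.append_left (v'.map Symbol.terminal)).append_right (x'.map Symbol.terminal))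
      simpa using this
    obtain ⟨y2, hy2d, hy2c⟩ := pump_mem k1 k2 (v' ++ y' ++ x') hyder1 j₀
    have hyder2 : g.Derives [Symbol.nonterminal B] ((v ++ y2 ++ x).map Symbol.terminal) := by
      have := h2.trans ((hy2d.append_left (v.map Symbol.terminal)).append_right (x.map Symbol.terminal))
      simpa using this
    have cv2 : v.count 2 = 0 := by rw [cv]; simp [ltr]
    have cx2 : x.count 2 = 0 := by rw [cx]; simp [ltr]
    have g0 := hy2c 0
    have g1 := hy2c 1
    have g2 := hy2c 2
    have g3 := hy2c 3
    rw [hz0, mul_zero] at g1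
    rw [← he, Nat.mul_comm j₀ e, ← hj₀] at g2
    simp only [List.count_append] at g0 g1 g2 g3
    rcases hor with hor | hor
    · obtain ⟨w, hwd, hwcnt⟩ := pump_mem h1 h2 (v ++ y2 ++ x) hyder2 0
      rw [hor, mul_zero] at g0
      apply hbad w hwd
      have e0 := hwcnt 0
      have e1 := hwcnt 1
      have e2 := hwcnt 2
      simp only [List.count_append, zero_mul] at e0 e1 e2
      refine ⟨0, 1, 2, by decide, by decide, by decide, ?_, ?_⟩ <;> omega
    · obtain ⟨w, hwd, hwcnt⟩ := pump_mem h1 h2 (v ++ y2 ++ x) hyder2 i₀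
      rw [hor, mul_zero] at g3
      apply hbad w hwd
      have e1 := hwcnt 1
      have e2 := hwcnt 2
      have e3 := hwcnt 3
      rw [c1, mul_zero] at e1
      rw [cv2, cx2] at e2
      rw [← hd, Nat.mul_comm i₀ d, ← hi₀] at e3
      simp only [List.count_append, add_zero, mul_zero] at e1 e2 e3
      refine ⟨1, 2, 3, by decide, by decide, by decide, ?_, ?_⟩ <;> omega

end Pool.Agent.Helper79.Fliess
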