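import Pool.Agent.Helper79.CFG

set_option autoImplicit false

namespace Pool.Agent.Helper79.FliessGram

open Pool.Agent.Helper79.CFG

inductive NT
  | S | F | U | V | Y | P | Q | A | B | C | D
  deriving DecidableEq

variable (a b c d : Fin 4)

/-- The rules. -/
def rls : List (ContextFreeRule (Fin 4) NT) :=
  [ ⟨NT.S, [Symbol.nonterminal NT.P, Symbol.nonterminal NT.Q]⟩,
    ⟨NT.S, [Symbol.nonterminal NT.F]⟩,
    ⟨NT.P, [Symbol.terminal a, Symbol.nonterminal NT.P, Symbol.terminal b]⟩,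
    ⟨NT.P, [Symbol.terminal a, Symbol.nonterminal NT.A]⟩,
    ⟨NT.P, [Symbol.terminal b, Symbol.nonterminal NT.B]⟩,
    ⟨NT.A, [Symbol.terminal a, Symbol.nonterminal NT.A]⟩,
    ⟨NT.A, []⟩,
    ⟨NT.B, [Symbol.terminal b, Symbol.nonterminal NT.B]⟩,
    ⟨NT.B, []⟩,
    ⟨NT.Q, [Symbol.terminal c, Symbol.nonterminal NT.Q, Symbol.terminal d]⟩,
    ⟨NT.Q, [Symbol.terminal c, Symbol.nonterminal NT.C]⟩,
    ⟨NT.Q, [Symbol.terminal d, Symbol.nonterminal NT.D]⟩,
    ⟨NT.C, [Symbol.terminal c, Symbol.nonterminal NT.C]⟩,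
    ⟨NT.C, []⟩,
    ⟨NT.D, [Symbol.terminal d, Symbol.nonterminal NT.D]⟩,
    ⟨NT.D, []⟩,
    ⟨NT.F, [Symbol.terminal a, Symbol.nonterminal NT.F, Symbol.terminal d]⟩,
    ⟨NT.F, [Symbol.terminal a, Symbol.nonterminal NT.U]⟩,
    ⟨NT.F, [Symbol.nonterminal NT.V, Symbol.terminal d]⟩,
    ⟨NT.U, [Symbol.terminal a, Symbol.nonterminal NT.U]⟩,
    ⟨NT.U, [Symbol.nonterminal NT.Y]⟩,
    ⟨NT.V, [Symbol.nonterminal NT.V, Symbol.terminal d]⟩,
    ⟨NT.V, [Symbol.nonterminal NT.Y]⟩,
    ⟨NT.Y, [Symbol.terminal b, Symbol.nonterminal NT.Y, Symbol.terminal c]⟩,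
    ⟨NT.Y, [Symbol.terminal b, Symbol.nonterminal NT.B]⟩,
    ⟨NT.Y, [Symbol.terminal c, Symbol.nonterminal NT.C]⟩ ]

/-- The grammar. -/
def g : ContextFreeGrammar (Fin 4) where
  NT := NT
  initial := NT.S
  rules := (rls a b c d).toFinset

theorem mem_rules (r : ContextFreeRule (Fin 4) NT) :
    (show ContextFreeRule (Fin 4) (g a b c d).NT from r) ∈ (g a b c d).rules ↔ r ∈ rls a b c d :=
  List.mem_toFinset (l := rls a b c d)

/-- The languages of the nonterminals. -/
def Sem : NT → Set (List (Fin 4))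
  | NT.A => {w | ∃ i, w = List.replicate i a}
  | NT.B => {w | ∃ i, w = List.replicate i b}
  | NT.C => {w | ∃ i, w = List.replicate i c}
  | NT.D => {w | ∃ i, w = List.replicate i d}
  | NT.P => {w | ∃ i j, i ≠ j ∧ w = List.replicate i a ++ List.replicate j b}
  | NT.Q => {w | ∃ i j, i ≠ j ∧ w = List.replicate i c ++ List.replicate j d}
  | NT.Y => {w | ∃ i j, i ≠ j ∧ w = List.replicate i b ++ List.replicate j c}
  | NT.U => {w | ∃ n i j, i ≠ j ∧ w = List.replicate n a ++ (List.replicate i b ++ List.replicate j c)}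
  | NT.V => {w | ∃ n i j, i ≠ j ∧ w = List.replicate i b ++ List.replicate j c ++ List.replicate n d}
  | NT.F => {w | ∃ n m i j, n ≠ m ∧ i ≠ j ∧
      w = List.replicate n a ++ (List.replicate i b ++ List.replicate j c) ++ List.replicate m d}
  | NT.S => {w | ∃ i j k l, ((i ≠ j ∧ k ≠ l) ∨ (i ≠ l ∧ j ≠ k)) ∧
      w = List.replicate i a ++ List.replicate j b ++ List.replicate k c ++ List.replicate l d}

theorem replicate_snoc (t : Fin 4) (n : ℕ) : List.replicate n t ++ [t] = List.replicate (n+1) t := by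
  rw [List.replicate_succ']

theorem sound : ∀ r ∈ (g a b c d).rules, ∀ w, Comp (Sem a b c d) r.output w → w ∈ Sem a b c d r.input := by
  intro r hr w hw
  change ContextFreeRule (Fin 4) NT at r
  have hr' : r ∈ rls a b c d := (mem_rules a b c d r).1 hr
  clear hr
  simp only [rls, List.mem_cons, List.not_mem_nil, or_false] at hr'
  rcases hr' with rfl | rfl | rfl | rfl | rfl | rfl | rfl | rfl | rfl | rfl | rfl | rfl | rfl | rfl |
    rfl | rfl | rfl | rfl | rfl | rfl | rfl | rfl | rfl | rfl | rfl | rfl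
  · -- S → P Q
    obtain ⟨_, _, rfl, ⟨i, j, hij, rfl⟩, _, _, rfl, ⟨k, l, hkl, rfl⟩, rfl⟩ := hw
    exact ⟨i, j, k, l, Or.inl ⟨hij, hkl⟩, by simp⟩
  · -- S → F
    obtain ⟨_, _, rfl, ⟨n, m, i, j, h1, h2, rfl⟩, rfl⟩ := hw
    exact ⟨n, i, j, m, Or.inr ⟨h1, h2⟩, by simp⟩
  · -- P → a P b
    obtain ⟨_, rfl, _, _, rfl, ⟨i, j, hij, rfl⟩, _, rfl, rfl⟩ := hw
    refine ⟨i+1, j+1, by omega, ?_⟩
    rw [List.replicate_succ, ← replicate_snoc]; simp
  · obtain ⟨_, rfl, _, _, rfl, ⟨i, rfl⟩, rfl⟩ := hw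
    exact ⟨i+1, 0, by omega, by simp [List.replicate_succ]⟩
  · obtain ⟨_, rfl, _, _, rfl, ⟨i, rfl⟩, rfl⟩ := hw
    exact ⟨0, i+1, by omega, by simp [List.replicate_succ]⟩
  · obtain ⟨_, rfl, _, _, rfl, ⟨i, rfl⟩, rfl⟩ := hw
    exact ⟨i+1, by simp [List.replicate_succ]⟩
  · simp only [Comp] at hw; subst hw; exact ⟨0, by simp⟩
  · obtain ⟨_, rfl, _, _, rfl, ⟨i, rfl⟩, rfl⟩ := hw
    exact ⟨i+1, by simp [List.replicate_succ]⟩
  · simp only [Comp] at hw; subst hw; exact ⟨0, by simp⟩
  · obtain ⟨_, rfl, _, _, rfl, ⟨i, j, hij, rfl⟩, _, rfl, rfl⟩ := hw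
    refine ⟨i+1, j+1, by omega, ?_⟩
    rw [List.replicate_succ, ← replicate_snoc]; simp
  · obtain ⟨_, rfl, _, _, rfl, ⟨i, rfl⟩, rfl⟩ := hw
    exact ⟨i+1, 0, by omega, by simp [List.replicate_succ]⟩
  · obtain ⟨_, rfl, _, _, rfl, ⟨i, rfl⟩, rfl⟩ := hw
    exact ⟨0, i+1, by omega, by simp [List.replicate_succ]⟩
  · obtain ⟨_, rfl, _, _, rfl, ⟨i, rfl⟩, rfl⟩ := hw
    exact ⟨i+1, by simp [List.replicate_succ]⟩
  · simp only [Comp] at hw; subst hw; exact ⟨0, by simp⟩
  · obtain ⟨_, rfl, _, _, rfl, ⟨i, rfl⟩, rfl⟩ := hw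
    exact ⟨i+1, by simp [List.replicate_succ]⟩
  · simp only [Comp] at hw; subst hw; exact ⟨0, by simp⟩
  · -- F → a F d
    obtain ⟨_, rfl, _, _, rfl, ⟨n, m, i, j, h1, h2, rfl⟩, _, rfl, rfl⟩ := hw
    refine ⟨n+1, m+1, i, j, by omega, h2, ?_⟩
    rw [List.replicate_succ, ← replicate_snoc]; simp
  · obtain ⟨_, rfl, _, _, rfl, ⟨n, i, j, h2, rfl⟩, rfl⟩ := hw
    exact ⟨n+1, 0, i, j, by omega, h2, by simp [List.replicate_succ]⟩
  · obtain ⟨_, _, rfl, ⟨n, i, j, h2, rfl⟩, _, rfl, rfl⟩ := hw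
    refine ⟨0, n+1, i, j, by omega, h2, ?_⟩
    rw [← replicate_snoc d n]; simp
  · obtain ⟨_, rfl, _, _, rfl, ⟨n, i, j, h2, rfl⟩, rfl⟩ := hw
    exact ⟨n+1, i, j, h2, by simp [List.replicate_succ]⟩
  · obtain ⟨_, _, rfl, ⟨i, j, h2, rfl⟩, rfl⟩ := hw
    exact ⟨0, i, j, h2, by simp⟩
  · obtain ⟨_, _, rfl, ⟨n, i, j, h2, rfl⟩, _, rfl, rfl⟩ := hw
    refine ⟨n+1, i, j, h2, ?_⟩
    rw [← replicate_snoc d n]; simp
  · obtain ⟨_, _, rfl, ⟨i, j, h2, rfl⟩, rfl⟩ := hw
    exact ⟨0, i, j, h2, by simp⟩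
  · obtain ⟨_, rfl, _, _, rfl, ⟨i, j, hij, rfl⟩, _, rfl, rfl⟩ := hw
    refine ⟨i+1, j+1, by omega, ?_⟩
    rw [List.replicate_succ, ← replicate_snoc]; simp
  · obtain ⟨_, rfl, _, _, rfl, ⟨i, rfl⟩, rfl⟩ := hw
    exact ⟨i+1, 0, by omega, by simp [List.replicate_succ]⟩
  · obtain ⟨_, rfl, _, _, rfl, ⟨i, rfl⟩, rfl⟩ := hw
    exact ⟨0, i+1, by omega, by simp [List.replicate_succ]⟩

/-- One rule application. -/
theorem gen_rule (X : NT) (out : List (Symbol (Fin 4) NT))
    (hr : (⟨X, out⟩ : ContextFreeRule (Fin 4) NT) ∈ rls a b c d)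
    (w : List (Fin 4)) (hw : Comp (Gen (g a b c d)) out w) : w ∈ Gen (g a b c d) X :=
  gen_of_rule (g a b c d) ⟨X, out⟩ ((mem_rules a b c d _).2 hr) w hw

theorem complA (i : ℕ) : List.replicate i a ∈ Gen (g a b c d) NT.A := by
  induction i with
  | zero => exact gen_rule a b c d NT.A [] (by simp [rls]) _ (by simp [Comp])
  | succ i ih =>
    exact gen_rule a b c d NT.A [Symbol.terminal a, Symbol.nonterminal NT.A] (by simp [rls]) _
      ⟨_, by simp [List.replicate_succ]; rfl, _, [], by simp, ih, rfl⟩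

theorem complB (i : ℕ) : List.replicate i b ∈ Gen (g a b c d) NT.B := by
  induction i with
  | zero => exact gen_rule a b c d NT.B [] (by simp [rls]) _ (by simp [Comp])
  | succ i ih =>
    exact gen_rule a b c d NT.B [Symbol.terminal b, Symbol.nonterminal NT.B] (by simp [rls]) _
      ⟨_, by simp [List.replicate_succ]; rfl, _, [], by simp, ih, rfl⟩

theorem complC (i : ℕ) : List.replicate i c ∈ Gen (g a b c d) NT.C := by
  induction i with
  | zero => exact gen_rule a b c d NT.C [] (by simp [rls]) _ (by simp [Comp])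
  | succ i ih =>
    exact gen_rule a b c d NT.C [Symbol.terminal c, Symbol.nonterminal NT.C] (by simp [rls]) _
      ⟨_, by simp [List.replicate_succ]; rfl, _, [], by simp, ih, rfl⟩

theorem complD (i : ℕ) : List.replicate i d ∈ Gen (g a b c d) NT.D := by
  induction i with
  | zero => exact gen_rule a b c d NT.D [] (by simp [rls]) _ (by simp [Comp])
  | succ i ih =>
    exact gen_rule a b c d NT.D [Symbol.terminal d, Symbol.nonterminal NT.D] (by simp [rls]) _
      ⟨_, by simp [List.replicate_succ]; rfl, _, [], by simp, ih, rfl⟩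

theorem complP (i j : ℕ) (h : i ≠ j) :
    List.replicate i a ++ List.replicate j b ∈ Gen (g a b c d) NT.P := by
  induction i generalizing j with
  | zero =>
    obtain ⟨j, rfl⟩ : ∃ k, j = k + 1 := ⟨j - 1, by omega⟩
    exact gen_rule a b c d NT.P [Symbol.terminal b, Symbol.nonterminal NT.B] (by simp [rls]) _
      ⟨_, by simp [List.replicate_succ]; rfl, _, [], by simp, complB a b c d j, rfl⟩
  | succ i ih =>
    cases j with
    | zero =>
      exact gen_rule a b c d NT.P [Symbol.terminal a, Symbol.nonterminal NT.A] (by simp [rls]) _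
        ⟨_, by simp [List.replicate_succ]; rfl, _, [], by simp, complA a b c d i, rfl⟩
    | succ j =>
      refine gen_rule a b c d NT.P [Symbol.terminal a, Symbol.nonterminal NT.P, Symbol.terminal b]
        (by simp [rls]) _ ⟨List.replicate i a ++ List.replicate j b ++ [b], ?_, _, [b], rfl,
          ih j (by omega), [], rfl, rfl⟩
      rw [List.replicate_succ, ← replicate_snoc]; simp

theorem complQ (i j : ℕ) (h : i ≠ j) :
    List.replicate i c ++ List.replicate j d ∈ Gen (g a b c d) NT.Q := by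
  induction i generalizing j with
  | zero =>
    obtain ⟨j, rfl⟩ : ∃ k, j = k + 1 := ⟨j - 1, by omega⟩
    exact gen_rule a b c d NT.Q [Symbol.terminal d, Symbol.nonterminal NT.D] (by simp [rls]) _
      ⟨_, by simp [List.replicate_succ]; rfl, _, [], by simp, complD a b c d j, rfl⟩
  | succ i ih =>
    cases j with
    | zero =>
      exact gen_rule a b c d NT.Q [Symbol.terminal c, Symbol.nonterminal NT.C] (by simp [rls]) _
        ⟨_, by simp [List.replicate_succ]; rfl, _, [], by simp, complC a b c d i, rfl⟩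
    | succ j =>
      refine gen_rule a b c d NT.Q [Symbol.terminal c, Symbol.nonterminal NT.Q, Symbol.terminal d]
        (by simp [rls]) _ ⟨List.replicate i c ++ List.replicate j d ++ [d], ?_, _, [d], rfl,
          ih j (by omega), [], rfl, rfl⟩
      rw [List.replicate_succ, ← replicate_snoc]; simp

theorem complY (i j : ℕ) (h : i ≠ j) :
    List.replicate i b ++ List.replicate j c ∈ Gen (g a b c d) NT.Y := by
  induction i generalizing j with
  | zero =>
    obtain ⟨j, rfl⟩ : ∃ k, j = k + 1 := ⟨j - 1, by omega⟩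
    exact gen_rule a b c d NT.Y [Symbol.terminal c, Symbol.nonterminal NT.C] (by simp [rls]) _
      ⟨_, by simp [List.replicate_succ]; rfl, _, [], by simp, complC a b c d j, rfl⟩
  | succ i ih =>
    cases j with
    | zero =>
      exact gen_rule a b c d NT.Y [Symbol.terminal b, Symbol.nonterminal NT.B] (by simp [rls]) _
        ⟨_, by simp [List.replicate_succ]; rfl, _, [], by simp, complB a b c d i, rfl⟩
    | succ j =>
      refine gen_rule a b c d NT.Y [Symbol.terminal b, Symbol.nonterminal NT.Y, Symbol.terminal c]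
        (by simp [rls]) _ ⟨List.replicate i b ++ List.replicate j c ++ [c], ?_, _, [c], rfl,
          ih j (by omega), [], rfl, rfl⟩
      rw [List.replicate_succ, ← replicate_snoc]; simp

theorem complU (n i j : ℕ) (h : i ≠ j) :
    List.replicate n a ++ (List.replicate i b ++ List.replicate j c) ∈ Gen (g a b c d) NT.U := by
  induction n with
  | zero =>
    exact gen_rule a b c d NT.U [Symbol.nonterminal NT.Y] (by simp [rls]) _
      ⟨_, [], by simp, complY a b c d i j h, rfl⟩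
  | succ n ih =>
    exact gen_rule a b c d NT.U [Symbol.terminal a, Symbol.nonterminal NT.U] (by simp [rls]) _
      ⟨_, by simp [List.replicate_succ]; rfl, _, [], by simp, ih, rfl⟩

theorem complV (n i j : ℕ) (h : i ≠ j) :
    List.replicate i b ++ List.replicate j c ++ List.replicate n d ∈ Gen (g a b c d) NT.V := by
  induction n with
  | zero =>
    exact gen_rule a b c d NT.V [Symbol.nonterminal NT.Y] (by simp [rls]) _
      ⟨_, [], by simp, complY a b c d i j h, rfl⟩
  | succ n ih =>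
    refine gen_rule a b c d NT.V [Symbol.nonterminal NT.V, Symbol.terminal d] (by simp [rls]) _
      ⟨_, [d], ?_, ih, [], rfl, rfl⟩
    rw [← replicate_snoc]; simp

theorem complF (n m i j : ℕ) (h1 : n ≠ m) (h : i ≠ j) :
    List.replicate n a ++ (List.replicate i b ++ List.replicate j c) ++ List.replicate m d ∈
      Gen (g a b c d) NT.F := by
  induction n generalizing m with
  | zero =>
    obtain ⟨m, rfl⟩ : ∃ k, m = k + 1 := ⟨m - 1, by omega⟩
    refine gen_rule a b c d NT.F [Symbol.nonterminal NT.V, Symbol.terminal d] (by simp [rls]) _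
      ⟨_, [d], ?_, complV a b c d m i j h, [], rfl, rfl⟩
    rw [← replicate_snoc]; simp
  | succ n ih =>
    cases m with
    | zero =>
      exact gen_rule a b c d NT.F [Symbol.terminal a, Symbol.nonterminal NT.U] (by simp [rls]) _
        ⟨_, by simp [List.replicate_succ]; rfl, _, [], by simp, complU a b c d n i j h, rfl⟩
    | succ m =>
      refine gen_rule a b c d NT.F [Symbol.terminal a, Symbol.nonterminal NT.F, Symbol.terminal d]
        (by simp [rls]) _ ⟨List.replicate n a ++ (List.replicate i b ++ List.replicate j c) ++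
          List.replicate m d ++ [d], ?_, _, [d], rfl, ih m (by omega), [], rfl, rfl⟩
      rw [List.replicate_succ, ← replicate_snoc d m]; simp

theorem lang (w : List (Fin 4)) : w ∈ (g a b c d).language ↔
    ∃ i j k l, ((i ≠ j ∧ k ≠ l) ∨ (i ≠ l ∧ j ≠ k)) ∧
      w = List.replicate i a ++ List.replicate j b ++ List.replicate k c ++ List.replicate l d := by
  refine language_eq (g a b c d) (Sem a b c d) (sound a b c d) ?_ w
  rintro w ⟨i, j, k, l, h | h, rfl⟩
  · refine gen_rule a b c d NT.S [Symbol.nonterminal NT.P, Symbol.nonterminal NT.Q] (by simp [rls]) _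
      ⟨_, List.replicate k c ++ List.replicate l d, ?_, complP a b c d i j h.1, _, [], ?_,
        complQ a b c d k l h.2, rfl⟩
    · simp
    · simp
  · refine gen_rule a b c d NT.S [Symbol.nonterminal NT.F] (by simp [rls]) _
      ⟨_, [], ?_, complF a b c d i l j k h.1 h.2, rfl⟩
    simp

end Pool.Agent.Helper79.FliessGram
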