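import Pool.Agent.Helper79.Comap
import Pool.Agent.Helper79.AbSqGram

set_option autoImplicit false

namespace Pool.Agent.Helper79.LocLin

open Pool.Agent.Helper79.AbSq

/-- `w` is a prefix of the square-free word. -/
def P (w : List (Fin 8)) : Prop := ∃ m, w = pref m

theorem P_take {u v : List (Fin 8)} (h : P (u ++ v)) : u = pref u.length := by
  obtain ⟨m, hm⟩ := h
  have hl : u.length ≤ m := by
    have := congrArg List.length hm
    rw [pref_length] at this
    simp only [List.length_append] at this
    omega
  have h1 := congrArg (List.take u.length) hm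
  rw [pref_take m _ hl, List.take_left' rfl] at h1
  exact h1

theorem no_square {u c v : List (Fin 8)} (hc : c ≠ []) (h : P (u ++ c ++ c ++ v)) : False := by
  obtain ⟨m, hm⟩ := h
  exact pref_free m u c c v hm.symm hc (List.Perm.refl _)

theorem two_prefixes {a c b : List (Fin 8)} (hc : c ≠ []) (hlen : c.length ≤ b.length)
    (h1 : P (a ++ b)) (h2 : P (a ++ c ++ b)) : False := by
  obtain ⟨b₁, b₂, rfl, hb⟩ : ∃ b₁ b₂, b = b₁ ++ b₂ ∧ b₁.length = c.length :=
    ⟨b.take c.length, b.drop c.length, (List.take_append_drop _ _).symm, by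
      rw [List.length_take]; omega⟩
  have e1 : a ++ b₁ = pref (a ++ b₁).length := by
    apply P_take (v := b₂)
    rwa [List.append_assoc]
  have e2 : a ++ c = pref (a ++ c).length := P_take h2
  have e3 : a ++ b₁ = a ++ c := by
    rw [e1, e2]
    congr 1
    simp only [List.length_append, hb]
  have e4 : b₁ = c := List.append_cancel_left e3
  subst e4
  apply no_square (u := a) (v := b₂) hc
  rwa [← List.append_assoc] at h2

section
variable {n : ℕ} (h : Fin n → List (Fin 8)) {σ : Type} [Fintype σ] (M : DFA (Fin n) σ)
  (f : List (Fin n))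

/-- Length of the image of a prefix. -/
def a (s : ℕ) : ℕ := ((f.take s).flatMap h).length

/-- State after a prefix. -/
def st (s : ℕ) : σ := M.eval (f.take s)

theorem split_eq {s t : ℕ} (hst : s ≤ t) :
    f.take s ++ (f.take t).drop s = f.take t := by
  have h1 : f.take s = (f.take t).take s := by rw [List.take_take, min_eq_left hst]
  rw [h1, List.take_append_drop]

theorem a_add {s t : ℕ} (hst : s ≤ t) :
    a h f t = a h f s + (((f.take t).drop s).flatMap h).length := by
  unfold a
  conv_lhs => rw [← split_eq f hst]
  simp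

theorem a_mono {s t : ℕ} (hst : s ≤ t) : a h f s ≤ a h f t := by
  rw [a_add h f hst]; omega

theorem pump_ok (hf : ¬ P (f.flatMap h)) (hfM : f ∈ M.accepts) {s t : ℕ} (hst : s ≤ t)
    (hS : st M f s = st M f t)
    (hor : a h f s = a h f t ∨ ¬ P ((f.take s).flatMap h ++ (f.drop t).flatMap h)) (k : ℕ) :
    ¬ P ((f.take s ++ (List.replicate k ((f.take t).drop s)).flatten ++ f.drop t).flatMap h) ∧
    (f.take s ++ (List.replicate k ((f.take t).drop s)).flatten ++ f.drop t) ∈ M.accepts := by
  set x := f.take s with hx
  set u := (f.take t).drop s with hu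
  set y := f.drop t with hy
  have hfe : f = x ++ u ++ y := by
    rw [hx, hu, hy, split_eq f hst, List.take_append_drop]
  have hxu : x ++ u = f.take t := split_eq f hst
  constructor
  · have hflat : ∀ k : ℕ, ((List.replicate k u).flatten).flatMap h =
        (List.replicate k (u.flatMap h)).flatten := by
      intro k
      induction k with
      | zero => simp
      | succ k ih => simp [List.replicate_succ, ih]
    rw [List.flatMap_append, List.flatMap_append, hflat]
    by_cases hU : u.flatMap h = []
    · rw [hU]
      have : (List.replicate k ([] : List (Fin 8))).flatten = [] := by simp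
      rw [this, List.append_nil]
      rw [hfe] at hf
      simpa [hU] using hf
    · have hor' : ¬ P (x.flatMap h ++ y.flatMap h) := by
        rcases hor with hor | hor
        · exfalso
          rw [a_add h f hst] at hor
          have : (u.flatMap h).length = 0 := by rw [hu]; omega
          exact hU (List.length_eq_zero_iff.1 this)
        · exact hor
      match k with
      | 0 => simpa using hor'
      | 1 =>
        rw [hfe] at hf
        simpa using hf
      | k + 2 =>
        intro hP
        apply no_square (u := x.flatMap h) (v := (List.replicate k (u.flatMap h)).flatten ++ y.flatMap h)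
          hU
        simpa [List.replicate_succ] using hP
  · have e1 : M.evalFrom (st M f s) u = st M f s := by
      conv_rhs => rw [hS]
      unfold st DFA.eval
      rw [← hxu, DFA.evalFrom_of_append]
    have e2 : M.evalFrom (st M f s) ((List.replicate k u).flatten) = st M f s := by
      induction k with
      | zero => simp
      | succ k ih => rw [List.replicate_succ, List.flatten_cons, DFA.evalFrom_of_append, e1, ih]
    rw [DFA.mem_accepts, DFA.eval] at hfM ⊢
    rw [hfe, DFA.evalFrom_of_append, DFA.evalFrom_of_append] at hfM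
    rw [DFA.evalFrom_of_append, DFA.evalFrom_of_append]
    have e3 : M.evalFrom M.start x = st M f s := rfl
    rw [e3] at hfM ⊢
    rw [e2]
    rwa [e1] at hfM

variable {h f}

theorem a_succ {H : ℕ} (hH : ∀ c, (h c).length ≤ H) (s : ℕ) : a h f (s + 1) ≤ a h f s + H := by
  by_cases hs : s < f.length
  · unfold a
    rw [List.take_succ_eq_append_getElem hs]
    simp only [List.flatMap_append, List.length_append]
    have := hH (f[s])
    simp only [List.flatMap_cons, List.flatMap_nil, List.append_nil]
    omega
  · have h1 : f.take (s + 1) = f.take s := by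
      rw [List.take_of_length_le (by omega), List.take_of_length_le (by omega)]
    unfold a
    rw [h1]; omega

/-- Two cuts with the same state and slightly different image lengths. -/
theorem window {H : ℕ} (hH1 : 1 ≤ H) (hH : ∀ c, (h c).length ≤ H) {p q : ℕ} (hpq : p < q)
    (hbig : a h f p + (Fintype.card σ + 2) * H + 1 ≤ a h f q) :
    ∃ s s', p < s ∧ s < s' ∧ s' ≤ q ∧ st M f s = st M f s' ∧ a h f s < a h f s' ∧
      a h f s' ≤ a h f s + (Fintype.card σ + 1) * H := by
  classical
  set k := Fintype.card σ with hk
  have hap : a h f (p + 1) ≤ a h f p + H := a_succ hH p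
  have hex : ∀ r : Fin (k + 1), ∃ c, p + 1 ≤ c ∧ a h f (p + 1) + r.val * H ≤ a h f c := by
    intro r
    refine ⟨q, hpq, ?_⟩
    have hr : r.val * H ≤ k * H := Nat.mul_le_mul_right _ (by omega)
    have : (k + 2) * H = k * H + H + H := by ring
    omega
  let e : Fin (k + 1) → ℕ := fun r => Nat.find (hex r)
  have he1 : ∀ r, p + 1 ≤ e r ∧ a h f (p + 1) + r.val * H ≤ a h f (e r) := fun r => Nat.find_spec (hex r)
  have he2 : ∀ r, e r ≤ q := by
    intro r
    apply Nat.find_min' (hex r)
    refine ⟨hpq, ?_⟩
    have hr : r.val * H ≤ k * H := Nat.mul_le_mul_right _ (by omega)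
    have : (k + 2) * H = k * H + H + H := by ring
    omega
  have he3 : ∀ r, a h f (e r) < a h f (p + 1) + r.val * H + H := by
    intro r
    by_cases hc : e r = p + 1
    · rw [hc]; omega
    · have h1 := (he1 r).1
      obtain ⟨c, hc'⟩ : ∃ c, e r = c + 1 := ⟨e r - 1, by omega⟩
      have h2 : ¬ (p + 1 ≤ c ∧ a h f (p + 1) + r.val * H ≤ a h f c) := by
        apply Nat.find_min (hex r)
        change c < e r
        omega
      have h3 := a_succ (f := f) hH c
      rw [hc']
      have h4 : p + 1 ≤ c := by omega
      have h5 : ¬ (a h f (p + 1) + r.val * H ≤ a h f c) := fun hh => h2 ⟨h4, hh⟩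
      omega
  obtain ⟨r, r', hne, hst⟩ := Fintype.exists_ne_map_eq_of_card_lt (fun r : Fin (k+1) => st M f (e r))
    (by rw [Fintype.card_fin]; omega)
  have key : ∀ r r' : Fin (k + 1), r < r' → st M f (e r) = st M f (e r') →
      ∃ s s', p < s ∧ s < s' ∧ s' ≤ q ∧ st M f s = st M f s' ∧ a h f s < a h f s' ∧
      a h f s' ≤ a h f s + (k + 1) * H := by
    intro r r' hlt hs
    have h1 : (r.val + 1) * H ≤ r'.val * H := Nat.mul_le_mul_right _ (by omega)
    have h2 : (r.val + 1) * H = r.val * H + H := by ring
    have h3 : r'.val * H ≤ k * H := Nat.mul_le_mul_right _ (by omega)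
    have h4 : (k + 1) * H = k * H + H := by ring
    have h5 := he3 r
    have h6 := (he1 r').2
    have h7 : a h f (e r) < a h f (e r') := by omega
    have h8 := he3 r'
    have h9 := (he1 r).2
    refine ⟨e r, e r', (he1 r).1, ?_, he2 r', hs, h7, by omega⟩
    by_contra hcon
    have := a_mono h f (not_lt.1 hcon)
    omega
  rcases lt_or_gt_of_ne hne with hlt | hlt
  · exact key r r' hlt hst
  · exact key r' r hlt hst.symm

end

/-- The marks of a finset in increasing order. -/
theorem exists_marks (Mk : Finset ℕ) (N : ℕ) (hN : N ≤ Mk.card) :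
    ∃ m : ℕ → ℕ, StrictMono m ∧ ∀ i < N, m i ∈ Mk := by
  classical
  let b := Mk.sup id + 1
  refine ⟨fun i => if hi : i < Mk.card then Mk.orderEmbOfFin rfl ⟨i, hi⟩ else b + i, ?_, ?_⟩
  · intro i j hij
    by_cases hj : j < Mk.card
    · have hi : i < Mk.card := hij.trans hj
      simp only [dif_pos hi, dif_pos hj]
      exact (Mk.orderEmbOfFin rfl).strictMono hij
    · simp only [dif_neg hj]
      by_cases hi : i < Mk.card
      · simp only [dif_pos hi]
        have hmem := Mk.orderEmbOfFin_mem rfl ⟨i, hi⟩
        have : Mk.orderEmbOfFin rfl ⟨i, hi⟩ ≤ Mk.sup id := Finset.le_sup (f := id) hmem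
        omega
      · simp only [dif_neg hi]; omega
  · intro i hi
    have hi' : i < Mk.card := lt_of_lt_of_le hi hN
    simp only [dif_pos hi']
    exact Mk.orderEmbOfFin_mem rfl ⟨i, hi'⟩

theorem one_ll {n : ℕ} (h : Fin n → List (Fin 8)) {σ : Type} [Fintype σ] (M : DFA (Fin n) σ) :
    ∃ N₀ : ℕ, ∀ f : List (Fin n), (¬ P (f.flatMap h) ∧ f ∈ M.accepts) → ∀ Mk : Finset ℕ,
      (∀ i ∈ Mk, i < f.length) → N₀ ≤ Mk.card →
      ∃ x u y : List (Fin n), f = x ++ u ++ y ∧
        (∀ k : ℕ, ¬ P ((x ++ (List.replicate k u).flatten ++ y).flatMap h) ∧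
          (x ++ (List.replicate k u).flatten ++ y) ∈ M.accepts) ∧
        (∃ i ∈ Mk, i < x.length) ∧
        (∃ i ∈ Mk, x.length ≤ i ∧ i < x.length + u.length) ∧
        (∃ i ∈ Mk, x.length + u.length ≤ i) := by
  classical
  obtain ⟨H, hH1, hH⟩ : ∃ H, 1 ≤ H ∧ ∀ c, (h c).length ≤ H := by
    refine ⟨1 + Finset.univ.sup (fun c => (h c).length), by omega, ?_⟩
    intro c
    have := Finset.le_sup (f := fun c => (h c).length) (Finset.mem_univ c)
    omega
  set k := Fintype.card σ with hk
  set K := (k + 2) * H + 1 with hK
  set L₀ := (k + 1) * K with hL₀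
  refine ⟨(k + 2) * L₀ + 1, ?_⟩
  rintro f ⟨hf, hfM⟩ Mk hMk hcard
  obtain ⟨m, hm, hmem⟩ := exists_marks Mk _ hcard
  set C := (k + 2) * L₀ + 1 with hC
  have hK1 : 1 ≤ K := by omega
  have hL1 : k + 1 ≤ L₀ := by
    rw [hL₀]; exact Nat.le_mul_of_pos_right _ (by omega)
  -- a general finishing lemma
  have finish : ∀ s t : ℕ, s ≤ t → t ≤ f.length → st M f s = st M f t →
      (a h f s = a h f t ∨ ¬ P ((f.take s).flatMap h ++ (f.drop t).flatMap h)) →
      (∃ i ∈ Mk, i < s) → (∃ i ∈ Mk, s ≤ i ∧ i < t) → (∃ i ∈ Mk, t ≤ i) →
      ∃ x u y : List (Fin n), f = x ++ u ++ y ∧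
        (∀ k : ℕ, ¬ P ((x ++ (List.replicate k u).flatten ++ y).flatMap h) ∧
          (x ++ (List.replicate k u).flatten ++ y) ∈ M.accepts) ∧
        (∃ i ∈ Mk, i < x.length) ∧
        (∃ i ∈ Mk, x.length ≤ i ∧ i < x.length + u.length) ∧
        (∃ i ∈ Mk, x.length + u.length ≤ i) := by
    intro s t hst ht hS hor h1 h2 h3
    have hxl : (f.take s).length = s := by rw [List.length_take]; omega
    have hul : (f.take s).length + ((f.take t).drop s).length = t := by
      rw [List.length_drop, List.length_take, List.length_take]; omega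
    refine ⟨f.take s, (f.take t).drop s, f.drop t, ?_, ?_, ?_, ?_, ?_⟩
    · rw [split_eq f hst, List.take_append_drop]
    · exact fun k => pump_ok h M f hf hfM hst hS hor k
    · rwa [hxl]
    · rwa [hul, hxl]
    · rwa [hul]
  have hCk : k + 1 < C := by
    have : L₀ ≤ (k + 2) * L₀ := Nat.le_mul_of_pos_left _ (by omega)
    omega
  by_cases hα : ∃ i, i + (k + 1) < C ∧ a h f (m (i + (k + 1))) = a h f (m i)
  · obtain ⟨i, hi, hai⟩ := hα
    obtain ⟨r, r', hne, hst⟩ := Fintype.exists_ne_map_eq_of_card_lt
      (fun r : Fin (k+1) => st M f (m (i + r.val) + 1)) (by rw [Fintype.card_fin]; omega)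
    have key : ∀ r r' : Fin (k + 1), r < r' → st M f (m (i + r.val) + 1) = st M f (m (i + r'.val) + 1) →
        ∃ x u y : List (Fin n), f = x ++ u ++ y ∧
        (∀ k : ℕ, ¬ P ((x ++ (List.replicate k u).flatten ++ y).flatMap h) ∧
          (x ++ (List.replicate k u).flatten ++ y) ∈ M.accepts) ∧
        (∃ i ∈ Mk, i < x.length) ∧
        (∃ i ∈ Mk, x.length ≤ i ∧ i < x.length + u.length) ∧
        (∃ i ∈ Mk, x.length + u.length ≤ i) := by
      intro r r' hlt hs
      have m1 : m (i + r.val) < m (i + r'.val) := hm (by omega)
      have m2 : m (i + r'.val) < m (i + r'.val + 1) := hm (by omega)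
      have m3 : m i ≤ m (i + r.val) := hm.monotone (by omega)
      have m4 : m (i + r'.val + 1) ≤ m (i + (k + 1)) := hm.monotone (by omega)
      have hlt2 := hMk _ (hmem (i + r'.val + 1) (by omega))
      apply finish (m (i + r.val) + 1) (m (i + r'.val) + 1) (by omega) (by omega) hs
      · left
        have e1 := a_mono h f (show m i ≤ m (i + r.val) + 1 by omega)
        have e2 := a_mono h f (show m (i + r.val) + 1 ≤ m (i + r'.val) + 1 by omega)
        have e3 := a_mono h f (show m (i + r'.val) + 1 ≤ m (i + (k + 1)) by omega)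
        omega
      · exact ⟨_, hmem (i + r.val) (by omega), by omega⟩
      · exact ⟨_, hmem (i + r'.val) (by omega), by omega, by omega⟩
      · exact ⟨_, hmem (i + r'.val + 1) (by omega), by omega⟩
    rcases lt_or_gt_of_ne hne with hlt | hlt
    · exact key r r' hlt hst
    · exact key r' r hlt hst.symm
  · have hβ : ∀ i, i + (k + 1) < C → a h f (m i) < a h f (m (i + (k + 1))) := by
      intro i hi
      have h1 : a h f (m (i + (k + 1))) ≠ a h f (m i) := fun hh => hα ⟨i, hi, hh⟩
      have h2 := a_mono h f (hm.monotone (show i ≤ i + (k + 1) by omega))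
      omega
    have hβ2 : ∀ r i, i + (k + 1) * r < C → a h f (m i) + r ≤ a h f (m (i + (k + 1) * r)) := by
      intro r
      induction r with
      | zero => intro i _; simp
      | succ r ih =>
        intro i hi
        have e1 : i + (k + 1) * (r + 1) = (i + (k + 1) * r) + (k + 1) := by ring
        rw [e1] at hi ⊢
        have := ih i (by omega)
        have := hβ _ hi
        omega
    have hμ : ∀ j, (j + 1) * L₀ < C → a h f (m (j * L₀)) + K ≤ a h f (m ((j + 1) * L₀)) := by
      intro j hj
      have e1 : (j + 1) * L₀ = j * L₀ + (k + 1) * K := by rw [hL₀]; ring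
      rw [e1] at hj ⊢
      exact hβ2 K _ hj
    have hjC : ∀ j, j ≤ k + 2 → j * L₀ < C := by
      intro j hj
      have := Nat.mul_le_mul_right L₀ hj
      omega
    have hwin : ∀ j : Fin (k + 1), ∃ s s', m (j.val * L₀) < s ∧ s < s' ∧ s' ≤ m ((j.val + 1) * L₀) ∧
        st M f s = st M f s' ∧ a h f s < a h f s' ∧ a h f s' ≤ a h f s + (k + 1) * H := by
      intro j
      apply window M hH1 hH
      · apply hm
        have : (j.val + 1) * L₀ = j.val * L₀ + L₀ := by ring
        omega
      · have := hμ j.val (hjC _ (by omega))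
        omega
    choose s s' w1 w2 w3 w4 w5 w6 using hwin
    obtain ⟨r, r', hne, hst⟩ := Fintype.exists_ne_map_eq_of_card_lt
      (fun r : Fin (k+1) => st M f (s r)) (by rw [Fintype.card_fin]; omega)
    have key : ∀ i j : Fin (k + 1), i < j → st M f (s i) = st M f (s j) →
        ∃ x u y : List (Fin n), f = x ++ u ++ y ∧
        (∀ k : ℕ, ¬ P ((x ++ (List.replicate k u).flatten ++ y).flatMap h) ∧
          (x ++ (List.replicate k u).flatten ++ y) ∈ M.accepts) ∧
        (∃ i ∈ Mk, i < x.length) ∧
        (∃ i ∈ Mk, x.length ≤ i ∧ i < x.length + u.length) ∧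
        (∃ i ∈ Mk, x.length + u.length ≤ i) := by
      intro i j hij hs
      have m1 : m ((i.val + 1) * L₀) ≤ m (j.val * L₀) :=
        hm.monotone (Nat.mul_le_mul_right _ (by omega))
      have hjm := hmem (j.val * L₀) (hjC _ (by omega))
      have hjm1 := hmem ((j.val + 1) * L₀) (hjC _ (by omega))
      have him := hmem (i.val * L₀) (hjC _ (by omega))
      have hlen := hMk _ hjm1
      have i1 := w1 i
      have i2 := w2 i
      have i3 := w3 i
      have j1 := w1 j
      have j2 := w2 j
      have j3 := w3 j
      by_cases hP1 : P ((f.take (s i)).flatMap h ++ (f.drop (s j)).flatMap h)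
      · by_cases hP2 : P ((f.take (s' i)).flatMap h ++ (f.drop (s j)).flatMap h)
        · exfalso
          have e1 : (f.take (s' i)).flatMap h =
              (f.take (s i)).flatMap h ++ ((f.take (s' i)).drop (s i)).flatMap h := by
            rw [← List.flatMap_append, split_eq f (by omega)]
          rw [e1] at hP2
          have e2 := a_add h f (show s i ≤ s' i by omega)
          have e3 := w5 i
          have e4 := w6 i
          have e5 : a h f f.length = a h f (s j) + ((f.drop (s j)).flatMap h).length := by
            have := a_add h f (show s j ≤ f.length by omega)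
            rwa [List.take_length] at this
          have e6 := hμ (j.val + 1) (hjC _ (by omega))
          have hlen2 := hMk _ (hmem ((j.val + 1 + 1) * L₀) (hjC _ (by omega)))
          have e7 := a_mono h f hlen2.le
          have e8 := a_mono h f (show s j ≤ m ((j.val + 1) * L₀) by omega)
          have e9 : (k + 2) * H = (k + 1) * H + H := by ring
          apply two_prefixes (c := ((f.take (s' i)).drop (s i)).flatMap h) ?_ ?_ hP1 hP2
          · intro hnil
            rw [hnil] at e2
            simp at e2
            omega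
          · omega
        · apply finish (s' i) (s j) (by omega) (by omega) ((w4 i).symm.trans hs) (Or.inr hP2)
          · exact ⟨_, him, by omega⟩
          · exact ⟨_, hjm, by omega, by omega⟩
          · exact ⟨_, hjm1, by omega⟩
      · apply finish (s i) (s j) (by omega) (by omega) hs (Or.inr hP1)
        · exact ⟨_, him, by omega⟩
        · exact ⟨_, hjm, by omega, by omega⟩
        · exact ⟨_, hjm1, by omega⟩
    rcases lt_or_gt_of_ne hne with hlt | hlt
    · exact key r r' hlt hst
    · exact key r' r hlt hst.symm

/-- The set of words that are not prefixes is not regular. -/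
theorem not_regular : ¬ Language.IsRegular ({w | ¬ P w} : Set (List (Fin 8))) := by
  rintro ⟨σ, _, M, hM⟩
  classical
  obtain ⟨r, r', hne, hst⟩ := Fintype.exists_ne_map_eq_of_card_lt
    (fun r : Fin (Fintype.card σ + 1) => M.eval (pref r.val)) (by rw [Fintype.card_fin]; omega)
  have key : ∀ i j : ℕ, i < j → M.eval (pref i) = M.eval (pref j) → False := by
    intro i j hij he
    -- the continuation of the longer prefix
    have hsplit : ∀ m, j ≤ m → pref m = pref j ++ (pref m).drop j := by
      intro m hm
      conv_lhs => rw [← List.take_append_drop j (pref m), pref_take m j hm]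
    set v := (pref (2 * j - i)).drop j with hv
    have h1 : pref j ++ v = pref (2 * j - i) := (hsplit _ (by omega)).symm
    have h2 : ¬ (pref j ++ v) ∈ M.accepts := by
      rw [hM]
      intro hh
      exact hh ⟨_, h1⟩
    have h3 : ¬ (pref i ++ v) ∈ M.accepts := by
      rw [DFA.mem_accepts, DFA.eval, DFA.evalFrom_of_append] at h2 ⊢
      change ¬ M.evalFrom (M.eval (pref i)) v ∈ M.accept
      rw [he]; exact h2
    rw [hM] at h3
    have h4 : P (pref i ++ v) := by
      by_contra hc; exact h3 hc
    -- pref j = pref i ++ c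
    have h5 : pref j = pref i ++ (pref j).drop i := by
      conv_lhs => rw [← List.take_append_drop i (pref j), pref_take j i (by omega)]
    have hcl : ((pref j).drop i).length = j - i := by rw [List.length_drop, pref_length]
    have hvl : v.length = j - i := by rw [hv, List.length_drop, pref_length]; omega
    apply two_prefixes (a := pref i) (c := (pref j).drop i) (b := v) ?_ (by omega) h4 ?_
    · intro hnil; rw [hnil] at hcl; simp at hcl; omega
    · rw [← h5]; exact ⟨_, h1⟩
  rcases lt_or_gt_of_ne hne with hlt | hlt
  · exact key r.val r'.val hlt hst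
  · exact key r'.val r.val hlt hst.symm

end Pool.Agent.Helper79.LocLin
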