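import Pool.Agent.Helper79.CFG

set_option autoImplicit false

namespace Pool.Agent.Helper79.CFG

universe u

variable {T : Type u}

section
variable {Q : Type} (step : Q → T → Q)

/-- Run of the automaton. -/
def run (p : Q) (w : List T) : Q := w.foldl step p

@[simp] theorem run_nil (p : Q) : run step p [] = p := rfl
@[simp] theorem run_cons (p : Q) (t : T) (w : List T) : run step p (t :: w) = run step (step p t) w := rfl
@[simp] theorem run_append (p : Q) (u v : List T) :
    run step p (u ++ v) = run step (run step p u) v := by
  simp [run]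

/-- Weight of a word read from state `p`. -/
def wsum (wt : Q → T → ℕ) : Q → List T → ℕ
  | _, [] => 0
  | p, t :: w => wt p t + wsum wt (step p t) w

@[simp] theorem wsum_nil (wt : Q → T → ℕ) (p : Q) : wsum step wt p [] = 0 := rfl
@[simp] theorem wsum_cons (wt : Q → T → ℕ) (p : Q) (t : T) (w : List T) :
    wsum step wt p (t :: w) = wt p t + wsum step wt (step p t) w := rfl

@[simp] theorem wsum_append (wt : Q → T → ℕ) (p : Q) (u v : List T) :
    wsum step wt p (u ++ v) = wsum step wt p u + wsum step wt (run step p u) v := by
  induction u generalizing p with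
  | nil => simp
  | cons t u ih => simp [ih, Nat.add_assoc]

/-- Derivation forests of height at most `h`, annotated with automaton states, using only annotated
nonterminals in `X`. -/
inductive Forest (g : ContextFreeGrammar T) (X : Finset (Q × g.NT × Q)) :
    ℕ → Q → List (Symbol T g.NT) → List T → Q → Prop
  | nil (h : ℕ) (p : Q) : Forest g X h p [] [] p
  | term (h : ℕ) (p : Q) (t : T) (α : List (Symbol T g.NT)) (w : List T) (q : Q) :
      Forest g X h (step p t) α w q → Forest g X h p (Symbol.terminal t :: α) (t :: w) q
  | node (h : ℕ) (p p₁ q : Q) (r : ContextFreeRule T g.NT) (α : List (Symbol T g.NT))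
      (w₁ w₂ : List T) : r ∈ g.rules → (p, r.input, p₁) ∈ X →
      Forest g X h p r.output w₁ p₁ → Forest g X (h+1) p₁ α w₂ q →
      Forest g X (h+1) p (Symbol.nonterminal r.input :: α) (w₁ ++ w₂) q

variable {step}

theorem Forest.run_eq {g : ContextFreeGrammar T} {X : Finset (Q × g.NT × Q)} {h : ℕ} {p q : Q}
    {α : List (Symbol T g.NT)} {w : List T} (hf : Forest step g X h p α w q) : run step p w = q := by
  induction hf with
  | nil h p => rfl
  | term h p t α w q _ ih => simpa using ih
  | node h p p₁ q r α w₁ w₂ _ _ _ _ ih1 ih2 => simp [ih1, ih2]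

theorem Forest.derives {g : ContextFreeGrammar T} {X : Finset (Q × g.NT × Q)} {h : ℕ} {p q : Q}
    {α : List (Symbol T g.NT)} {w : List T} (hf : Forest step g X h p α w q) :
    g.Derives α (w.map Symbol.terminal) := by
  induction hf with
  | nil h p => exact Relation.ReflTransGen.refl
  | term h p t α w q _ ih => simpa using ih.append_left [Symbol.terminal t]
  | node h p p₁ q r α w₁ w₂ hr _ _ _ ih1 ih2 =>
    have h2 : g.Produces [Symbol.nonterminal r.input] r.output :=
      ⟨r, hr, ContextFreeRule.Rewrites.input_output⟩
    have := derives_append (g := g) (h2.trans_derives ih1) ih2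
    simpa using this

theorem Forest.mono {g : ContextFreeGrammar T} {X : Finset (Q × g.NT × Q)} {h h' : ℕ} {p q : Q}
    {α : List (Symbol T g.NT)} {w : List T} (hf : Forest step g X h p α w q) (hh : h ≤ h') :
    Forest step g X h' p α w q := by
  induction hf generalizing h' with
  | nil h p => exact Forest.nil h' p
  | term h p t α w q _ ih => exact Forest.term _ _ _ _ _ _ (ih hh)
  | node h p p₁ q r α w₁ w₂ hr hX _ _ ih1 ih2 =>
    obtain ⟨k, rfl⟩ : ∃ k, h' = k + 1 := ⟨h' - 1, by omega⟩
    exact Forest.node _ _ _ _ _ _ _ _ hr hX (ih1 (by omega)) (ih2 hh)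

theorem Forest.append {g : ContextFreeGrammar T} {X : Finset (Q × g.NT × Q)} {h : ℕ} {p q s : Q}
    {α β : List (Symbol T g.NT)} {w v : List T} (hf : Forest step g X h p α w q)
    (hg : Forest step g X h q β v s) : Forest step g X h p (α ++ β) (w ++ v) s := by
  induction hf with
  | nil h p => simpa using hg
  | term h p t α w q _ ih => exact Forest.term _ _ _ _ _ _ (ih hg)
  | node h p p₁ q r α w₁ w₂ hr hX h1 h2 ih1 ih2 =>
    rw [List.cons_append, List.append_assoc]
    exact Forest.node _ _ _ _ _ _ _ _ hr hX h1 (ih2 hg)

theorem Forest.split {g : ContextFreeGrammar T} {X : Finset (Q × g.NT × Q)} {h : ℕ} {p q : Q}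
    {α β : List (Symbol T g.NT)} {w : List T} (hf : Forest step g X h p (α ++ β) w q) :
    ∃ w₁ w₂ m, w = w₁ ++ w₂ ∧ Forest step g X h p α w₁ m ∧ Forest step g X h m β w₂ q := by
  induction α generalizing p w with
  | nil => exact ⟨[], w, p, rfl, Forest.nil _ _, hf⟩
  | cons s α ih =>
    rw [List.cons_append] at hf
    cases hf with
    | term h p t α' w' q h1 =>
      obtain ⟨w₁, w₂, m, rfl, h2, h3⟩ := ih h1
      exact ⟨_ :: w₁, w₂, m, rfl, Forest.term _ _ _ _ _ _ h2, h3⟩
    | node h p p₁ q r α' w₁ w₂ hr hX h1 h2 =>
      obtain ⟨v₁, v₂, m, rfl, h3, h4⟩ := ih h2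
      exact ⟨w₁ ++ v₁, v₂, m, by simp, Forest.node _ _ _ _ _ _ _ _ hr hX h1 h3, h4⟩

/-- From an ordinary derivation to an annotated forest. -/
theorem Forest.of_derives (g : ContextFreeGrammar T) (X : Finset (Q × g.NT × Q))
    (hX : ∀ p q, ∀ r ∈ g.rules, (p, r.input, q) ∈ X)
    (α : List (Symbol T g.NT)) (w : List T) (h : g.Derives α (w.map Symbol.terminal)) (p : Q) :
    ∃ n, Forest step g X n p α w (run step p w) := by
  induction h using Relation.ReflTransGen.head_induction_on generalizing p with
  | refl =>
    refine ⟨0, ?_⟩
    induction w generalizing p with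
    | nil => exact Forest.nil _ _
    | cons t w ih => exact Forest.term _ _ _ _ _ _ (ih _)
  | head hstep _ ih =>
    obtain ⟨r, hr, hrw⟩ := hstep
    obtain ⟨a, b, rfl, rfl⟩ := hrw.exists_parts
    obtain ⟨n, hn⟩ := ih p
    obtain ⟨w₁, w₂, m, rfl, h1, h2⟩ := hn.split
    obtain ⟨w₃, w₄, m', rfl, h3, h4⟩ := h1.split
    refine ⟨n + 1, ?_⟩
    have hmid : Forest step g X (n+1) m' [Symbol.nonterminal r.input] w₄ m := by
      have := Forest.node (step := step) (g := g) (X := X) n m' m m r [] w₄ [] hr (hX _ _ r hr) h4
        (Forest.nil _ _)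
      simpa using this
    exact ((h3.mono (Nat.le_succ n)).append hmid).append (h2.mono (Nat.le_succ n))

/-- A word has a pump (of positive weight) inside a forest. -/
def Pumpable (step : Q → T → Q) (wt : Q → T → ℕ) (g : ContextFreeGrammar T)
    (p : Q) (α : List (Symbol T g.NT)) (w : List T) (q : Q) : Prop :=
  ∃ (B : g.NT) (a b : Q) (u v y x z : List T), w = u ++ v ++ y ++ x ++ z ∧
    g.Derives α (u.map Symbol.terminal ++ [Symbol.nonterminal B] ++ z.map Symbol.terminal) ∧
    g.Derives [Symbol.nonterminal B]
      (v.map Symbol.terminal ++ [Symbol.nonterminal B] ++ x.map Symbol.terminal) ∧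
    g.Derives [Symbol.nonterminal B] (y.map Symbol.terminal) ∧
    run step p u = a ∧ run step a v = a ∧ run step a y = b ∧ run step b x = b ∧
    run step b z = q ∧ 0 < wsum step wt a v + wsum step wt b x

theorem Forest.split_at [DecidableEq Q] {g : ContextFreeGrammar T} [DecidableEq g.NT]
    {X : Finset (Q × g.NT × Q)}
    {h : ℕ} {p q : Q} {α : List (Symbol T g.NT)} {w : List T}
    (hf : Forest step g X h p α w q) (a b : Q) (A : g.NT) :
    Forest step g (X.erase (a, A, b)) h p α w q ∨
    ∃ u y z, w = u ++ y ++ z ∧
      g.Derives α (u.map Symbol.terminal ++ [Symbol.nonterminal A] ++ z.map Symbol.terminal) ∧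
      run step p u = a ∧ run step a y = b ∧ run step b z = q ∧
      g.Derives [Symbol.nonterminal A] (y.map Symbol.terminal) := by
  induction hf with
  | nil h p => exact Or.inl (Forest.nil _ _)
  | term h p t α w q _ ih =>
    rcases ih with ih | ⟨u, y, z, rfl, h1, h2, h3, h4, h5⟩
    · exact Or.inl (Forest.term _ _ _ _ _ _ ih)
    · refine Or.inr ⟨t :: u, y, z, by simp, ?_, by simpa using h2, h3, h4, h5⟩
      simpa using h1.append_left [Symbol.terminal t]
  | node h p p₁ q r α w₁ w₂ hr hX hf1 hf2 ih1 ih2 =>
    by_cases heq : (p, r.input, p₁) = (a, A, b)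
    · obtain ⟨rfl, hA, rfl⟩ : p = a ∧ r.input = A ∧ p₁ = b := by simpa using heq
      subst hA
      refine Or.inr ⟨[], w₁, w₂, by simp, ?_, rfl, hf1.run_eq, hf2.run_eq, ?_⟩
      · simpa using hf2.derives.append_left [Symbol.nonterminal r.input]
      · have h2 : g.Produces [Symbol.nonterminal r.input] r.output :=
          ⟨r, hr, ContextFreeRule.Rewrites.input_output⟩
        exact h2.trans_derives hf1.derives
    · rcases ih1 with ih1 | ⟨u, y, z, rfl, h1, h2, h3, h4, h5⟩
      · rcases ih2 with ih2 | ⟨u, y, z, rfl, h1, h2, h3, h4, h5⟩
        · left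
          refine Forest.node _ _ _ _ _ _ _ _ hr ?_ ih1 ih2
          exact Finset.mem_erase.2 ⟨heq, hX⟩
        · right
          refine ⟨w₁ ++ u, y, z, by simp, ?_, ?_, h3, h4, h5⟩
          · have h6 : g.Produces [Symbol.nonterminal r.input] r.output :=
              ⟨r, hr, ContextFreeRule.Rewrites.input_output⟩
            have := derives_append (h6.trans_derives hf1.derives) h1
            simpa using this
          · simp [hf1.run_eq, h2]
      · right
        refine ⟨u, y, z ++ w₂, by simp, ?_, h2, h3, ?_, h5⟩
        · have h6 : g.Produces [Symbol.nonterminal r.input] r.output :=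
            ⟨r, hr, ContextFreeRule.Rewrites.input_output⟩
          have := derives_append (h6.trans_derives h1) hf2.derives
          simpa using this
        · simp [h4, hf2.run_eq]

theorem Pumpable.context {wt : Q → T → ℕ} {g : ContextFreeGrammar T} {p c d q : Q}
    {α α' : List (Symbol T g.NT)} {u₀ y z₀ : List T}
    (hd : g.Derives α' (u₀.map Symbol.terminal ++ α ++ z₀.map Symbol.terminal))
    (hu : run step p u₀ = c) (hz : run step d z₀ = q) (hp : Pumpable step wt g c α y d) :
    Pumpable step wt g p α' (u₀ ++ y ++ z₀) q := by
  obtain ⟨B, a, b, u, v, y, x, z, rfl, h1, h2, h3, h4, h5, h6, h7, h8, h9⟩ := hp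
  refine ⟨B, a, b, u₀ ++ u, v, y, x, z ++ z₀, by simp, ?_, h2, h3, ?_, h5, h6, h7, ?_, h9⟩
  · refine hd.trans ?_
    have := (h1.append_left (u₀.map Symbol.terminal)).append_right (z₀.map Symbol.terminal)
    simpa using this
  · simp [hu, h4]
  · simp [h8, hz]

theorem forest_step [DecidableEq Q] {g : ContextFreeGrammar T} [DecidableEq g.NT]
    {wt : Q → T → ℕ} (hwt : ∀ p t, wt p t ≤ 1) {m k : ℕ} (hm : 1 ≤ m)
    {X : Finset (Q × g.NT × Q)} (hXc : X.card ≤ k + 1) {a b : Q} {A : g.NT} (hA : (a, A, b) ∈ X)
    (IH : ∀ (X' : Finset (Q × g.NT × Q)), X'.card ≤ k → ∀ (h : ℕ) (p q : Q) (B : g.NT) (w : List T),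
      Forest step g X' h p [Symbol.nonterminal B] w q → m ^ k < wsum step wt p w →
      Pumpable step wt g p [Symbol.nonterminal B] w q) (W₀ : ℕ)
    {h : ℕ} {p q : Q} {α : List (Symbol T g.NT)} {w : List T}
    (hf : Forest step g X h p α w q) :
    Pumpable step wt g p α w q ∨
    (∃ (u y z : List T) (B : g.NT) (c d : Q), w = u ++ y ++ z ∧
      g.Derives α (u.map Symbol.terminal ++ [Symbol.nonterminal B] ++ z.map Symbol.terminal) ∧
      run step p u = c ∧ Forest step g X h c [Symbol.nonterminal B] y d ∧ run step d z = q ∧
      W₀ ≤ wsum step wt c y) ∨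
    (∃ (u y z : List T), w = u ++ y ++ z ∧
      g.Derives α (u.map Symbol.terminal ++ [Symbol.nonterminal A] ++ z.map Symbol.terminal) ∧
      run step p u = a ∧ run step a y = b ∧ run step b z = q ∧
      g.Derives [Symbol.nonterminal A] (y.map Symbol.terminal) ∧ wsum step wt a y < W₀) ∨
    wsum step wt p w ≤ α.length * m ^ k := by
  have hmk : 1 ≤ m ^ k := Nat.one_le_pow _ _ hm
  induction hf with
  | nil h p => right; right; right; simp
  | term h p t α w q hf ih =>
    have hder : g.Derives (Symbol.terminal t :: α) (([t] : List T).map Symbol.terminal ++ α ++ ([] : List T).map Symbol.terminal) := by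
      simp only [List.map_cons, List.map_nil, List.append_nil, List.cons_append, List.nil_append]
      exact Relation.ReflTransGen.refl
    rcases ih with h1 | ⟨u, y, z, B, c, d, rfl, h1, h2, h3, h4, h5⟩ |
      ⟨u, y, z, rfl, h1, h2, h3, h4, h5, h6⟩ | h1
    · left
      have := Pumpable.context (step := step) (wt := wt) (p := p) (q := q) (z₀ := []) hder rfl rfl h1
      simpa using this
    · right; left
      refine ⟨t :: u, y, z, B, c, d, by simp, ?_, by simpa using h2, h3, h4, h5⟩
      simpa using h1.append_left [Symbol.terminal t]
    · right; right; left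
      refine ⟨t :: u, y, z, by simp, ?_, by simpa using h2, h3, h4, h5, h6⟩
      simpa using h1.append_left [Symbol.terminal t]
    · right; right; right
      simp only [wsum_cons, List.length_cons]
      have := hwt p t
      calc wt p t + wsum step wt (step p t) w ≤ 1 + α.length * m ^ k := by omega
        _ ≤ m ^ k + α.length * m ^ k := by omega
        _ = (α.length + 1) * m ^ k := by ring
  | node h p p₁ q r α w₁ w₂ hr hX hf1 hf2 ih1 ih2 =>
    have hprod : g.Produces [Symbol.nonterminal r.input] r.output :=
      ⟨r, hr, ContextFreeRule.Rewrites.input_output⟩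
    have hchild : Forest step g X (h+1) p [Symbol.nonterminal r.input] w₁ p₁ := by
      have := Forest.node (step := step) (g := g) (X := X) h p p₁ p₁ r [] w₁ [] hr hX hf1
        (Forest.nil _ _)
      simpa using this
    have hheadder : g.Derives (Symbol.nonterminal r.input :: α)
        (([] : List T).map Symbol.terminal ++ [Symbol.nonterminal r.input] ++ w₂.map Symbol.terminal) := by
      simpa using hf2.derives.append_left [Symbol.nonterminal r.input]
    have htailder : g.Derives (Symbol.nonterminal r.input :: α)
        (w₁.map Symbol.terminal ++ α ++ ([] : List T).map Symbol.terminal) := by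
      simpa using (hprod.trans_derives hf1.derives).append_right α
    by_cases hW : W₀ ≤ wsum step wt p w₁
    · right; left
      refine ⟨[], w₁, w₂, r.input, p, p₁, by simp, hheadder, rfl, hchild, hf2.run_eq, hW⟩
    · rcases hchild.split_at a b A with hs | ⟨u, y, z, rfl, h1, h2, h3, h4, h5⟩
      · by_cases hbig : m ^ k < wsum step wt p w₁
        · left
          have hcard : (X.erase (a, A, b)).card ≤ k := by
            rw [Finset.card_erase_of_mem hA]; omega
          have hp := IH _ hcard _ _ _ _ _ hs hbig
          have := Pumpable.context (step := step) (wt := wt) (p := p) (q := q) (u₀ := []) hheadder rfl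
            hf2.run_eq hp
          simpa using this
        · rcases ih2 with h1 | ⟨u, y, z, B, c, d, rfl, h1, h2, h3, h4, h5⟩ |
            ⟨u, y, z, rfl, h1, h2, h3, h4, h5, h6⟩ | h1
          · left
            have := Pumpable.context (step := step) (wt := wt) (p := p) (q := q) (z₀ := []) htailder
              hf1.run_eq rfl h1
            simpa using this
          · right; left
            refine ⟨w₁ ++ u, y, z, B, c, d, by simp, ?_, by simp [hf1.run_eq, h2], h3, h4, h5⟩
            have := derives_append (hprod.trans_derives hf1.derives) h1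
            simpa using this
          · right; right; left
            refine ⟨w₁ ++ u, y, z, by simp, ?_, by simp [hf1.run_eq, h2], h3, h4, h5, h6⟩
            have := derives_append (hprod.trans_derives hf1.derives) h1
            simpa using this
          · right; right; right
            simp only [wsum_append, hf1.run_eq, List.length_cons]
            push Not at hbig
            calc wsum step wt p w₁ + wsum step wt p₁ w₂ ≤ m ^ k + α.length * m ^ k := by omega
              _ = (α.length + 1) * m ^ k := by ring
      · right; right; left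
        refine ⟨u, y, z ++ w₂, by simp, ?_, h2, h3, ?_, h5, ?_⟩
        · have := derives_append h1 hf2.derives
          simpa using this
        · simp [h4, hf2.run_eq]
        · simp only [wsum_append, h2] at hW
          omega

theorem pumpable_of_card [DecidableEq Q] {g : ContextFreeGrammar T} [DecidableEq g.NT]
    {wt : Q → T → ℕ} (hwt : ∀ p t, wt p t ≤ 1) {m : ℕ} (hm : 1 ≤ m)
    (hlen : ∀ r ∈ g.rules, r.output.length ≤ m) (k : ℕ) :
    ∀ (X : Finset (Q × g.NT × Q)), X.card ≤ k → ∀ (h : ℕ) (p q : Q) (B : g.NT) (w : List T),
      Forest step g X h p [Symbol.nonterminal B] w q → m ^ k < wsum step wt p w →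
      Pumpable step wt g p [Symbol.nonterminal B] w q := by
  induction k with
  | zero =>
    intro X hX h p q B w hf _
    have hX0 : X = ∅ := Finset.card_eq_zero.1 (by omega)
    subst hX0
    cases hf with
    | node h p p₁ q r α w₁ w₂ hr hX h1 h2 => simp at hX
  | succ k IH =>
    intro X hX h
    induction h with
    | zero =>
      intro p q B w hf _
      cases hf
    | succ h ih =>
      intro p q B w hf hW
      cases hf with
      | node _ _ p₁ _ r _ w₁ w₂ hr hXm h1 h2 =>
        cases h2 with
        | nil =>
          simp only [List.append_nil] at hW ⊢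
          have hprod : g.Produces [Symbol.nonterminal r.input] r.output :=
            ⟨r, hr, ContextFreeRule.Rewrites.input_output⟩
          rcases forest_step hwt hm hX hXm IH (wsum step wt p w₁) h1 with
            h3 | ⟨u, y, z, B, c, d, rfl, h3, h4, h5, h6, h7⟩ |
            ⟨u, y, z, rfl, h3, h4, h5, h6, h7, h8⟩ | h3
          · have := Pumpable.context (step := step) (wt := wt) (p := p) (c := p) (d := q) (q := q)
              (u₀ := []) (z₀ := []) (α' := [Symbol.nonterminal r.input]) (α := r.output)
              (by simpa using hprod.single) rfl rfl h3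
            simpa using this
          · have hp := ih _ _ _ _ h5 (lt_of_lt_of_le hW h7)
            exact Pumpable.context (hprod.trans_derives h3) h4 h6 hp
          · refine ⟨r.input, p, q, [], u, y, z, [], by simp, ?_, hprod.trans_derives h3, h7, rfl,
              h4, h5, h6, rfl, ?_⟩
            · simp only [List.map_nil, List.append_nil, List.nil_append]
              exact Relation.ReflTransGen.refl
            · simp only [wsum_append, run_append, h4, h5] at h8
              omega
          · exfalso
            have h4 : r.output.length * m ^ k ≤ m * m ^ k := Nat.mul_le_mul_right _ (hlen r hr)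
            rw [pow_succ, Nat.mul_comm] at hW
            omega

/-- Pumping lemma for derivations from an arbitrary nonterminal, with an automaton reading the word
and a weight deciding which letters count. -/
theorem pumping (g : ContextFreeGrammar T) {Q : Type} [Fintype Q] (step : Q → T → Q) :
    ∃ n : ℕ, ∀ (wt : Q → T → ℕ), (∀ p t, wt p t ≤ 1) → ∀ (A : g.NT) (p : Q) (w : List T),
      g.Derives [Symbol.nonterminal A] (w.map Symbol.terminal) → n ≤ wsum step wt p w →
      Pumpable step wt g p [Symbol.nonterminal A] w (run step p w) := by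
  classical
  let X : Finset (Q × g.NT × Q) :=
    Finset.univ ×ˢ (g.rules.image (fun r => r.input)) ×ˢ Finset.univ
  let m : ℕ := 1 + g.rules.sup (fun r => r.output.length)
  refine ⟨m ^ X.card + 1, ?_⟩
  intro wt hwt A p w hd hw
  have hX : ∀ p q, ∀ r ∈ g.rules, (p, r.input, q) ∈ X := by
    intro p q r hr
    simp only [X, Finset.mem_product, Finset.mem_univ, true_and, and_true, Finset.mem_image]
    exact ⟨r, hr, rfl⟩
  obtain ⟨n, hn⟩ := Forest.of_derives (step := step) g X hX _ _ hd p
  refine pumpable_of_card hwt (m := m) (by omega) ?_ X.card X le_rfl n p _ A w hn (by omega)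
  intro r hr
  have : r.output.length ≤ g.rules.sup (fun r => r.output.length) :=
    Finset.le_sup (f := fun r => r.output.length) hr
  omega

/-- Iterating a context. -/
theorem derives_iterate {g : ContextFreeGrammar T} {B : g.NT} {v x : List T}
    (h : g.Derives [Symbol.nonterminal B]
      (v.map Symbol.terminal ++ [Symbol.nonterminal B] ++ x.map Symbol.terminal)) (i : ℕ) :
    g.Derives [Symbol.nonterminal B]
      (((List.replicate i v).flatten).map Symbol.terminal ++ [Symbol.nonterminal B] ++
        ((List.replicate i x).flatten).map Symbol.terminal) := by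
  induction i with
  | zero => simp only [List.replicate_zero, List.flatten_nil, List.map_nil, List.append_nil,
      List.nil_append]; exact Relation.ReflTransGen.refl
  | succ i ih =>
    refine ih.trans ?_
    have := (h.append_left (((List.replicate i v).flatten).map Symbol.terminal)).append_right
      (((List.replicate i x).flatten).map Symbol.terminal)
    refine this.trans ?_
    have e1 : (List.replicate (i+1) v).flatten = (List.replicate i v).flatten ++ v := by
      rw [List.replicate_succ', List.flatten_append]; simp
    have e2 : (List.replicate (i+1) x).flatten = x ++ (List.replicate i x).flatten := by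
      rw [List.replicate_succ]; simp
    rw [e1, e2]
    simp only [List.map_append, List.append_assoc]
    exact Relation.ReflTransGen.refl

end

end Pool.Agent.Helper79.CFG
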