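import Pool.Agent.Helper79.CFG

set_option autoImplicit false

namespace Pool.Agent.Helper79.Trans

open Pool.Agent.Helper79.CFG

/-- Big-step derivations. -/
inductive Yld {T : Type} (g : ContextFreeGrammar T) : List (Symbol T g.NT) → List T → Prop
  | nil : Yld g [] []
  | term (t : T) (α : List (Symbol T g.NT)) (w : List T) : Yld g α w →
      Yld g (Symbol.terminal t :: α) (t :: w)
  | node (r : ContextFreeRule T g.NT) (α : List (Symbol T g.NT)) (w₁ w₂ : List T) : r ∈ g.rules →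
      Yld g r.output w₁ → Yld g α w₂ → Yld g (Symbol.nonterminal r.input :: α) (w₁ ++ w₂)

section
variable {T : Type} {g : ContextFreeGrammar T}

theorem Yld.append {α β : List (Symbol T g.NT)} {v w : List T} (h1 : Yld g α v) (h2 : Yld g β w) :
    Yld g (α ++ β) (v ++ w) := by
  induction h1 with
  | nil => exact h2
  | term t α v _ ih => exact Yld.term _ _ _ ih
  | node r α w₁ w₂ hr h _ _ ih =>
    rw [List.cons_append, List.append_assoc]
    exact Yld.node _ _ _ _ hr h ih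

theorem Yld.split {α β : List (Symbol T g.NT)} {w : List T} (h : Yld g (α ++ β) w) :
    ∃ w₁ w₂, w = w₁ ++ w₂ ∧ Yld g α w₁ ∧ Yld g β w₂ := by
  induction α generalizing w with
  | nil => exact ⟨[], w, rfl, Yld.nil, h⟩
  | cons s α ih =>
    rw [List.cons_append] at h
    cases h with
    | term t _ w' h1 =>
      obtain ⟨w₁, w₂, rfl, h2, h3⟩ := ih h1
      exact ⟨_ :: w₁, w₂, rfl, Yld.term _ _ _ h2, h3⟩
    | node r _ w₁ w₂ hr h1 h2 =>
      obtain ⟨v₁, v₂, rfl, h3, h4⟩ := ih h2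
      exact ⟨w₁ ++ v₁, v₂, by simp, Yld.node _ _ _ _ hr h1 h3, h4⟩

theorem yld_of_derives {α : List (Symbol T g.NT)} {w : List T}
    (h : g.Derives α (w.map Symbol.terminal)) : Yld g α w := by
  induction h using Relation.ReflTransGen.head_induction_on with
  | refl =>
    induction w with
    | nil => exact Yld.nil
    | cons t w ih => exact Yld.term _ _ _ ih
  | head hstep _ ih =>
    obtain ⟨r, hr, hrw⟩ := hstep
    obtain ⟨a, b, rfl, rfl⟩ := hrw.exists_parts
    obtain ⟨w₁, w₂, rfl, h1, h2⟩ := ih.split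
    obtain ⟨w₃, w₄, rfl, h3, h4⟩ := h1.split
    refine Yld.append (Yld.append h3 ?_) h2
    have := Yld.node r [] w₄ [] hr h4 Yld.nil
    simpa using this

end

section
variable {T A Q : Type} (D : Finset (Q × T × List A × Q)) (E : Finset (Q × List A × Q))

/-- Runs of a finite transducer: `Run q v w p` reads `v` and writes `w`. -/
inductive Run : Q → List T → List A → Q → Prop
  | nil (q : Q) : Run q [] [] q
  | eps (q : Q) (w₁ : List A) (p : Q) (v : List T) (w : List A) (q' : Q) : (q, w₁, p) ∈ E →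
      Run p v w q' → Run q v (w₁ ++ w) q'
  | read (q : Q) (b : T) (w₁ : List A) (p : Q) (v : List T) (w : List A) (q' : Q) :
      (q, b, w₁, p) ∈ D → Run p v w q' → Run q (b :: v) (w₁ ++ w) q'

variable {D E}

theorem Run.append {q p s : Q} {v v' : List T} {w w' : List A} (h1 : Run D E q v w p)
    (h2 : Run D E p v' w' s) : Run D E q (v ++ v') (w ++ w') s := by
  induction h1 with
  | nil q => exact h2
  | eps q w₁ p v w q' hE _ ih =>
    rw [List.append_assoc]; exact Run.eps _ _ _ _ _ _ hE (ih h2)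
  | read q b w₁ p v w q' hD _ ih =>
    rw [List.append_assoc, List.cons_append]; exact Run.read _ _ _ _ _ _ _ hD (ih h2)

theorem Run.split {q s : Q} {v v₁ v₂ : List T} {w : List A} (h : Run D E q v w s)
    (hv : v = v₁ ++ v₂) :
    ∃ p w₁ w₂, w = w₁ ++ w₂ ∧ Run D E q v₁ w₁ p ∧ Run D E p v₂ w₂ s := by
  induction h generalizing v₁ with
  | nil q =>
    obtain ⟨rfl, rfl⟩ : v₁ = [] ∧ v₂ = [] := by simpa using hv.symm
    exact ⟨q, [], [], rfl, Run.nil _, Run.nil _⟩
  | eps q w₁ p v w q' hE _ ih =>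
    obtain ⟨p', u₁, u₂, rfl, h1, h2⟩ := ih hv
    exact ⟨p', w₁ ++ u₁, u₂, by simp, Run.eps _ _ _ _ _ _ hE h1, h2⟩
  | read q b w₁ p v w q' hD h' ih =>
    cases v₁ with
    | nil =>
      refine ⟨q, [], w₁ ++ w, rfl, Run.nil _, ?_⟩
      simp only [List.nil_append] at hv
      rw [← hv]
      exact Run.read _ _ _ _ _ _ _ hD h'
    | cons c v₁ =>
      simp only [List.cons_append, List.cons.injEq] at hv
      obtain ⟨rfl, hv⟩ := hv
      obtain ⟨p', u₁, u₂, rfl, h1, h2⟩ := ih hv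
      exact ⟨p', w₁ ++ u₁, u₂, by simp, Run.read _ _ _ _ _ _ _ hD h1, h2⟩

variable (D E)

open Classical in
/-- The grammar of the image of `g.language` under a finite transducer. -/
noncomputable def image (g : ContextFreeGrammar T) (P : Finset Q) (q₀ : Q) (F : Finset Q) :
    ContextFreeGrammar A :=
  let Suf : Finset (List (Symbol T g.NT)) :=
    insert [Symbol.nonterminal g.initial] (insert [] (g.rules.biUnion fun r => r.output.tails.toFinset))
  { NT := Option (Q × List (Symbol T g.NT) × Q)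
    initial := none
    rules :=
      (F.image fun qf => ⟨none, [Symbol.nonterminal (some (q₀, [Symbol.nonterminal g.initial], qf))]⟩) ∪
      (P.image fun q => ⟨some (q, [], q), []⟩) ∪
      ((D ×ˢ Suf ×ˢ P).image fun x => ⟨some (x.1.1, Symbol.terminal x.1.2.1 :: x.2.1, x.2.2),
        x.1.2.2.1.map Symbol.terminal ++ [Symbol.nonterminal (some (x.1.2.2.2, x.2.1, x.2.2))]⟩) ∪
      ((g.rules ×ˢ Suf ×ˢ P ×ˢ P ×ˢ P).image fun x =>
        ⟨some (x.2.2.1, Symbol.nonterminal x.1.input :: x.2.1, x.2.2.2.2),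
          [Symbol.nonterminal (some (x.2.2.1, x.1.output, x.2.2.2.1)),
           Symbol.nonterminal (some (x.2.2.2.1, x.2.1, x.2.2.2.2))]⟩) ∪
      ((E ×ˢ Suf ×ˢ P).image fun x => ⟨some (x.1.1, x.2.1, x.2.2),
        x.1.2.1.map Symbol.terminal ++ [Symbol.nonterminal (some (x.1.2.2, x.2.1, x.2.2))]⟩) }

open Classical in
noncomputable def Suf (g : ContextFreeGrammar T) : Finset (List (Symbol T g.NT)) :=
  insert [Symbol.nonterminal g.initial] (insert [] (g.rules.biUnion fun r => r.output.tails.toFinset))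

theorem mem_image_rules (g : ContextFreeGrammar T) (P : Finset Q) (q₀ : Q) (F : Finset Q)
    (r : ContextFreeRule A (Option (Q × List (Symbol T g.NT) × Q))) :
    (show ContextFreeRule A (image D E g P q₀ F).NT from r) ∈ (image D E g P q₀ F).rules ↔
    (∃ qf ∈ F, r = ⟨none, [Symbol.nonterminal (some (q₀, [Symbol.nonterminal g.initial], qf))]⟩) ∨
    (∃ q ∈ P, r = ⟨some (q, [], q), []⟩) ∨
    (∃ q b w p α q', (q, b, w, p) ∈ D ∧ α ∈ Suf g ∧ q' ∈ P ∧
      r = ⟨some (q, Symbol.terminal b :: α, q'),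
        w.map Symbol.terminal ++ [Symbol.nonterminal (some (p, α, q'))]⟩) ∨
    (∃ r' ∈ g.rules, ∃ α ∈ Suf g, ∃ q ∈ P, ∃ p ∈ P, ∃ q' ∈ P,
      r = ⟨some (q, Symbol.nonterminal r'.input :: α, q'),
        [Symbol.nonterminal (some (q, r'.output, p)), Symbol.nonterminal (some (p, α, q'))]⟩) ∨
    (∃ q w p α q', (q, w, p) ∈ E ∧ α ∈ Suf g ∧ q' ∈ P ∧
      r = ⟨some (q, α, q'), w.map Symbol.terminal ++ [Symbol.nonterminal (some (p, α, q'))]⟩) := by
  classical
  change r ∈ (_ : Finset (ContextFreeRule A (Option (Q × List (Symbol T g.NT) × Q)))) ↔ _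
  simp only [image, Finset.mem_union, Finset.mem_image, Finset.mem_product, Prod.exists, or_assoc]
  constructor
  · rintro (⟨qf, h, rfl⟩ | ⟨q, h, rfl⟩ | ⟨q, b, w, p, α, q', ⟨h1, h2, h3⟩, rfl⟩ |
      ⟨r', α, q, p, q', ⟨h1, h2, h3, h4, h5⟩, rfl⟩ | ⟨q, w, p, α, q', ⟨h1, h2, h3⟩, rfl⟩)
    · exact Or.inl ⟨qf, h, rfl⟩
    · exact Or.inr (Or.inl ⟨q, h, rfl⟩)
    · exact Or.inr (Or.inr (Or.inl ⟨q, b, w, p, α, q', h1, h2, h3, rfl⟩))
    · exact Or.inr (Or.inr (Or.inr (Or.inl ⟨r', h1, α, h2, q, h3, p, h4, q', h5, rfl⟩)))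
    · exact Or.inr (Or.inr (Or.inr (Or.inr ⟨q, w, p, α, q', h1, h2, h3, rfl⟩)))
  · rintro (⟨qf, h, rfl⟩ | ⟨q, h, rfl⟩ | ⟨q, b, w, p, α, q', h1, h2, h3, rfl⟩ |
      ⟨r', h1, α, h2, q, h3, p, h4, q', h5, rfl⟩ | ⟨q, w, p, α, q', h1, h2, h3, rfl⟩)
    · exact Or.inl ⟨qf, h, rfl⟩
    · exact Or.inr (Or.inl ⟨q, h, rfl⟩)
    · exact Or.inr (Or.inr (Or.inl ⟨q, b, w, p, α, q', ⟨h1, h2, h3⟩, rfl⟩))
    · exact Or.inr (Or.inr (Or.inr (Or.inl ⟨r', α, q, p, q', ⟨h1, h2, h3, h4, h5⟩, rfl⟩)))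
    · exact Or.inr (Or.inr (Or.inr (Or.inr ⟨q, w, p, α, q', ⟨h1, h2, h3⟩, rfl⟩)))

theorem Suf_tail {g : ContextFreeGrammar T} {s : Symbol T g.NT} {α : List (Symbol T g.NT)}
    (h : s :: α ∈ Suf g) : α ∈ Suf g := by
  classical
  simp only [Suf, Finset.mem_insert, Finset.mem_biUnion, List.mem_toFinset, List.mem_tails] at h ⊢
  rcases h with h | h | ⟨r, hr, h⟩
  · right; left; simpa using (List.cons.inj h).2
  · simp at h
  · right; right; exact ⟨r, hr, (List.suffix_cons s α).trans h⟩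

theorem Suf_out {g : ContextFreeGrammar T} {r : ContextFreeRule T g.NT} (h : r ∈ g.rules) :
    r.output ∈ Suf g := by
  classical
  simp only [Suf, Finset.mem_insert, Finset.mem_biUnion, List.mem_toFinset, List.mem_tails]
  right; right; exact ⟨r, h, List.suffix_rfl⟩

theorem Suf_init (g : ContextFreeGrammar T) : [Symbol.nonterminal g.initial] ∈ Suf g := by
  classical
  simp [Suf]

def Sem (g : ContextFreeGrammar T) (q₀ : Q) (F : Finset Q) :
    Option (Q × List (Symbol T g.NT) × Q) → Set (List A)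
  | none => {w | ∃ v, v ∈ g.language ∧ ∃ qf ∈ F, Run D E q₀ v w qf}
  | some (q, α, q') => {w | ∃ v : List T, g.Derives α (v.map Symbol.terminal) ∧ Run D E q v w q'}

theorem comp_map_append {N : Type} (S : N → Set (List A)) (u : List A) (X : N) (w : List A) :
    Comp S (u.map Symbol.terminal ++ [Symbol.nonterminal X]) w ↔ ∃ w', w = u ++ w' ∧ w' ∈ S X := by
  rw [comp_append]
  constructor
  · rintro ⟨w₁, w₂, rfl, h1, ⟨w₃, w₄, rfl, h3, h4⟩⟩
    rw [comp_map_terminal] at h1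
    simp only [Comp] at h4
    subst h1; subst h4
    exact ⟨w₃, by simp, h3⟩
  · rintro ⟨w', rfl, h⟩
    exact ⟨u, w', rfl, (comp_map_terminal _ _ _).2 rfl, w', [], by simp, h, rfl⟩

theorem image_sound (g : ContextFreeGrammar T) (P : Finset Q) (q₀ : Q) (F : Finset Q) :
    ∀ r ∈ (image D E g P q₀ F).rules, ∀ w, Comp (Sem D E g q₀ F) r.output w →
      w ∈ Sem D E g q₀ F r.input := by
  intro r hr w hw
  change ContextFreeRule A (Option (Q × List (Symbol T g.NT) × Q)) at r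
  have hr' := (mem_image_rules D E g P q₀ F r).1 hr
  clear hr
  rcases hr' with ⟨qf, hqf, rfl⟩ | ⟨q, hq, rfl⟩ | ⟨q, b, u, p, α, q', h1, h2, h3, rfl⟩ |
    ⟨r', hr', α, hα, q, hq, p, hp, q', hq', rfl⟩ | ⟨q, u, p, α, q', h1, h2, h3, rfl⟩
  · obtain ⟨w₁, _, rfl, ⟨v, hv, hrun⟩, rfl⟩ := hw
    refine ⟨v, hv, qf, hqf, by simpa using hrun⟩
  · simp only [Comp] at hw
    subst hw
    exact ⟨[], Relation.ReflTransGen.refl, Run.nil _⟩
  · obtain ⟨w', rfl, v, hv, hrun⟩ := (comp_map_append _ u _ w).1 hw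
    refine ⟨b :: v, ?_, Run.read _ _ _ _ _ _ _ h1 hrun⟩
    simpa using hv.append_left [Symbol.terminal b]
  · obtain ⟨w₁, _, rfl, ⟨v₁, hv₁, hrun₁⟩, w₂, _, rfl, ⟨v₂, hv₂, hrun₂⟩, rfl⟩ := hw
    refine ⟨v₁ ++ v₂, ?_, by simpa using hrun₁.append hrun₂⟩
    have h2 : g.Produces [Symbol.nonterminal r'.input] r'.output :=
      ⟨r', hr', ContextFreeRule.Rewrites.input_output⟩
    have := derives_append (h2.trans_derives hv₁) hv₂
    simpa using this
  · obtain ⟨w', rfl, v, hv, hrun⟩ := (comp_map_append _ u _ w).1 hw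
    exact ⟨v, hv, Run.eps _ _ _ _ _ _ h1 hrun⟩

theorem Run.mem {P : Finset Q} (hD : ∀ q b w p, (q, b, w, p) ∈ D → p ∈ P)
    (hE : ∀ q w p, (q, w, p) ∈ E → p ∈ P) {q q' : Q} {v : List T} {w : List A}
    (h : Run D E q v w q') (hq : q ∈ P) : q' ∈ P := by
  induction h with
  | nil q => exact hq
  | eps q w₁ p v w q' h1 _ ih => exact ih (hE _ _ _ h1)
  | read q b w₁ p v w q' h1 _ ih => exact ih (hD _ _ _ _ h1)

theorem image_complete (g : ContextFreeGrammar T) (P : Finset Q) (q₀ : Q) (F : Finset Q)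
    (hD : ∀ q b w p, (q, b, w, p) ∈ D → p ∈ P) (hE : ∀ q w p, (q, w, p) ∈ E → p ∈ P)
    {α : List (Symbol T g.NT)} {v : List T} (h : Yld g α v) :
    α ∈ Suf g → ∀ (q : Q) (w : List A) (q' : Q), q ∈ P → Run D E q v w q' →
      w ∈ Gen (image D E g P q₀ F) (some (q, α, q')) := by
  -- auxiliary: ε-moves
  have heps : ∀ (q : Q) (u : List A) (p : Q) (α : List (Symbol T g.NT)) (w : List A) (q' : Q),
      (q, u, p) ∈ E → α ∈ Suf g → q' ∈ P →
      w ∈ Gen (image D E g P q₀ F) (some (p, α, q')) →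
      u ++ w ∈ Gen (image D E g P q₀ F) (some (q, α, q')) := by
    intro q u p α w q' h1 h2 h3 h4
    have hr := (mem_image_rules D E g P q₀ F _).2
      (Or.inr (Or.inr (Or.inr (Or.inr ⟨q, u, p, α, q', h1, h2, h3, rfl⟩))))
    exact gen_of_rule _ _ hr _ ((comp_map_append _ u _ _).2 ⟨w, rfl, h4⟩)
  induction h with
  | nil =>
    intro hα q w q' hq hrun
    generalize hv : ([] : List T) = v at hrun
    induction hrun with
    | nil q =>
      have hr := (mem_image_rules D E g P q₀ F _).2 (Or.inr (Or.inl ⟨q, hq, rfl⟩))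
      exact gen_of_rule _ _ hr _ (by simp [Comp])
    | eps q w₁ p v w q' h1 h2 ih =>
      have hp := hE _ _ _ h1
      exact heps _ _ _ _ _ _ h1 hα (Run.mem D E hD hE h2 hp) (ih hp hv)
    | read q b w₁ p v w q' h1 _ ih => simp at hv
  | term b α v hY ih0 =>
    intro hα q w q' hq hrun
    generalize hv : b :: v = v' at hrun
    induction hrun with
    | nil q => simp at hv
    | eps q w₁ p v w q' h1 h2 ih =>
      have hp := hE _ _ _ h1
      exact heps _ _ _ _ _ _ h1 hα (Run.mem D E hD hE h2 hp) (ih hp hv)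
    | read q c w₁ p v w q' h1 h2 ih =>
      obtain ⟨rfl, rfl⟩ := List.cons.inj hv
      have hp := hD _ _ _ _ h1
      have hw := ih0 (Suf_tail hα) p w q' hp h2
      have hr := (mem_image_rules D E g P q₀ F _).2
        (Or.inr (Or.inr (Or.inl ⟨q, b, w₁, p, α, q', h1, Suf_tail hα, Run.mem D E hD hE h2 hp, rfl⟩)))
      exact gen_of_rule _ _ hr _ ((comp_map_append _ w₁ _ _).2 ⟨w, rfl, hw⟩)
  | node r α w₁ w₂ hr0 hY1 hY2 ih1 ih2 =>
    intro hα q w q' hq hrun
    obtain ⟨p, u₁, u₂, rfl, h1, h2⟩ := hrun.split rfl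
    have hp := Run.mem D E hD hE h1 hq
    have hq' := Run.mem D E hD hE h2 hp
    have g1 := ih1 (Suf_out hr0) q u₁ p hq h1
    have g2 := ih2 (Suf_tail hα) p u₂ q' hp h2
    have hr := (mem_image_rules D E g P q₀ F _).2
      (Or.inr (Or.inr (Or.inr (Or.inl ⟨r, hr0, α, Suf_tail hα, q, hq, p, hp, q', hq', rfl⟩))))
    exact gen_of_rule _ _ hr _ ⟨u₁, u₂, rfl, g1, u₂, [], by simp, g2, rfl⟩

/-- Context-free languages are closed under finite transductions. -/
theorem image_language (g : ContextFreeGrammar T) (P : Finset Q) (q₀ : Q) (F : Finset Q)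
    (hD : ∀ q b w p, (q, b, w, p) ∈ D → p ∈ P) (hE : ∀ q w p, (q, w, p) ∈ E → p ∈ P) (hq₀ : q₀ ∈ P)
    (w : List A) : w ∈ (image D E g P q₀ F).language ↔
      ∃ v, v ∈ g.language ∧ ∃ qf ∈ F, Run D E q₀ v w qf := by
  refine language_eq (image D E g P q₀ F) (Sem D E g q₀ F) (image_sound D E g P q₀ F) ?_ w
  rintro w ⟨v, hv, qf, hqf, hrun⟩
  have h1 := image_complete D E g P q₀ F hD hE (yld_of_derives hv) (Suf_init g) q₀ w qf hq₀ hrun
  have hr := (mem_image_rules D E g P q₀ F _).2 (Or.inl ⟨qf, hqf, rfl⟩)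
  exact gen_of_rule _ _ hr _ ⟨w, [], by simp, h1, rfl⟩

end

end Pool.Agent.Helper79.Trans
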